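import Mathlib
import Pool.Agent.H77.IC.Defs

/-!
# MP_f2dc7b: central shadows of 4-polytopes, definitions

Folder of helper2. `E4`, `IsFacet`, `Ico`, `IsIco`, `IsRegIco`, `inner`, `Core`, `nb` are those of
helper77 (`Pool.Agent.H77.IC.Defs`).
-/

set_option autoImplicit false

open Module

namespace Pool.Agent.H2.IR

open Pool.Agent.H77.IC

/-- The plane through `x`, `a`, `b` meets the relative interior of `F`. -/
def Crosses (a b : E4) (F : Set E4) (x : E4) : Prop :=
  ∃ s t : ℝ, Core F (x + s • (a - x) + t • (b - x))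

/-- The vertices `x` of `F`, different from `a` and `b`, such that the plane through `x`, `a`
and `b` meets the relative interior of `F`. -/
def innerFrom (a b : E4) (F : Set E4) : Set E4 :=
  {x | x ∈ F.extremePoints ℝ ∧ x ≠ a ∧ x ≠ b ∧ Crosses a b F x}

/-- `F` is stout: for every point `u` of its affine hull and for every direction `u` of its
affine hull there are at least two vertices `x` of `F` such that the line through `x` and `u`
(the line through `x` of direction `u`) meets the relative interior of `F`. -/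
def Stout (F : Set E4) : Prop :=
  (∀ u ∈ affineSpan ℝ F,
    2 ≤ {x | x ∈ F.extremePoints ℝ ∧ ∃ s : ℝ, Core F (x + s • (u - x))}.ncard) ∧
  (∀ u ∈ (affineSpan ℝ F).direction, u ≠ 0 →
    2 ≤ {x | x ∈ F.extremePoints ℝ ∧ ∃ s : ℝ, Core F (x + s • u)}.ncard)

/-- `F` is a projective image of a polytope close to the regular icosahedron: the map `q` moves
every vertex of the regular icosahedron `Ico` (edge length 2) by at most `3/16`, and `F` is the
image of the convex hull `D` of the moved vertices under the projective map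
`x ↦ L (x, 1) / l (x, 1)`, where `(L, l)` is linear and injective and `l (x, 1) > 0` on `D`. -/
def NearReg (F : Set E4) : Prop :=
  ∃ (q : (Fin 3 → ℝ) → (Fin 3 → ℝ)) (L : ((Fin 3 → ℝ) × ℝ) →ₗ[ℝ] E4)
    (l : ((Fin 3 → ℝ) × ℝ) →ₗ[ℝ] ℝ),
    (∀ v ∈ Ico.extremePoints ℝ, ∑ k, (q v k - v k) ^ 2 ≤ (3 / 16) ^ 2) ∧
    (∀ z, L z = 0 → l z = 0 → z = 0) ∧
    (∀ x ∈ convexHull ℝ (q '' Ico.extremePoints ℝ), 0 < l (x, 1)) ∧
    F = (fun x => (l (x, 1))⁻¹ • L (x, 1)) '' convexHull ℝ (q '' Ico.extremePoints ℝ)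

/-- For a set `D` in 3-space: `z` is an algebraically interior point. -/
def Inn (D : Set (Fin 3 → ℝ)) (z : Fin 3 → ℝ) : Prop :=
  z ∈ D ∧ ∀ e : Fin 3 → ℝ, ∃ δ : ℝ, 0 < δ ∧ z + δ • e ∈ D

end Pool.Agent.H2.IR
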