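import Mathlib
import Pool.Agent.H2.IR.Defs

/-!
# A pentagonal cone (module Cone5, about 110 lines, elementary)

Five vectors `w j` (`j : Fin 5`, indices mod 5) and five normals `n j` in 3-space with
`n j ⬝ w j = n j ⬝ w (j+1) = 0` and `n j ⬝ w k < 0` for the other three `k`. Every `d` with
`n j ⬝ d < 0` for all `j` is a nonnegative combination of the `w j`.

PROOF. For the three `j` with `n j ⬝ w 0 < 0` (`j = 1, 2, 3`) put `λ_j = (n j ⬝ d)/(n j ⬝ w 0) > 0`,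
`λ` the smallest, attained at `j*`. `e = d - λ w 0` has `n j* ⬝ e = 0` and `n j ⬝ e ≤ 0` for all `j`
(for `j = 0, 4` it is `n j ⬝ d`). `w j*`, `w (j*+1)` are linearly independent (apply `n (j*-1)` and
`n (j*+1)`: `n (j*-1)` vanishes at `w j*`, is negative at `w (j*+1)`; `n (j*+1)` is negative at
`w j*`, vanishes at `w (j*+1)`) and lie in the plane `n j* ⬝ x = 0` (`n j* ≠ 0`), of rank 2, so
`e = α w j* + β w (j*+1)`. `n (j*-1) ⬝ e = β (n (j*-1) ⬝ w (j*+1)) ≤ 0` gives `β ≥ 0`,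
`n (j*+1) ⬝ e = α (n (j*+1) ⬝ w j*) ≤ 0` gives `α ≥ 0`. (Instead of the rank argument one may prove
once, for vectors `u, v, n, e` of 3-space with `n⬝u = n⬝v = n⬝e = 0`, `n ≠ 0`, `u, v` independent,
that `e` is a combination of `u, v`.) In `Fin 5` write `j + 4` for `j - 1`; `fin_cases` for the
three values of `j*` is fine.
-/

set_option autoImplicit false

open Module

namespace Pool.Agent.H2.IR

private lemma Cone5_zero {a b c e : Fin 3 → ℝ} (ha : a ⬝ᵥ e = 0) (hb : b ⬝ᵥ e = 0)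
    (hc : c ⬝ᵥ e = 0)
    (h : ∀ x y z : ℝ, x • a + y • b + z • c = 0 → x = 0 ∧ y = 0 ∧ z = 0) : e = 0 := by
  have hdet : (Matrix.of ![a, b, c]).det ≠ 0 := by
    intro h0
    obtain ⟨v, hv, hv0⟩ := Matrix.exists_vecMul_eq_zero_iff.2 h0
    have h1 : v 0 • a + v 1 • b + v 2 • c = 0 := by
      rw [← hv0]
      funext k
      simp [Matrix.vecMul, dotProduct, Fin.sum_univ_three]
    obtain ⟨h2, h3, h4⟩ := h _ _ _ h1
    apply hv
    funext k
    fin_cases k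
    · exact h2
    · exact h3
    · exact h4
  refine Matrix.eq_zero_of_mulVec_eq_zero hdet ?_
  funext k
  fin_cases k
  · exact ha
  · exact hb
  · exact hc

private lemma Cone5_comb {n p q u v e : Fin 3 → ℝ} (hn : n ≠ 0) (hnu : n ⬝ᵥ u = 0)
    (hnv : n ⬝ᵥ v = 0) (hne : n ⬝ᵥ e = 0) (hpu : p ⬝ᵥ u = 0) (hpv : p ⬝ᵥ v ≠ 0)
    (hqu : q ⬝ᵥ u ≠ 0) (hqv : q ⬝ᵥ v = 0) :
    e = ((q ⬝ᵥ e) / (q ⬝ᵥ u)) • u + ((p ⬝ᵥ e) / (p ⬝ᵥ v)) • v := by
  set α := (q ⬝ᵥ e) / (q ⬝ᵥ u) with hα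
  set β := (p ⬝ᵥ e) / (p ⬝ᵥ v) with hβ
  have hα' : α * (q ⬝ᵥ u) = q ⬝ᵥ e := div_mul_cancel₀ _ hqu
  have hβ' : β * (p ⬝ᵥ v) = p ⬝ᵥ e := div_mul_cancel₀ _ hpv
  have h0 : e - (α • u + β • v) = 0 := by
    refine Cone5_zero (a := n) (b := p) (c := q) ?_ ?_ ?_ ?_
    · rw [dotProduct_sub, dotProduct_add, dotProduct_smul, dotProduct_smul, hnu, hnv, hne]
      simp
    · rw [dotProduct_sub, dotProduct_add, dotProduct_smul, dotProduct_smul, hpu, smul_eq_mul,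
        smul_eq_mul, hβ']
      ring
    · rw [dotProduct_sub, dotProduct_add, dotProduct_smul, dotProduct_smul, hqv, smul_eq_mul,
        smul_eq_mul, hα']
      ring
    · intro x y z h
      have h1 := congrArg (fun t => t ⬝ᵥ u) h
      have h2 := congrArg (fun t => t ⬝ᵥ v) h
      simp only [add_dotProduct, smul_dotProduct, hnu, hpu, hnv, hqv, smul_eq_mul,
        zero_dotProduct, mul_zero, zero_add, add_zero] at h1 h2
      have hz : z = 0 := (mul_eq_zero.1 h1).resolve_right hqu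
      have hy : y = 0 := (mul_eq_zero.1 h2).resolve_right hpv
      rw [hz, hy, zero_smul, zero_smul, add_zero, add_zero] at h
      exact ⟨(smul_eq_zero.1 h).resolve_right hn, hy, hz⟩
  exact sub_eq_zero.1 h0

private lemma Cone5_fin : ∀ i : Fin 5, i + 4 + 1 = i ∧ i + 1 ≠ i + 4 ∧ i + 1 ≠ i ∧ i ≠ i + 1 ∧
    i ≠ i + 1 + 1 ∧ i + 2 ≠ i ∧ i + 2 ≠ i + 1 := by
  decide

theorem cone5 (w n : Fin 5 → (Fin 3 → ℝ)) (h0 : ∀ j, n j ⬝ᵥ w j = 0)
    (h1 : ∀ j, n j ⬝ᵥ w (j + 1) = 0) (h2 : ∀ j k, k ≠ j → k ≠ j + 1 → n j ⬝ᵥ w k < 0)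
    {d : Fin 3 → ℝ} (hd : ∀ j, n j ⬝ᵥ d < 0) :
    ∃ c : Fin 5 → ℝ, (∀ j, 0 ≤ c j) ∧ d = ∑ j, c j • w j := by
  have hw0 : ∀ j ∈ ({1, 2, 3} : Finset (Fin 5)), n j ⬝ᵥ w 0 < 0 := by
    intro j hj
    refine h2 j 0 ?_ ?_
    · revert hj; revert j; decide
    · revert hj; revert j; decide
  obtain ⟨i, hi, hmin⟩ := Finset.exists_min_image ({1, 2, 3} : Finset (Fin 5))
    (fun j => (n j ⬝ᵥ d) / (n j ⬝ᵥ w 0)) ⟨1, by decide⟩
  set t : ℝ := (n i ⬝ᵥ d) / (n i ⬝ᵥ w 0) with ht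
  have hiw := hw0 i hi
  have ht0 : 0 ≤ t := (div_pos_of_neg_of_neg (hd i) hiw).le
  have hti : t * (n i ⬝ᵥ w 0) = n i ⬝ᵥ d := div_mul_cancel₀ _ hiw.ne
  set e : Fin 3 → ℝ := d - t • w 0 with he
  have hne : ∀ j, n j ⬝ᵥ e = n j ⬝ᵥ d - t * (n j ⬝ᵥ w 0) := by
    intro j
    rw [he, dotProduct_sub, dotProduct_smul, smul_eq_mul]
  have hle : ∀ j, n j ⬝ᵥ e ≤ 0 := by
    intro j
    rw [hne j]
    by_cases hj : j ∈ ({1, 2, 3} : Finset (Fin 5))
    · have h3 := hmin j hj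
      have h4 := hw0 j hj
      rw [le_div_iff_of_neg h4] at h3
      linarith
    · have h3 : n j ⬝ᵥ w 0 = 0 := by
        have h4 : j = 0 ∨ j = 4 := by
          revert hj; revert j; decide
        rcases h4 with h4 | h4
        · rw [h4]; exact h0 0
        · rw [h4]; exact h1 4
      rw [h3, mul_zero, sub_zero]
      exact (hd j).le
  have hi0 : n i ⬝ᵥ e = 0 := by rw [hne i, hti, sub_self]
  obtain ⟨e45, f1, f2, f3, f4, f5, f6⟩ := Cone5_fin i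
  have a1 : n (i + 4) ⬝ᵥ w i = 0 := by
    have := h1 (i + 4)
    rwa [e45] at this
  have a2 : n (i + 4) ⬝ᵥ w (i + 1) < 0 := by
    exact h2 (i + 4) (i + 1) f1 (by rw [e45]; exact f2)
  have a3 : n (i + 1) ⬝ᵥ w i < 0 := by
    exact h2 (i + 1) i f3 f4
  have a4 : n i ≠ 0 := by
    intro h
    have h3 := h2 i (i + 2) f5 f6
    rw [h, zero_dotProduct] at h3
    exact lt_irrefl _ h3
  have hcomb := Cone5_comb (n := n i) (p := n (i + 4)) (q := n (i + 1)) (u := w i)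
    (v := w (i + 1)) (e := e) a4 (h0 i) (h1 i) hi0 a1 a2.ne a3.ne (h0 (i + 1))
  set α := (n (i + 1) ⬝ᵥ e) / (n (i + 1) ⬝ᵥ w i) with hα
  set β := (n (i + 4) ⬝ᵥ e) / (n (i + 4) ⬝ᵥ w (i + 1)) with hβ
  have hα0 : 0 ≤ α := div_nonneg_of_nonpos (hle _) a3.le
  have hβ0 : 0 ≤ β := div_nonneg_of_nonpos (hle _) a2.le
  refine ⟨fun j => (if j = 0 then t else 0) + (if j = i then α else 0) +
    (if j = i + 1 then β else 0), fun j => ?_, ?_⟩
  · have b1 : 0 ≤ (if j = 0 then t else 0) := by split_ifs <;> simp [ht0]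
    have b2 : 0 ≤ (if j = i then α else 0) := by split_ifs <;> simp [hα0]
    have b3 : 0 ≤ (if j = i + 1 then β else 0) := by split_ifs <;> simp [hβ0]
    positivity
  · have h5 : d = t • w 0 + e := by rw [he]; abel
    rw [h5, hcomb]
    simp only [add_smul, ite_smul, zero_smul, Finset.sum_add_distrib, Finset.sum_ite_eq',
      Finset.mem_univ, if_true]
    abel

end Pool.Agent.H2.IR
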