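import Mathlib
import Pool.Agent.H2.IR.Defs
import Pool.Agent.H77.IC.Facet
import Pool.Agent.H77.IC.Expose
import Pool.Agent.H77.IC.Sweep
import Pool.Agent.H77.IC.Tilt

/-!
# Edges of the polytope and of its facets (module EdgeP, about 110 lines)

`P = convexHull ℝ S`. `nb P x` is the set of the vertices joined to `x` by an edge of `P`.

* `nb_up`: an edge of a facet is an edge of `P`: `G` exposed in `F` is exposed in `P`
  (`Pool.Agent.H27.Content.face_trans S hF.1 hG`), `G ∩ ext P = G ∩ ext F`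
  (both are `G.extremePoints`, `ext_face`).
* `nb_down`: an edge of `P` whose ends lie in the facet `F` is an edge of `F`: `G = segment` is the
  hull of its two vertices (`face_hull_ext`), so `G ⊆ F`, exposed in `F` (`face_sub`); see the
  proof of `edge_trans`.
* `nb_many`: if every facet at `x` has at least five vertices joined to `x`, then
  `3 N + 4 ≤ 2 #(nb P x)`, `N` the number of facets at `x`. Take
  `Y = {y | ∃ facet F ∋ x, y ∈ nb F x}` (as in the proof of `ico_twelve` in
  `Pool.Agent.H77.IC.Twelve`), `sweep` gives `5 N + 4 ≤ 2 #Y + 2 N`, and `Y ⊆ nb P x` (`nb_up`),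
  which is finite (`ext_finite`). There is a facet at `x` by `vertex_in_facet`.
-/

set_option autoImplicit false

open Module

namespace Pool.Agent.H2.IR

open Pool.Agent.H77.IC

/-- being joined by an edge is symmetric (complete) -/
theorem nb_symm {F : Set E4} {x y : E4} (h : y ∈ nb F x) : x ∈ nb F y := by
  obtain ⟨h1, h2, h3, G, h4, h5⟩ := h
  exact ⟨h1.symm, h3, h2, G, h4, by rw [h5, Set.pair_comm]⟩

theorem nb_up (S : Finset E4) {F : Set E4} (hF : IsFacet (convexHull ℝ (S : Set E4)) F)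
    {x y : E4} (hy : y ∈ nb F x) : y ∈ nb (convexHull ℝ (S : Set E4)) x := by
  obtain ⟨hne, hxe, hye, G, hG, hGe⟩ := hy
  have hGP : IsExposed ℝ (convexHull ℝ (S : Set E4)) G :=
    Pool.Agent.H27.Content.face_trans S hF.1 hG
  refine ⟨hne, hF.1.isExtreme.extremePoints_subset_extremePoints hxe,
    hF.1.isExtreme.extremePoints_subset_extremePoints hye, G, hGP, ?_⟩
  rw [← ext_face hGP, ext_face hG, hGe]

theorem nb_down (S : Finset E4) {F : Set E4} (hF : IsFacet (convexHull ℝ (S : Set E4)) F)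
    {x y : E4} (hy : y ∈ nb (convexHull ℝ (S : Set E4)) x) (hxF : x ∈ F) (hyF : y ∈ F) :
    y ∈ nb F x := by
  obtain ⟨hne, hxe, hye, G, hG, hGe⟩ := hy
  have hFconv : Convex ℝ F := hF.1.convex (convex_convexHull ℝ _)
  have hGext : G.extremePoints ℝ = {x, y} := by
    rw [ext_face hG, hGe]
  have hGF' : G ⊆ F := by
    rw [face_hull_ext S hG, hGext]
    refine convexHull_min ?_ hFconv
    rintro z hz
    simp only [Set.mem_insert_iff, Set.mem_singleton_iff] at hz
    rcases hz with rfl | rfl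
    · exact hxF
    · exact hyF
  have hGF : IsExposed ℝ F G := face_sub hG hF.1.subset hGF'
  refine ⟨hne, ?_, ?_, G, hGF, ?_⟩
  · rw [ext_face hF.1]
    exact ⟨hxF, hxe⟩
  · rw [ext_face hF.1]
    exact ⟨hyF, hye⟩
  · rw [← ext_face hGF, hGext]

theorem nb_many (S : Finset E4) (hS : (interior (convexHull ℝ (S : Set E4))).Nonempty) {x : E4}
    (hx : x ∈ (convexHull ℝ (S : Set E4)).extremePoints ℝ)
    (h5 : ∀ F, IsFacet (convexHull ℝ (S : Set E4)) F → x ∈ F → 5 ≤ (nb F x).ncard) :
    3 * {F : Set E4 | IsFacet (convexHull ℝ (S : Set E4)) F ∧ x ∈ F}.ncard + 4 ≤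
      2 * (nb (convexHull ℝ (S : Set E4)) x).ncard := by
  classical
  have hfin : {F : Set E4 | IsFacet (convexHull ℝ (S : Set E4)) F ∧ x ∈ F}.Finite :=
    (facet_finite S).subset fun F hF => hF.1
  have hFF : ∀ F, F ∈ hfin.toFinset ↔ IsFacet (convexHull ℝ (S : Set E4)) F ∧ x ∈ F := fun F => by
    rw [Set.Finite.mem_toFinset]
    exact Iff.rfl
  have hPfin : (nb (convexHull ℝ (S : Set E4)) x).Finite :=
    (ext_finite S).subset fun y hy => hy.2.2.1
  have hY : ∀ y, y ∈ hPfin.toFinset.filter (fun y => ∃ F ∈ hfin.toFinset, y ∈ nb F x) ↔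
      ∃ F ∈ hfin.toFinset, y ∈ nb F x := fun y => by
    rw [Finset.mem_filter, Set.Finite.mem_toFinset]
    constructor
    · exact fun h => h.2
    · rintro ⟨F, hF, hy⟩
      exact ⟨nb_up S ((hFF F).1 hF).1 hy, F, hF, hy⟩
  have h5' : ∀ F ∈ hfin.toFinset, 5 ≤ (nb F x).ncard := fun F hF =>
    h5 F ((hFF F).1 hF).1 ((hFF F).1 hF).2
  have hne : hfin.toFinset.Nonempty := by
    obtain ⟨F, hF, hxF⟩ := vertex_in_facet S hS hx
    exact ⟨F, (hFF F).2 ⟨hF, hxF⟩⟩
  have hsw := sweep S hx hfin.toFinset hFF hne (fun F hF => by have := h5' F hF; omega) _ hY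
  have hA5 : 5 * hfin.toFinset.card ≤ ∑ F ∈ hfin.toFinset, (nb F x).ncard := by
    have := Finset.card_nsmul_le_sum hfin.toFinset (fun F => (nb F x).ncard) 5 h5'
    simpa [mul_comm] using this
  have hN : hfin.toFinset.card =
      {F : Set E4 | IsFacet (convexHull ℝ (S : Set E4)) F ∧ x ∈ F}.ncard := by
    rw [← Set.ncard_coe_finset, Set.Finite.coe_toFinset]
  have hYc : (hPfin.toFinset.filter (fun y => ∃ F ∈ hfin.toFinset, y ∈ nb F x)).card ≤
      (nb (convexHull ℝ (S : Set E4)) x).ncard := by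
    refine (Finset.card_filter_le _ _).trans ?_
    rw [← Set.ncard_coe_finset, Set.Finite.coe_toFinset]
  omega

end Pool.Agent.H2.IR
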