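import Mathlib
import Pool.Agent.H2.IR.Defs
import Pool.Agent.H77.IC.Det
import Pool.Agent.H77.IC.Facet

/-!
# Three faces and a plane (module Faces3, about 45 lines)

`D` is a 2-dimensional space of directions, `x` a point of the three exposed faces `G 0, G 1, G 2`
of the polytope, `z i ∈ G i`, `z i - x ∈ D` and `z j ∉ G i` for `i ≠ j`: impossible.

PROOF: exactly the end of the proof of `two_shadow` in `Pool.Agent.H77.IC.TwoShadow`.
`Pool.Agent.H27.Content.exposed_eq (hG i) ⟨x, hx i⟩` gives `a i`, `M i` with `a i ≤ M i` on the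
polytope and `G i = {x ∈ P | a i x = M i}`. So `a i (z i - x) = 0` and `a i (z j - x) < 0`
for `i ≠ j` (`z j ∈ P`, `≤ M i`, equality would give `z j ∈ G i`). Then `dep_two D hD` and
`no_three` (with `d j = z j - x`).
-/

set_option autoImplicit false

open Module

namespace Pool.Agent.H2.IR

open Pool.Agent.H77.IC

theorem three_faces (S : Finset E4) (D : Submodule ℝ E4) (hD : finrank ℝ D = 2) {x : E4}
    (G : Fin 3 → Set E4) (hG : ∀ i, IsExposed ℝ (convexHull ℝ (S : Set E4)) (G i))
    (hx : ∀ i, x ∈ G i) (z : Fin 3 → E4) (hz : ∀ i, z i ∈ G i) (hzD : ∀ i, z i - x ∈ D)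
    (hne : ∀ i j, i ≠ j → z j ∉ G i) : False := by
  choose a M haM hGa using fun i => Pool.Agent.H27.Content.exposed_eq (hG i) ⟨x, hx i⟩
  have hsub : ∀ i, G i ⊆ convexHull ℝ (S : Set E4) := fun i => (hG i).subset
  have haz : ∀ i, a i (z i) = M i := by
    intro i
    have h := hz i
    rw [hGa i] at h
    exact h.2
  have hax : ∀ i, a i x = M i := by
    intro i
    have h := hx i
    rw [hGa i] at h
    exact h.2
  have hneg : ∀ i j, i ≠ j → a i (z j) < M i := by
    intro i j hij
    refine lt_of_le_of_ne (haM i _ (hsub j (hz j))) ?_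
    intro he
    apply hne i j hij
    rw [hGa i]
    exact ⟨hsub j (hz j), he⟩
  obtain ⟨c, hc0, hdep⟩ := dep_two D hD (fun i => (a i : E4 →ₗ[ℝ] ℝ))
  refine no_three (fun i => (a i : E4 →ₗ[ℝ] ℝ)) (fun j => z j - x) c hc0 ?_ ?_ ?_
  · intro j
    exact hdep (z j - x) (hzD j)
  · intro i
    simp only [ContinuousLinearMap.coe_coe, map_sub, haz i, hax i, sub_self]
  · intro i j hij
    simp only [ContinuousLinearMap.coe_coe, map_sub, hax i]
    linarith [hneg i j hij]

end Pool.Agent.H2.IR
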