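import Mathlib
import Pool.Agent.H2.IR.Defs
import Pool.Agent.H2.IR.Faces3
import Pool.Agent.H77.IC.CoreA
import Pool.Agent.H77.IC.Facet
import Pool.Agent.H77.IC.Sep

/-!
# Facets at a vertex crossed by the plane through two other vertices (module Local, about 150 lines)

`P = convexHull ℝ S`, `a, b, x` three different vertices of `P`;
`crossed S a b x` is the set of the facets `F ∋ x` whose relative interior meets the plane `x a b`.
Put `D = span {a - x, b - x}`: `finrank D = 2` because `a - x`, `b - x` are linearly independent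
(`not_proportional`, `LinearIndependent.pair_iff'`, `finrank_span_eq_card`; see `tri_rank` in
`Pool.Agent.H77.IC.Valence`).

* `crossed_two`: three different facets with core points `z i`, `z i - x ∈ D`, contradict
  `three_faces` (`z j ∉ F i` by `eq_of_core`). Use `Set.two_lt_ncard_iff` as in `two_shadow`.
* `crossed_one`: if `x, a, b` all lie in the facet `F0`, a core point `z` of `F` of the plane has
  the same value `M` under the functional of `F0` (`facet_eq`), so `z ∈ F0` and `F = F0`
  (`eq_of_core`). So the set is contained in `{F0}`.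
* `crossed_nb`: no facet contains `x`, `a` and `b`. (A) If `F` is in `crossed S a b x` with core
  point `z = x + s (a - x) + t (b - x)` and `a ∈ nb P x` with edge `G`, `G ∩ ext P = {x, a}`, then
  `z ∉ G`: otherwise the functional of `G` (`exposed_eq`) is maximal at the core point `z` of `F`,
  so `F ⊆ G` (`core_max`), so the at least four vertices of `F` (`facet_four`, `ext_face`) are
  among `x, a`. (B) `a ∉ F`: otherwise `b ∉ F`; the functional `c, M` of `F` gives
  `M = c z = M + t (c b - M)`, `c b < M`, so `t = 0`, `z = x + s (a - x)`, and the functional of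
  `G`, equal at `x` and `a`, is equal at `z`, so `z ∈ G`, contradicting (A). The same for `b`.
  Now let `A = 1` if `a ∈ nb P x`, else `0`, `B` likewise.
  `A = B = 0`: `crossed_two`. `A = 1, B = 0`: two different facets `F1, F2` of the set with core
  points `z1, z2`, the edge `G` with `z3 = a`: contradiction to `three_faces`. `B = 1, A = 0`: the
  same. `A = B = 1`: one facet `F1`, the two edges `G_a`, `G_b` with `z = a`, `b`
  (`a ∉ G_b` since `G_b ∩ ext P = {x, b}`).
-/

set_option autoImplicit false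

open Module

namespace Pool.Agent.H2.IR

open Pool.Agent.H77.IC

/-- The facets at `x` whose relative interior meets the plane through `x`, `a`, `b`. -/
def crossed (S : Finset E4) (a b x : E4) : Set (Set E4) :=
  {F | IsFacet (convexHull ℝ (S : Set E4)) F ∧ x ∈ F ∧ Crosses a b F x}

private theorem local_finite (S : Finset E4) (a b x : E4) : (crossed S a b x).Finite :=
  (facet_finite S).subset fun _ h => h.1

private theorem local_symm (S : Finset E4) (a b x : E4) : crossed S a b x = crossed S b a x := by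
  have h : ∀ a b : E4, crossed S a b x ⊆ crossed S b a x := by
    rintro a b F ⟨h1, h2, s, t, h3⟩
    refine ⟨h1, h2, t, s, ?_⟩
    rw [add_right_comm]
    exact h3
  exact Set.Subset.antisymm (h a b) (h b a)

private theorem local_span (S : Finset E4) {a b x : E4}
    (hx : x ∈ (convexHull ℝ (S : Set E4)).extremePoints ℝ)
    (ha : a ∈ (convexHull ℝ (S : Set E4)).extremePoints ℝ)
    (hb : b ∈ (convexHull ℝ (S : Set E4)).extremePoints ℝ) (hxa : a ≠ x) (hxb : b ≠ x)
    (hab : a ≠ b) : ∃ D : Submodule ℝ E4, finrank ℝ D = 2 ∧ a - x ∈ D ∧ b - x ∈ D := by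
  have hli : LinearIndependent ℝ ![a - x, b - x] := by
    rw [LinearIndependent.pair_iff' (sub_ne_zero.2 hxa)]
    intro c hc
    exact not_proportional (convex_convexHull ℝ (S : Set E4)) hx hb ha hxb hxa hab.symm c hc.symm
  have h2 := finrank_span_eq_card hli
  have h3 : Set.range ![a - x, b - x] = {a - x, b - x} := by
    rw [Matrix.range_cons, Matrix.range_cons, Matrix.range_empty, Set.union_empty]
    rfl
  rw [h3] at h2
  refine ⟨Submodule.span ℝ {a - x, b - x}, ?_, Submodule.subset_span (by simp),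
    Submodule.subset_span (by simp)⟩
  rw [h2]
  simp

private theorem local_mem {D : Submodule ℝ E4} {a b x : E4} (ha : a - x ∈ D) (hb : b - x ∈ D)
    (s t : ℝ) : x + s • (a - x) + t • (b - x) - x ∈ D := by
  have e : x + s • (a - x) + t • (b - x) - x = s • (a - x) + t • (b - x) := by
    rw [add_assoc, add_sub_cancel_left]
  rw [e]
  exact D.add_mem (D.smul_mem s ha) (D.smul_mem t hb)

/-- A core point of a facet is not on an edge. -/
private theorem local_edge (S : Finset E4) {F G : Set E4} {x a z : E4}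
    (hF : IsFacet (convexHull ℝ (S : Set E4)) F) (hz : Core F z)
    (hG : IsExposed ℝ (convexHull ℝ (S : Set E4)) G)
    (hGe : G ∩ (convexHull ℝ (S : Set E4)).extremePoints ℝ = {x, a}) : z ∉ G := by
  intro hzG
  obtain ⟨c, M, hM, hGM⟩ := Pool.Agent.H27.Content.exposed_eq hG ⟨z, hzG⟩
  have hzM : c z = M := by
    have h := hzG
    rw [hGM] at h
    exact h.2
  have h1 := core_max hz (c : E4 →ₗ[ℝ] ℝ) M (fun y hy => hM y (hF.1.subset hy)) hzM
  have hFG : F ⊆ G := by
    intro y hy
    rw [hGM]
    exact ⟨hF.1.subset hy, h1 y hy⟩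
  have h2 := facet_four S hF
  rw [ext_face hF.1] at h2
  have h3 : F ∩ (convexHull ℝ (S : Set E4)).extremePoints ℝ ⊆ {x, a} := by
    rw [← hGe]
    exact Set.inter_subset_inter_left _ hFG
  have h4 := Set.ncard_le_ncard h3 (Set.toFinite _)
  have h5 : ({x, a} : Set E4).ncard ≤ 2 := by
    have h := Set.ncard_insert_le x ({a} : Set E4)
    rw [Set.ncard_singleton] at h
    exact h
  omega

/-- A facet crossed at `x` contains no neighbour `a` of `x` (if no facet contains `x`, `a`, `b`). -/
private theorem local_notin (S : Finset E4) {a b x : E4} {F G : Set E4}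
    (hb : b ∈ (convexHull ℝ (S : Set E4)).extremePoints ℝ)
    (hno : ∀ F, IsFacet (convexHull ℝ (S : Set E4)) F → a ∈ F → b ∈ F → x ∉ F)
    (hF : F ∈ crossed S a b x) (hG : IsExposed ℝ (convexHull ℝ (S : Set E4)) G)
    (hGe : G ∩ (convexHull ℝ (S : Set E4)).extremePoints ℝ = {x, a}) : a ∉ F := by
  intro haF
  obtain ⟨hfac, hxF, s, t, hz⟩ := hF
  have hbF : b ∉ F := fun h => hno F hfac haF h hxF
  obtain ⟨-, c, M, hM, hFM⟩ := facet_eq hfac
  have hval : ∀ {y : E4}, y ∈ F → c y = M := by
    intro y hy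
    rw [hFM] at hy
    exact hy.2
  have hcx := hval hxF
  have hca := hval haF
  have hcz := hval hz.1
  have hcb : c b < M := by
    refine lt_of_le_of_ne (hM b hb.1) fun h => hbF ?_
    rw [hFM]
    exact ⟨hb.1, h⟩
  rw [map_add, map_add, map_smul, map_smul, map_sub, map_sub, smul_eq_mul, smul_eq_mul, hcx, hca,
    sub_self, mul_zero, add_zero] at hcz
  have ht : t = 0 := by
    have h1 : t * (c b - M) = 0 := by linarith
    rcases mul_eq_zero.1 h1 with h | h
    · exact h
    · exact absurd h (by linarith)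
  subst ht
  rw [zero_smul, add_zero] at hz
  have hxG : x ∈ G := by
    have h : x ∈ G ∩ (convexHull ℝ (S : Set E4)).extremePoints ℝ := by rw [hGe]; simp
    exact h.1
  have haG : a ∈ G := by
    have h : a ∈ G ∩ (convexHull ℝ (S : Set E4)).extremePoints ℝ := by rw [hGe]; simp
    exact h.1
  apply local_edge S hfac hz hG hGe
  obtain ⟨d, M', hM', hGM⟩ := Pool.Agent.H27.Content.exposed_eq hG ⟨x, hxG⟩
  have hzP : x + s • (a - x) ∈ convexHull ℝ (S : Set E4) := hfac.1.subset hz.1
  rw [hGM] at hxG haG ⊢
  refine ⟨hzP, ?_⟩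
  rw [map_add, map_smul, map_sub, hxG.2, haG.2, sub_self, smul_zero, add_zero]

theorem crossed_two (S : Finset E4) {a b x : E4}
    (hx : x ∈ (convexHull ℝ (S : Set E4)).extremePoints ℝ)
    (ha : a ∈ (convexHull ℝ (S : Set E4)).extremePoints ℝ)
    (hb : b ∈ (convexHull ℝ (S : Set E4)).extremePoints ℝ) (hxa : a ≠ x) (hxb : b ≠ x)
    (hab : a ≠ b) : (crossed S a b x).ncard ≤ 2 := by
  by_contra hcon
  push Not at hcon
  obtain ⟨F₀, F₁, F₂, h0, h1, h2, h01, h02, h12⟩ :=
    (Set.two_lt_ncard_iff (local_finite S a b x)).1 hcon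
  let F : Fin 3 → Set E4 := ![F₀, F₁, F₂]
  have hF : ∀ i, F i ∈ crossed S a b x := by
    intro i
    fin_cases i
    · exact h0
    · exact h1
    · exact h2
  have hinj : ∀ i j, i ≠ j → F i ≠ F j := by
    intro i j hij
    fin_cases i <;> fin_cases j
    · exact absurd rfl hij
    · exact h01
    · exact h02
    · exact h01.symm
    · exact absurd rfl hij
    · exact h12
    · exact h02.symm
    · exact h12.symm
    · exact absurd rfl hij
  obtain ⟨D, hD, haD, hbD⟩ := local_span S hx ha hb hxa hxb hab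
  have hcr : ∀ i, Crosses a b (F i) x := fun i => (hF i).2.2
  choose s t hz using hcr
  refine three_faces S D hD F (fun i => (hF i).1.1) (fun i => (hF i).2.1)
    (fun i => x + s i • (a - x) + t i • (b - x)) (fun i => (hz i).1)
    (fun i => local_mem haD hbD _ _) ?_
  intro i j hij hmem
  exact hinj j i (Ne.symm hij) (eq_of_core (hF i).1 (hF j).1 (hz j) hmem)

theorem crossed_one (S : Finset E4) {a b x : E4} {F0 : Set E4}
    (hF0 : IsFacet (convexHull ℝ (S : Set E4)) F0) (hx : x ∈ F0) (ha : a ∈ F0) (hb : b ∈ F0) :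
    (crossed S a b x).ncard ≤ 1 := by
  have hsub : crossed S a b x ⊆ {F0} := by
    rintro F ⟨hfac, -, s, t, hz⟩
    obtain ⟨-, c, M, hM, hFM⟩ := facet_eq hF0
    have hval : ∀ {y : E4}, y ∈ F0 → c y = M := by
      intro y hy
      rw [hFM] at hy
      exact hy.2
    have hmem : x + s • (a - x) + t • (b - x) ∈ F0 := by
      have hzP : x + s • (a - x) + t • (b - x) ∈ convexHull ℝ (S : Set E4) := hfac.1.subset hz.1
      have hcz : c (x + s • (a - x) + t • (b - x)) = M := by
        rw [map_add, map_add, map_smul, map_smul, map_sub, map_sub, hval hx, hval ha, hval hb,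
          sub_self, smul_zero, smul_zero, add_zero, add_zero]
      rw [hFM]
      exact ⟨hzP, hcz⟩
    exact eq_of_core hF0 hfac hz hmem
  have h := Set.ncard_le_ncard hsub (Set.finite_singleton F0)
  rwa [Set.ncard_singleton] at h

private theorem local_one (S : Finset E4) {a b x : E4}
    (hx : x ∈ (convexHull ℝ (S : Set E4)).extremePoints ℝ)
    (ha : a ∈ (convexHull ℝ (S : Set E4)).extremePoints ℝ)
    (hb : b ∈ (convexHull ℝ (S : Set E4)).extremePoints ℝ) (hxa : a ≠ x) (hxb : b ≠ x)
    (hab : a ≠ b)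
    (hno : ∀ F, IsFacet (convexHull ℝ (S : Set E4)) F → a ∈ F → b ∈ F → x ∉ F)
    (haN : a ∈ nb (convexHull ℝ (S : Set E4)) x) : (crossed S a b x).ncard ≤ 1 := by
  by_contra hcon
  push Not at hcon
  obtain ⟨F₁, F₂, h1, h2, h12⟩ := (Set.one_lt_ncard_iff (local_finite S a b x)).1 hcon
  obtain ⟨-, -, -, G, hG, hGe⟩ := haN
  have hxG : x ∈ G := by
    have h : x ∈ G ∩ (convexHull ℝ (S : Set E4)).extremePoints ℝ := by rw [hGe]; simp
    exact h.1
  have haG : a ∈ G := by
    have h : a ∈ G ∩ (convexHull ℝ (S : Set E4)).extremePoints ℝ := by rw [hGe]; simp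
    exact h.1
  have hn1 := local_notin S hb hno h1 hG hGe
  have hn2 := local_notin S hb hno h2 hG hGe
  obtain ⟨D, hD, haD, hbD⟩ := local_span S hx ha hb hxa hxb hab
  obtain ⟨hf1, hx1, s1, t1, hz1⟩ := h1
  obtain ⟨hf2, hx2, s2, t2, hz2⟩ := h2
  have he1 := local_edge S hf1 hz1 hG hGe
  have he2 := local_edge S hf2 hz2 hG hGe
  have h21 : x + s2 • (a - x) + t2 • (b - x) ∉ F₁ := fun h => h12 (eq_of_core hf1 hf2 hz2 h).symm
  have h12' : x + s1 • (a - x) + t1 • (b - x) ∉ F₂ := fun h => h12 (eq_of_core hf2 hf1 hz1 h)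
  refine three_faces S D hD (x := x) ![F₁, F₂, G] ?_ ?_
    ![x + s1 • (a - x) + t1 • (b - x), x + s2 • (a - x) + t2 • (b - x), a] ?_ ?_ ?_
  · intro i
    fin_cases i
    · exact hf1.1
    · exact hf2.1
    · exact hG
  · intro i
    fin_cases i
    · exact hx1
    · exact hx2
    · exact hxG
  · intro i
    fin_cases i
    · exact hz1.1
    · exact hz2.1
    · exact haG
  · intro i
    fin_cases i
    · exact local_mem haD hbD _ _
    · exact local_mem haD hbD _ _
    · exact haD
  · intro i j hij
    fin_cases i <;> fin_cases j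
    · exact absurd rfl hij
    · exact h21
    · exact hn1
    · exact h12'
    · exact absurd rfl hij
    · exact hn2
    · exact he1
    · exact he2
    · exact absurd rfl hij

private theorem local_none (S : Finset E4) {a b x : E4}
    (hx : x ∈ (convexHull ℝ (S : Set E4)).extremePoints ℝ)
    (ha : a ∈ (convexHull ℝ (S : Set E4)).extremePoints ℝ)
    (hb : b ∈ (convexHull ℝ (S : Set E4)).extremePoints ℝ) (hxa : a ≠ x) (hxb : b ≠ x)
    (hab : a ≠ b)
    (hno : ∀ F, IsFacet (convexHull ℝ (S : Set E4)) F → a ∈ F → b ∈ F → x ∉ F)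
    (haN : a ∈ nb (convexHull ℝ (S : Set E4)) x)
    (hbN : b ∈ nb (convexHull ℝ (S : Set E4)) x) : (crossed S a b x).ncard = 0 := by
  rw [Set.ncard_eq_zero (local_finite S a b x), Set.eq_empty_iff_forall_notMem]
  intro F hF
  obtain ⟨-, -, -, G, hG, hGe⟩ := haN
  obtain ⟨-, -, -, G', hG', hGe'⟩ := hbN
  have hm : ∀ {G : Set E4} {a w : E4},
      G ∩ (convexHull ℝ (S : Set E4)).extremePoints ℝ = {x, a} → w ∈ ({x, a} : Set E4) → w ∈ G := by
    intro G a w h hw
    rw [← h] at hw
    exact hw.1
  have hn : ∀ {G : Set E4} {a w : E4},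
      G ∩ (convexHull ℝ (S : Set E4)).extremePoints ℝ = {x, a} →
      w ∈ (convexHull ℝ (S : Set E4)).extremePoints ℝ → w ≠ x → w ≠ a → w ∉ G := by
    intro G a w h hw h1 h2 hwG
    have h3 : w ∈ G ∩ (convexHull ℝ (S : Set E4)).extremePoints ℝ := ⟨hwG, hw⟩
    rw [h] at h3
    rcases h3 with h3 | h3
    · exact h1 h3
    · exact h2 h3
  have hna := local_notin S hb hno hF hG hGe
  have hF' : F ∈ crossed S b a x := by
    rw [local_symm]
    exact hF
  have hnb := local_notin S ha (fun F h1 h2 h3 => hno F h1 h3 h2) hF' hG' hGe'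
  obtain ⟨D, hD, haD, hbD⟩ := local_span S hx ha hb hxa hxb hab
  obtain ⟨hf, hxF, s, t, hz⟩ := hF
  have he := local_edge S hf hz hG hGe
  have he' := local_edge S hf hz hG' hGe'
  refine three_faces S D hD (x := x) ![F, G, G'] ?_ ?_ ![x + s • (a - x) + t • (b - x), a, b] ?_ ?_ ?_
  · intro i
    fin_cases i
    · exact hf.1
    · exact hG
    · exact hG'
  · intro i
    fin_cases i
    · exact hxF
    · exact hm hGe (by simp)
    · exact hm hGe' (by simp)
  · intro i
    fin_cases i
    · exact hz.1
    · exact hm hGe (by simp)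
    · exact hm hGe' (by simp)
  · intro i
    fin_cases i
    · exact local_mem haD hbD _ _
    · exact haD
    · exact hbD
  · intro i j hij
    fin_cases i <;> fin_cases j
    · exact absurd rfl hij
    · exact hna
    · exact hnb
    · exact he
    · exact absurd rfl hij
    · exact hn hGe hb hxb hab.symm
    · exact he'
    · exact hn hGe' ha hxa hab
    · exact absurd rfl hij

open Classical in
theorem crossed_nb (S : Finset E4) {a b x : E4}
    (hx : x ∈ (convexHull ℝ (S : Set E4)).extremePoints ℝ)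
    (ha : a ∈ (convexHull ℝ (S : Set E4)).extremePoints ℝ)
    (hb : b ∈ (convexHull ℝ (S : Set E4)).extremePoints ℝ) (hxa : a ≠ x) (hxb : b ≠ x)
    (hab : a ≠ b)
    (hno : ∀ F, IsFacet (convexHull ℝ (S : Set E4)) F → a ∈ F → b ∈ F → x ∉ F) :
    (crossed S a b x).ncard + (if a ∈ nb (convexHull ℝ (S : Set E4)) x then 1 else 0) +
      (if b ∈ nb (convexHull ℝ (S : Set E4)) x then 1 else 0) ≤ 2 := by
  have h2 := crossed_two S hx ha hb hxa hxb hab
  by_cases haN : a ∈ nb (convexHull ℝ (S : Set E4)) x
  · by_cases hbN : b ∈ nb (convexHull ℝ (S : Set E4)) x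
    · rw [if_pos haN, if_pos hbN, local_none S hx ha hb hxa hxb hab hno haN hbN]
    · rw [if_pos haN, if_neg hbN]
      have h1 := local_one S hx ha hb hxa hxb hab hno haN
      omega
  · by_cases hbN : b ∈ nb (convexHull ℝ (S : Set E4)) x
    · rw [if_neg haN, if_pos hbN]
      have h1 := local_one S hx hb ha hxb hxa hab.symm (fun F h1 h2 h3 => hno F h1 h3 h2) hbN
      rw [local_symm] at h1
      omega
    · rw [if_neg haN, if_neg hbN]
      omega

end Pool.Agent.H2.IR
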