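import Mathlib
import Pool.Agent.H2.IR.Defs
import Pool.Agent.H77.IC.Facet
import Pool.Agent.H27.Content.Faces

/-!
# A point which is not in the relative interior lies in a proper face (module Exit, about 100 lines)

PROOF: adapt the proof of `exit_face` in `Pool.Agent.H27.Content.Faces` (line 195 to the end).
`¬ Core G z` and `z ∈ G` give `w ∈ G` with `z + ε (z - w) ∉ G` for all `ε > 0` (so `w ≠ z`).
Put `V = dir G` (= `(affineSpan ℝ G).direction`), `v = z - w ∈ V`,
`G' = {u : V | z + u ∈ G}` convex, with nonempty interior in `V` (`hint` there, with `g = z`).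
`0 : V` is not interior in `G'` (otherwise `z + (ε/2) v ∈ G` for some `ε > 0`). Hahn-Banach
(`geometric_hahn_banach_open_point`) gives `f` on `V` with `f y < f 0 = 0` on the interior, so
`f ≤ 0` on `G'`; extend by the orthogonal projection to `l` on `E4`; `l y ≤ l z` on `G`;
`G'' = {y ∈ G | l y = l z}` is exposed in `G` (`exposed_of_max`), contains `z`, and does not
contain a point `z + a`, `a` in the interior of `G'` (there `f a < 0`).
-/

set_option autoImplicit false

open Module

namespace Pool.Agent.H2.IR

open Pool.Agent.H77.IC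

theorem face_of_not_core (S : Finset E4) {G : Set E4}
    (hG : IsExposed ℝ (convexHull ℝ (S : Set E4)) G) {z : E4} (hz : z ∈ G) (hc : ¬ Core G z) :
    ∃ G' : Set E4, IsExposed ℝ G G' ∧ z ∈ G' ∧ ¬ G ⊆ G' := by
  classical
  have hPc : IsCompact (convexHull ℝ (S : Set E4)) := S.finite_toSet.isCompact_convexHull ℝ
  have hGconv : Convex ℝ G := hG.convex (convex_convexHull ℝ _)
  -- the direction in which `z` leaves `G`
  obtain ⟨w, hw, hout⟩ : ∃ w ∈ G, ∀ ε : ℝ, 0 < ε → z + ε • (z - w) ∉ G := by
    unfold Core at hc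
    push Not at hc
    exact hc hz
  set V : Submodule ℝ E4 := Pool.Agent.H27.Content.dir G with hV
  have hmem : ∀ y ∈ G, y - z ∈ V := fun y hy =>
    AffineSubspace.vsub_mem_direction (subset_affineSpan ℝ G hy) (subset_affineSpan ℝ G hz)
  set G' : Set V := {u : V | z + (u : E4) ∈ G} with hG'
  have hG'conv : Convex ℝ G' := by
    intro a ha b hb x y hx hy hxy
    have h0 := hGconv ha hb hx hy hxy
    have h1 : x • (z + (a : E4)) + y • (z + (b : E4)) = z + ((x • a + y • b : V) : E4) := by
      simp only [Submodule.coe_add, Submodule.coe_smul, smul_add]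
      have h2 : z = x • z + y • z := by rw [← add_smul, hxy, one_smul]
      nth_rewrite 3 [h2]
      abel
    rw [h1] at h0
    exact h0
  have hG'ne : G'.Nonempty := ⟨0, by simpa [hG'] using hz⟩
  have hspan : vectorSpan ℝ G' = ⊤ := by
    have hinj : Function.Injective (Submodule.map V.subtype) :=
      Submodule.map_injective_of_injective V.injective_subtype
    apply hinj
    let f : V →ᵃ[ℝ] E4 := V.subtype.toAffineMap + AffineMap.const ℝ V z
    have hf : ∀ u : V, f u = (u : E4) + z := fun u => rfl
    have hfl : f.linear = V.subtype := by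
      ext u; simp [f]
    have h1 : f '' G' = G := by
      ext y
      constructor
      · rintro ⟨u, hu, rfl⟩
        rw [hf, add_comm]; exact hu
      · intro hy
        refine ⟨⟨y - z, hmem y hy⟩, ?_, ?_⟩
        · simpa [hG'] using hy
        · rw [hf]; simp
    rw [← hfl, AffineMap.map_vectorSpan, h1, ← direction_affineSpan, hfl]
    rw [Submodule.map_subtype_top]
  have hint := Pool.Agent.H27.Content.interior_nonempty_of_vectorSpan hG'conv hG'ne hspan
  -- `0` is not interior
  have hv : z - w ∈ V := by
    have := V.neg_mem (hmem w hw)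
    rwa [neg_sub] at this
  have hxnot : (0 : V) ∉ interior G' := by
    intro hxi
    have hcn : Continuous (fun r : ℝ => (0 : V) + r • (⟨z - w, hv⟩ : V)) := by fun_prop
    have hmem' : {r : ℝ | (0 : V) + r • (⟨z - w, hv⟩ : V) ∈ interior G'} ∈ nhds (0 : ℝ) := by
      apply (isOpen_interior.preimage hcn).mem_nhds
      rw [Set.mem_preimage, zero_smul, add_zero]
      exact hxi
    obtain ⟨ε, hε, hball⟩ := Metric.mem_nhds_iff.1 hmem'
    have h1 : ε / 2 ∈ Metric.ball (0 : ℝ) ε := by
      simpa [abs_of_pos hε] using hε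
    have h2 := interior_subset (hball h1)
    have h3 : z + (ε / 2) • (z - w) ∈ G := by
      have h4 : z + (((0 : V) + (ε / 2) • (⟨z - w, hv⟩ : V) : V) : E4) ∈ G := h2
      simpa using h4
    exact hout (ε / 2) (half_pos hε) h3
  obtain ⟨f, hf⟩ := geometric_hahn_banach_open_point hG'conv.interior isOpen_interior hxnot
  have hfle : ∀ a ∈ G', f a ≤ f 0 := by
    intro a ha
    apply closure_minimal (fun y hy => (hf y hy).le) <| isClosed_Iic.preimage f.continuous
    rw [hG'conv.closure_interior_eq_closure_of_nonempty_interior hint]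
    exact subset_closure ha
  set l : E4 →L[ℝ] ℝ := f.comp (V.orthogonalProjectionOnto) with hl
  have hlv : ∀ u : V, l (u : E4) = f u := by
    intro u
    simp [hl]
  have hly : ∀ y (hy : y ∈ G), l y = f ⟨y - z, hmem y hy⟩ + l z := by
    intro y hy
    have h1 : l (y - z) = f ⟨y - z, hmem y hy⟩ := hlv ⟨y - z, hmem y hy⟩
    rw [← h1, map_sub]; ring
  have hmax : ∀ y ∈ G, l y ≤ l z := by
    intro y hy
    rw [hly y hy]
    have h2 : (⟨y - z, hmem y hy⟩ : V) ∈ G' := by simpa [hG'] using hy
    have h3 := hfle _ h2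
    rw [map_zero] at h3
    linarith
  refine ⟨{y ∈ G | l y = l z}, Pool.Agent.H27.Content.exposed_of_max (P := G) l (l z) hmax,
    ⟨hz, rfl⟩, ?_⟩
  intro hsub
  obtain ⟨a, ha⟩ := hint
  have haG' : a ∈ G' := interior_subset ha
  have haG : z + (a : E4) ∈ G := haG'
  have h2 : l (z + (a : E4)) = l z := (hsub haG).2
  rw [map_add, hlv a] at h2
  have h4 := hf a ha
  rw [map_zero] at h4
  linarith

end Pool.Agent.H2.IR
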