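import Mathlib
import Pool.Agent.H2.IR.Defs
import Pool.Agent.H77.IC.IcoVert

/-!
# The twelve points, integer coordinates (complete; the public version of helper77's `IcoVert`)

`pt i`, `i : Fin 12`, are the twelve vertices of `Ico`; coordinates in `ℤ[φ]` are pairs
`(a, b)` for `a + b φ` (`zt`, `ev`); `dp i j` is the inner product: `(2, 1)` (same point),
`(0, 1)` (adjacent), `(0, -1)` (distance two), `(-2, -1)` (antipodal).
`tri a b c`: `a, b, c` are the vertices of a face. `K = 3 φ + 2 = φ^4`.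
-/

set_option autoImplicit false

open Module

namespace Pool.Agent.H2.IR

open Pool.Agent.H77.IC

def zt : Fin 12 → Fin 3 → ℤ × ℤ :=
  ![![(0, 0), (1, 0), (0, 1)], ![(1, 0), (0, 1), (0, 0)], ![(0, 1), (0, 0), (1, 0)],
    ![(0, 0), (1, 0), (0, -1)], ![(1, 0), (0, -1), (0, 0)], ![(0, -1), (0, 0), (1, 0)],
    ![(0, 0), (-1, 0), (0, 1)], ![(-1, 0), (0, 1), (0, 0)], ![(0, 1), (0, 0), (-1, 0)],
    ![(0, 0), (-1, 0), (0, -1)], ![(-1, 0), (0, -1), (0, 0)], ![(0, -1), (0, 0), (-1, 0)]]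

def zm (z w : ℤ × ℤ) : ℤ × ℤ :=
  (z.1 * w.1 + z.2 * w.2, z.1 * w.2 + z.2 * w.1 + z.2 * w.2)

def dp (i j : Fin 12) : ℤ × ℤ :=
  zm (zt i 0) (zt j 0) + zm (zt i 1) (zt j 1) + zm (zt i 2) (zt j 2)

/-- `a`, `b`, `c` are the three vertices of a face. -/
def tri (a b c : Fin 12) : Prop := dp a b = (0, 1) ∧ dp a c = (0, 1) ∧ dp b c = (0, 1)

instance (a b c : Fin 12) : Decidable (tri a b c) := by unfold tri; infer_instance

noncomputable def ev (z : ℤ × ℤ) : ℝ := z.1 + z.2 * Real.goldenRatio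

noncomputable def pt (i : Fin 12) : Fin 3 → ℝ := fun k => ev (zt i k)

/-- `K = φ^4`: the face with vertices `a, b, c` is `(pt a + pt b + pt c) ⬝ᵥ x = K`. -/
noncomputable def K : ℝ := 3 * Real.goldenRatio + 2

theorem phi_lo : (1.618 : ℝ) < Real.goldenRatio := by
  have h1 := Real.goldenRatio_sq
  have h2 := Real.goldenRatio_pos
  nlinarith

theorem phi_hi : Real.goldenRatio < (1.6181 : ℝ) := by
  have h1 := Real.goldenRatio_sq
  have h2 := Real.goldenRatio_pos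
  nlinarith

theorem ev_add (z w : ℤ × ℤ) : ev (z + w) = ev z + ev w := by
  unfold ev; push_cast [Prod.fst_add, Prod.snd_add]; ring

theorem ev_sub (z w : ℤ × ℤ) : ev (z - w) = ev z - ev w := by
  unfold ev; push_cast [Prod.fst_sub, Prod.snd_sub]; ring

theorem ev_zm (z w : ℤ × ℤ) : ev (zm z w) = ev z * ev w := by
  have h1 := Real.goldenRatio_sq
  unfold ev zm
  push_cast
  linear_combination (-(z.2 : ℝ) * w.2) * h1

theorem pt_dot (i j : Fin 12) : pt i ⬝ᵥ pt j = ev (dp i j) := by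
  unfold dp
  rw [ev_add, ev_add, ev_zm, ev_zm, ev_zm]
  simp only [dotProduct, Fin.sum_univ_three, pt]

theorem dp_self (i : Fin 12) : dp i i = (2, 1) := by
  revert i; decide

theorem dp_symm : ∀ i j : Fin 12, dp i j = dp j i := by
  decide

theorem dp_vals : ∀ i j : Fin 12, i ≠ j →
    dp i j = (0, 1) ∨ dp i j = (0, -1) ∨ dp i j = (-2, -1) := by
  decide

/-- the antipode -/
def ant : Fin 12 → Fin 12 := ![9, 10, 11, 6, 7, 8, 3, 4, 5, 0, 1, 2]

theorem zt_ant : ∀ (i : Fin 12) (k : Fin 3), zt (ant i) k = -zt i k := by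
  decide

theorem ant_ne : ∀ i : Fin 12, ant i ≠ i := by decide

theorem ant_ant : ∀ i : Fin 12, ant (ant i) = i := by decide

theorem ev_neg (z : ℤ × ℤ) : ev (-z) = -ev z := by
  unfold ev; push_cast [Prod.fst_neg, Prod.snd_neg]; ring

theorem pt_ant (i : Fin 12) : pt (ant i) = -pt i := by
  funext k
  simp only [pt, zt_ant, ev_neg, Pi.neg_apply]

theorem pt_inj : Function.Injective pt := by
  intro i j h
  by_contra hne
  have h1 : pt i ⬝ᵥ pt j = ev (2, 1) := by rw [← h, pt_dot, dp_self]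
  rw [pt_dot] at h1
  have hp := phi_lo
  rcases dp_vals i j hne with h2 | h2 | h2 <;> rw [h2] at h1 <;> simp [ev] at h1 <;> linarith

theorem ico_eq : Ico = convexHull ℝ (Set.range pt) := by
  unfold Ico
  congr 1
  ext v
  simp only [Set.mem_ofPred_eq, Set.mem_range]
  constructor
  · rintro ⟨s, t, hs, ht, h⟩
    rcases hs with rfl | rfl <;> rcases ht with rfl | rfl <;> rcases h with rfl | rfl | rfl
    · exact ⟨0, by ext k; fin_cases k <;> simp [pt, ev, zt]⟩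
    · exact ⟨1, by ext k; fin_cases k <;> simp [pt, ev, zt]⟩
    · exact ⟨2, by ext k; fin_cases k <;> simp [pt, ev, zt]⟩
    · exact ⟨3, by ext k; fin_cases k <;> simp [pt, ev, zt]⟩
    · exact ⟨4, by ext k; fin_cases k <;> simp [pt, ev, zt]⟩
    · exact ⟨5, by ext k; fin_cases k <;> simp [pt, ev, zt]⟩
    · exact ⟨6, by ext k; fin_cases k <;> simp [pt, ev, zt]⟩
    · exact ⟨7, by ext k; fin_cases k <;> simp [pt, ev, zt]⟩
    · exact ⟨8, by ext k; fin_cases k <;> simp [pt, ev, zt]⟩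
    · exact ⟨9, by ext k; fin_cases k <;> simp [pt, ev, zt]⟩
    · exact ⟨10, by ext k; fin_cases k <;> simp [pt, ev, zt]⟩
    · exact ⟨11, by ext k; fin_cases k <;> simp [pt, ev, zt]⟩
  · rintro ⟨i, rfl⟩
    fin_cases i
    · exact ⟨1, 1, Or.inl rfl, Or.inl rfl, Or.inl (by ext k; fin_cases k <;> simp [pt, ev, zt])⟩
    · exact ⟨1, 1, Or.inl rfl, Or.inl rfl, Or.inr (Or.inl (by ext k; fin_cases k <;> simp [pt, ev, zt]))⟩
    · exact ⟨1, 1, Or.inl rfl, Or.inl rfl, Or.inr (Or.inr (by ext k; fin_cases k <;> simp [pt, ev, zt]))⟩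
    · exact ⟨1, -1, Or.inl rfl, Or.inr rfl, Or.inl (by ext k; fin_cases k <;> simp [pt, ev, zt])⟩
    · exact ⟨1, -1, Or.inl rfl, Or.inr rfl, Or.inr (Or.inl (by ext k; fin_cases k <;> simp [pt, ev, zt]))⟩
    · exact ⟨1, -1, Or.inl rfl, Or.inr rfl, Or.inr (Or.inr (by ext k; fin_cases k <;> simp [pt, ev, zt]))⟩
    · exact ⟨-1, 1, Or.inr rfl, Or.inl rfl, Or.inl (by ext k; fin_cases k <;> simp [pt, ev, zt])⟩
    · exact ⟨-1, 1, Or.inr rfl, Or.inl rfl, Or.inr (Or.inl (by ext k; fin_cases k <;> simp [pt, ev, zt]))⟩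
    · exact ⟨-1, 1, Or.inr rfl, Or.inl rfl, Or.inr (Or.inr (by ext k; fin_cases k <;> simp [pt, ev, zt]))⟩
    · exact ⟨-1, -1, Or.inr rfl, Or.inr rfl, Or.inl (by ext k; fin_cases k <;> simp [pt, ev, zt])⟩
    · exact ⟨-1, -1, Or.inr rfl, Or.inr rfl, Or.inr (Or.inl (by ext k; fin_cases k <;> simp [pt, ev, zt]))⟩
    · exact ⟨-1, -1, Or.inr rfl, Or.inr rfl, Or.inr (Or.inr (by ext k; fin_cases k <;> simp [pt, ev, zt]))⟩

theorem ext_eq : Ico.extremePoints ℝ = Set.range pt := by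
  have hsub : Ico.extremePoints ℝ ⊆ Set.range pt := by
    rw [ico_eq]
    exact extremePoints_convexHull_subset
  refine Set.eq_of_subset_of_ncard_le hsub ?_ (Set.finite_range pt)
  rw [ico_card, ← Set.image_univ, Set.ncard_image_of_injective _ pt_inj, Set.ncard_univ]
  simp

/-- the neighbours of `i` in cyclic order -/
def cyc : Fin 12 → Fin 5 → Fin 12 := ![![1, 2, 6, 5, 7], ![0, 2, 8, 3, 7], ![0, 1, 8, 4, 6],
  ![1, 7, 11, 9, 8], ![2, 6, 10, 9, 8], ![0, 6, 10, 11, 7], ![0, 2, 4, 10, 5], ![0, 1, 3, 11, 5],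
  ![1, 2, 4, 9, 3], ![3, 8, 4, 10, 11], ![4, 6, 5, 11, 9], ![3, 7, 5, 10, 9]]

theorem cyc_tri : ∀ (i : Fin 12) (j : Fin 5), tri i (cyc i j) (cyc i (j + 1)) := by
  decide

/-- every face at `i` is one of the five of the list `cyc i` -/
theorem tri_cyc : ∀ (i b c : Fin 12), tri i b c →
    ∃ j : Fin 5, (b = cyc i j ∧ c = cyc i (j + 1)) ∨ (c = cyc i j ∧ b = cyc i (j + 1)) := by
  decide +kernel

theorem cyc_inj : ∀ (i : Fin 12) (j k : Fin 5), cyc i j = cyc i k → j = k := by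
  decide

theorem cyc_ne : ∀ (i : Fin 12) (j : Fin 5), cyc i j ≠ i := by
  decide

end Pool.Agent.H2.IR
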