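import Mathlib
import Pool.Agent.H2.IR.Defs
import Pool.Agent.H2.IR.Vert

/-!
# Faces of the icosahedron containing two non-adjacent vertices (module IcoFar, about 150 lines)

`Vert` (complete) has the twelve points `pt i` in integer coordinates. Everything needed is in the
(private) theorems of `Pool.Agent.H77.IC.IcoVert`; copy `of_face`, `zero_all`, `nonneg_max`,
`far_pair`, `edge_check`, `face_of`, `edge_face`, `adj_of_face`, `five_nb`.

* `ico_far`: let `v = pt i`, `w = pt j`. By `hn` and `edge_face` we have `dp i j ≠ (0, 1)`.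
  As in `adj_of_face`: `of_face` gives a functional `l` with `l (pt k) ≤ l (pt i)`, and
  `pt k ∈ H' ↔ l (pt k) = l (pt i)`; `far_pair` gives `l (pt i) = 0`, `zero_all` gives
  `l (pt k) = 0` for all `k`.
* `ico_nb_card`: the set is the image under `pt` of the five `j` with `dp i j = (0, 1)`
  (`edge_face`, `adj_of_face`, `five_nb`, `pt_inj`).
-/

set_option autoImplicit false

open Module

namespace Pool.Agent.H2.IR

open Pool.Agent.H77.IC

private def IcoFar_zpos (z : ℤ × ℤ) : Bool :=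
  decide (0 < 5 * z.1 + 8 * z.2) && decide (0 < 10 * z.1 + 17 * z.2)

private theorem IcoFar_ev_pos {z : ℤ × ℤ} (h : IcoFar_zpos z = true) : 0 < ev z := by
  unfold IcoFar_zpos at h
  simp only [Bool.and_eq_true, decide_eq_true_eq] at h
  have h1 : (0 : ℝ) < 5 * z.1 + 8 * z.2 := by exact_mod_cast h.1
  have h2 : (0 : ℝ) < 10 * z.1 + 17 * z.2 := by exact_mod_cast h.2
  have h3 := phi_lo
  have h4 := phi_hi
  unfold ev
  rcases le_total 0 (z.2 : ℝ) with h5 | h5
  · nlinarith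
  · nlinarith

private noncomputable def IcoFar_fn (m : Fin 3 → ℝ) : StrongDual ℝ (Fin 3 → ℝ) :=
  ∑ k, m k • (ContinuousLinearMap.proj k : (Fin 3 → ℝ) →L[ℝ] ℝ)

private theorem IcoFar_fn_apply (m x : Fin 3 → ℝ) : IcoFar_fn m x = m ⬝ᵥ x := by
  unfold IcoFar_fn
  simp [dotProduct, Fin.sum_univ_three]

private theorem IcoFar_pt_mem (i : Fin 12) : pt i ∈ Ico := by
  rw [ico_eq]; exact subset_convexHull ℝ _ ⟨i, rfl⟩

private theorem IcoFar_ico_le (m : Fin 3 → ℝ) (c : ℝ) (h : ∀ k, m ⬝ᵥ pt k ≤ c) {x : Fin 3 → ℝ}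
    (hx : x ∈ Ico) : m ⬝ᵥ x ≤ c := by
  rw [ico_eq] at hx
  have hc : Convex ℝ {y : Fin 3 → ℝ | IcoFar_fn m y ≤ c} :=
    convex_halfSpace_le (LinearMap.isLinear (IcoFar_fn m).toLinearMap) c
  have := convexHull_min (s := Set.range pt) (t := {y : Fin 3 → ℝ | IcoFar_fn m y ≤ c}) (by
    rintro _ ⟨k, rfl⟩
    show IcoFar_fn m (pt k) ≤ c
    rw [IcoFar_fn_apply]; exact h k) hc hx
  have h2 : IcoFar_fn m x ≤ c := this
  rwa [IcoFar_fn_apply] at h2

private theorem IcoFar_face_of (m : Fin 3 → ℝ) (c : ℝ) (T : Set (Fin 12)) (hT : T.Nonempty)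
    (h1 : ∀ k ∈ T, m ⬝ᵥ pt k = c) (h2 : ∀ k, k ∉ T → m ⬝ᵥ pt k < c) :
    ∃ H : Set (Fin 3 → ℝ), IsExposed ℝ Ico H ∧ H ∩ Ico.extremePoints ℝ = pt '' T := by
  classical
  have hle : ∀ k, m ⬝ᵥ pt k ≤ c := by
    intro k
    by_cases hk : k ∈ T
    · exact (h1 k hk).le
    · exact (h2 k hk).le
  have hmax : ∀ x ∈ Ico, m ⬝ᵥ x ≤ c := fun x hx => IcoFar_ico_le m c hle hx
  refine ⟨{x | x ∈ Ico ∧ ∀ y ∈ Ico, IcoFar_fn m y ≤ IcoFar_fn m x}, fun _ => ⟨IcoFar_fn m, rfl⟩, ?_⟩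
  obtain ⟨k0, hk0⟩ := hT
  rw [ext_eq]
  ext x
  constructor
  · rintro ⟨⟨hx, hy⟩, ⟨k, rfl⟩⟩
    refine ⟨k, ?_, rfl⟩
    by_contra hk
    have h3 := hy (pt k0) (IcoFar_pt_mem k0)
    rw [IcoFar_fn_apply, IcoFar_fn_apply, h1 k0 hk0] at h3
    exact absurd (h2 k hk) (not_lt.mpr h3)
  · rintro ⟨k, hk, rfl⟩
    refine ⟨⟨IcoFar_pt_mem k, fun y hy => ?_⟩, ⟨k, rfl⟩⟩
    rw [IcoFar_fn_apply, IcoFar_fn_apply, h1 k hk]
    exact hmax y hy

private theorem IcoFar_of_face {H : Set (Fin 3 → ℝ)} (hH : IsExposed ℝ Ico H) {i : Fin 12}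
    (hi : pt i ∈ H) : ∃ l : StrongDual ℝ (Fin 3 → ℝ), (∀ k, l (pt k) ≤ l (pt i)) ∧
      ∀ k, pt k ∈ H ↔ l (pt k) = l (pt i) := by
  obtain ⟨l, hl⟩ := hH ⟨_, hi⟩
  refine ⟨l, ?_, ?_⟩
  · intro k
    rw [hl] at hi
    exact hi.2 _ (IcoFar_pt_mem k)
  · intro k
    rw [hl] at hi ⊢
    constructor
    · rintro ⟨-, h⟩
      exact le_antisymm (hi.2 _ (IcoFar_pt_mem k)) (h _ (IcoFar_pt_mem i))
    · intro h
      refine ⟨IcoFar_pt_mem k, fun y hy => ?_⟩
      rw [h]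
      exact hi.2 y hy

private theorem IcoFar_zero_all (l : StrongDual ℝ (Fin 3 → ℝ)) (h : ∀ k, l (pt k) ≤ 0) (k : Fin 12) :
    l (pt k) = 0 := by
  have h1 := h (ant k)
  rw [pt_ant, map_neg] at h1
  have h2 := h k
  linarith

private theorem IcoFar_nonneg_max (l : StrongDual ℝ (Fin 3 → ℝ)) (i : Fin 12)
    (h : ∀ k, l (pt k) ≤ l (pt i)) : 0 ≤ l (pt i) := by
  have h1 := h (ant i)
  rw [pt_ant, map_neg] at h1
  linarith

private theorem IcoFar_far_pair : ∀ i j : Fin 12, i ≠ j → dp i j ≠ (0, 1) →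
    (∀ k : Fin 3, zt i k + zt j k = 0) ∨
    ∃ p q : Fin 12, ∀ k : Fin 3, zt p k + zt q k = zm (0, 1) (zt i k + zt j k) := by
  decide +kernel

private theorem IcoFar_five_nb :
    ∀ i : Fin 12, (Finset.univ.filter (fun j => dp i j = (0, 1))).card = 5 := by
  decide +kernel

private theorem IcoFar_edge_check : ∀ i j : Fin 12, dp i j = (0, 1) →
    ∀ k : Fin 12, k ≠ i → k ≠ j → IcoFar_zpos ((2, 2) - (dp i k + dp j k)) = true := by
  decide +kernel

private theorem IcoFar_edge_face {i j : Fin 12} (h : dp i j = (0, 1)) :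
    ∃ H : Set (Fin 3 → ℝ), IsExposed ℝ Ico H ∧ H ∩ Ico.extremePoints ℝ = {pt i, pt j} := by
  have := IcoFar_face_of (pt i + pt j) (ev (2, 2)) {i, j} ⟨i, by simp⟩ (by
    intro k hk
    rw [add_dotProduct, pt_dot, pt_dot, ← ev_add]
    congr 1
    rcases hk with rfl | hk
    · rw [dp_self, dp_symm j k, h]; rfl
    · have hk : k = j := hk
      subst hk
      rw [dp_self, h]; rfl) (by
    intro k hk
    rw [add_dotProduct, pt_dot, pt_dot, ← ev_add]
    have h1 : k ≠ i := fun e => hk (by simp [e])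
    have h2 : k ≠ j := fun e => hk (by simp [e])
    have h3 := IcoFar_ev_pos (IcoFar_edge_check i j h k h1 h2)
    rw [ev_sub] at h3
    linarith)
  rwa [Set.image_pair] at this

private theorem IcoFar_core {i j : Fin 12} (hij : i ≠ j) (hne : dp i j ≠ (0, 1))
    {H : Set (Fin 3 → ℝ)} (hH : IsExposed ℝ Ico H) (hi : pt i ∈ H) (hj : pt j ∈ H) :
    ∀ k, pt k ∈ H := by
  obtain ⟨l, hl1, hl2⟩ := IcoFar_of_face hH hi
  have hlj : l (pt j) = l (pt i) := (hl2 j).mp hj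
  have h0 := IcoFar_nonneg_max l i hl1
  have hM : l (pt i) = 0 := by
    rcases IcoFar_far_pair i j hij hne with h | ⟨p, q, h⟩
    · have h1 : pt i + pt j = 0 := by
        ext k
        show ev (zt i k) + ev (zt j k) = 0
        rw [← ev_add, h k]
        simp [ev]
      have h2 : l (pt i) + l (pt j) = 0 := by rw [← map_add, h1, map_zero]
      linarith
    · have h1 : pt p + pt q = Real.goldenRatio • (pt i + pt j) := by
        ext k
        show ev (zt p k) + ev (zt q k) = Real.goldenRatio * (ev (zt i k) + ev (zt j k))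
        rw [← ev_add, h k, ev_zm, ev_add]
        simp [ev]
      have h2 : l (pt p) + l (pt q) = Real.goldenRatio * (l (pt i) + l (pt j)) := by
        rw [← map_add, h1, map_smul, map_add, smul_eq_mul]
      have h3 := hl1 p
      have h4 := hl1 q
      have h5 := phi_lo
      nlinarith
  intro k
  rw [hl2 k, hM]
  exact IcoFar_zero_all l (fun k => by rw [← hM]; exact hl1 k) k

private theorem IcoFar_adj {i j : Fin 12} (hij : i ≠ j) {H : Set (Fin 3 → ℝ)}
    (hH : IsExposed ℝ Ico H) (hHij : H ∩ Ico.extremePoints ℝ = {pt i, pt j}) :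
    dp i j = (0, 1) := by
  by_contra hne
  have hi : pt i ∈ H := by
    have : pt i ∈ H ∩ Ico.extremePoints ℝ := by rw [hHij]; simp
    exact this.1
  have hj : pt j ∈ H := by
    have : pt j ∈ H ∩ Ico.extremePoints ℝ := by rw [hHij]; simp
    exact this.1
  have hall := IcoFar_core hij hne hH hi hj
  have h12 : ∀ k, k = i ∨ k = j := by
    intro k
    have : pt k ∈ H ∩ Ico.extremePoints ℝ := ⟨hall k, by rw [ext_eq]; exact ⟨k, rfl⟩⟩
    rw [hHij] at this
    rcases this with h | h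
    · exact Or.inl (pt_inj h)
    · exact Or.inr (pt_inj h)
  have : (Finset.univ : Finset (Fin 12)) ⊆ {i, j} := by
    intro k _
    rcases h12 k with h | h <;> simp [h]
  have h13 := Finset.card_le_card this
  have h14 := Finset.card_le_two (a := i) (b := j)
  simp at h13
  omega

theorem ico_far {v w : Fin 3 → ℝ} (hv : v ∈ Ico.extremePoints ℝ) (hw : w ∈ Ico.extremePoints ℝ)
    (hvw : v ≠ w)
    (hn : ¬ ∃ H : Set (Fin 3 → ℝ), IsExposed ℝ Ico H ∧ H ∩ Ico.extremePoints ℝ = {v, w})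
    {H' : Set (Fin 3 → ℝ)} (hH' : IsExposed ℝ Ico H') (hv' : v ∈ H') (hw' : w ∈ H') :
    Ico.extremePoints ℝ ⊆ H' := by
  rw [ext_eq] at hv hw
  obtain ⟨i, rfl⟩ := hv
  obtain ⟨j, rfl⟩ := hw
  have hij : i ≠ j := fun e => hvw (by rw [e])
  have hne : dp i j ≠ (0, 1) := fun h => hn (IcoFar_edge_face h)
  have hall := IcoFar_core hij hne hH' hv' hw'
  rw [ext_eq]
  rintro _ ⟨k, rfl⟩
  exact hall k

theorem ico_nb_card {v : Fin 3 → ℝ} (hv : v ∈ Ico.extremePoints ℝ) :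
    {w | w ≠ v ∧ w ∈ Ico.extremePoints ℝ ∧
      ∃ H : Set (Fin 3 → ℝ), IsExposed ℝ Ico H ∧ H ∩ Ico.extremePoints ℝ = {v, w}}.ncard = 5 := by
  classical
  have hv' := hv
  rw [ext_eq] at hv'
  obtain ⟨i, rfl⟩ := hv'
  have hset : {w | w ≠ pt i ∧ w ∈ Ico.extremePoints ℝ ∧
      ∃ H : Set (Fin 3 → ℝ), IsExposed ℝ Ico H ∧ H ∩ Ico.extremePoints ℝ = {pt i, w}} =
      (((Finset.univ.filter (fun j => dp i j = (0, 1))).image pt : Finset (Fin 3 → ℝ)) :
        Set (Fin 3 → ℝ)) := by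
    ext w
    rw [Finset.mem_coe, Finset.mem_image, Set.mem_ofPred_eq]
    constructor
    · rintro ⟨h1, h2, H, hH, hHw⟩
      rw [ext_eq] at h2
      obtain ⟨j, rfl⟩ := h2
      refine ⟨j, ?_, rfl⟩
      rw [Finset.mem_filter]
      exact ⟨Finset.mem_univ _, IcoFar_adj (fun e => h1 (by rw [e])) hH hHw⟩
    · rintro ⟨j, hj, rfl⟩
      rw [Finset.mem_filter] at hj
      refine ⟨?_, ?_, IcoFar_edge_face hj.2⟩
      · intro h
        have h1 := pt_inj h
        have h2 := hj.2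
        rw [h1, dp_self] at h2
        simp at h2
      · rw [ext_eq]
        exact ⟨j, rfl⟩
  rw [hset, Set.ncard_coe_finset, Finset.card_image_of_injective _ pt_inj]
  exact IcoFar_five_nb i

end Pool.Agent.H2.IR
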