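import Mathlib
import Pool.Agent.H2.IR.Defs
import Pool.Agent.H2.IR.IcoFar
import Pool.Agent.H77.IC.Transfer

/-!
# Non-adjacent vertices of a combinatorial icosahedron (module FarT, about 90 lines)

Transport of `ico_far` and `ico_nb_card` along the bijection `g` of `IsIco F`, as in
`Pool.Agent.H77.IC.Transfer` (`IsIco.five`, `IsIco.edge`).

* `far_face`: `y ∉ nb F x` says that no exposed face of `F` has exactly the vertices `x, y`; by the
  bijection no exposed face of `Ico` has exactly the vertices `g x, g y`. The exposed face `G` of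
  `F` corresponds to an exposed face `H'` of `Ico` with `H' ∩ ext = g '' (G ∩ ext F)`; it contains
  `g x` and `g y`, so all vertices.
* `nb_five`: `g` maps `nb F x` bijectively onto the set of `ico_nb_card`
  (`Set.image_pair` for the pairs); `Set.ncard_image_of_injOn`.
-/

set_option autoImplicit false

open Module

namespace Pool.Agent.H2.IR

open Pool.Agent.H77.IC

theorem far_face {F : Set E4} (h : IsIco F) {x y : E4} (hx : x ∈ F.extremePoints ℝ)
    (hy : y ∈ F.extremePoints ℝ) (hyx : y ≠ x) (hn : y ∉ nb F x) {G : Set E4}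
    (hG : IsExposed ℝ F G) (hxG : x ∈ G) (hyG : y ∈ G) : F.extremePoints ℝ ⊆ G := by
  obtain ⟨g, hg, hT⟩ := h
  have hne : g x ≠ g y := fun hc => hyx (hg.injOn hx hy hc).symm
  have hn' : ¬ ∃ H : Set (Fin 3 → ℝ), IsExposed ℝ Ico H ∧ H ∩ Ico.extremePoints ℝ = {g x, g y} := by
    rintro ⟨H, hH, hHe⟩
    refine hn ⟨hyx, hx, hy, (hT {x, y} ?_).2 ⟨H, hH, ?_⟩⟩
    · rintro z (rfl | rfl)
      · exact hx
      · exact hy
    · rw [hHe, Set.image_pair]
  obtain ⟨H', hH', hH'e⟩ := (hT (G ∩ F.extremePoints ℝ) Set.inter_subset_right).1 ⟨G, hG, rfl⟩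
  have key : ∀ z, z ∈ G → z ∈ F.extremePoints ℝ → g z ∈ H' := fun z h1 h2 => by
    have h3 : g z ∈ g '' (G ∩ F.extremePoints ℝ) := ⟨z, ⟨h1, h2⟩, rfl⟩
    rw [← hH'e] at h3
    exact h3.1
  have hall := ico_far (hg.mapsTo hx) (hg.mapsTo hy) hne hn' hH' (key x hxG hx) (key y hyG hy)
  intro u hu
  have h4 : g u ∈ H' ∩ Ico.extremePoints ℝ := ⟨hall (hg.mapsTo hu), hg.mapsTo hu⟩
  rw [hH'e] at h4
  obtain ⟨t, ht, hte⟩ := h4
  rw [← hg.injOn ht.2 hu hte]
  exact ht.1

theorem nb_five {F : Set E4} (h : IsIco F) {x : E4} (hx : x ∈ F.extremePoints ℝ) :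
    (nb F x).ncard = 5 := by
  obtain ⟨g, hg, hT⟩ := h
  have himg : g '' (nb F x) = {w | w ≠ g x ∧ w ∈ Ico.extremePoints ℝ ∧
      ∃ H : Set (Fin 3 → ℝ), IsExposed ℝ Ico H ∧ H ∩ Ico.extremePoints ℝ = {g x, w}} := by
    ext w
    constructor
    · rintro ⟨y, ⟨hyx, -, hyE, hG⟩, rfl⟩
      refine ⟨fun hc => hyx (hg.injOn hyE hx hc), hg.mapsTo hyE, ?_⟩
      obtain ⟨H, hH, hHe⟩ := (hT {x, y} (by
        rintro z (rfl | rfl)
        · exact hx
        · exact hyE)).1 hG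
      rw [Set.image_pair] at hHe
      exact ⟨H, hH, hHe⟩
    · rintro ⟨hwx, hwE, H, hH, hHe⟩
      obtain ⟨y, hy, rfl⟩ := hg.surjOn hwE
      refine ⟨y, ⟨?_, hx, hy, ?_⟩, rfl⟩
      · rintro rfl
        exact hwx rfl
      · refine (hT {x, y} ?_).2 ⟨H, hH, ?_⟩
        · rintro z (rfl | rfl)
          · exact hx
          · exact hy
        · rw [hHe, Set.image_pair]
  have hinj : Set.InjOn g (nb F x) := fun y hy z hz hyz => hg.injOn hy.2.2.1 hz.2.2.1 hyz
  rw [← ico_nb_card (hg.mapsTo hx), ← himg, hinj.ncard_image]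

end Pool.Agent.H2.IR
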