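import Mathlib
import Pool.Agent.H2.IR.Defs
import Pool.Agent.H2.IR.Exit
import Pool.Agent.H2.IR.FarT
import Pool.Agent.H2.IR.FarT
import Pool.Agent.H77.IC.Facet

/-!
# Diagonals of an icosahedral facet are interior (module Mid, about 80 lines)

* `mid_core`: `x ≠ y` vertices of the icosahedral facet `F`, not joined by an edge. The midpoint
  `z = x + (1/2)(y - x)` is in `F` (convex). If `¬ Core F z`, `face_of_not_core` gives an exposed
  face `G'` of `F` with `z ∈ G'`, `¬ F ⊆ G'`. `G'` is an extreme subset of `F`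
  (`IsExposed.isExtreme`), so `x, y ∈ G'` (or with the functional), so `far_face` gives
  `ext F ⊆ G'`; `G'` is convex and `F` is the hull of its vertices (`face_hull_ext`), so
  `F ⊆ G'`, contradiction.
* `one_facet`: two facets `F`, `F'` both containing `x` and `y` as in `mid_core` are equal:
  with the functional `a, M` of `F'` (`facet_eq`) the set `{w ∈ F | a w = M}` is exposed in `F`
  (`Pool.Agent.H27.Content.exposed_of_max`) and contains `x, y`, so all vertices of `F`, so
  `F ⊆ F'`, and `facet_unique`. (Or: the midpoint is a core point of `F` lying in `F'`,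
  `eq_of_core`.)
-/

set_option autoImplicit false

open Module

namespace Pool.Agent.H2.IR

open Pool.Agent.H77.IC

private theorem half_mem {F : Set E4} (hF : Convex ℝ F) {x y : E4} (hx : x ∈ F) (hy : y ∈ F) :
    x + (1 / 2 : ℝ) • (y - x) ∈ F := by
  have h := hF hx hy (a := 1 / 2) (b := 1 / 2) (by norm_num) (by norm_num) (by norm_num)
  have e : x + (1 / 2 : ℝ) • (y - x) = (1 / 2 : ℝ) • x + (1 / 2 : ℝ) • y := by
    rw [smul_sub]
    have : x = (1 / 2 : ℝ) • x + (1 / 2 : ℝ) • x := by rw [← add_smul]; norm_num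
    nth_rewrite 1 [this]
    abel
  rw [e]
  exact h

private theorem half_open (x y : E4) : x + (1 / 2 : ℝ) • (y - x) ∈ openSegment ℝ x y := by
  refine ⟨1 / 2, 1 / 2, by norm_num, by norm_num, by norm_num, ?_⟩
  rw [smul_sub]
  have : x = (1 / 2 : ℝ) • x + (1 / 2 : ℝ) • x := by rw [← add_smul]; norm_num
  nth_rewrite 2 [this]
  abel

theorem mid_core (S : Finset E4) {F : Set E4} (hF : IsFacet (convexHull ℝ (S : Set E4)) F)
    (hI : IsIco F) {x y : E4} (hx : x ∈ F.extremePoints ℝ) (hy : y ∈ F.extremePoints ℝ)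
    (hyx : y ≠ x) (hn : y ∉ nb F x) : Core F (x + (1 / 2 : ℝ) • (y - x)) := by
  have hconv : Convex ℝ F := hF.1.convex (convex_convexHull ℝ _)
  have hxF : x ∈ F := extremePoints_subset hx
  have hyF : y ∈ F := extremePoints_subset hy
  by_contra hc
  obtain ⟨G', hG', hzG, hnot⟩ := face_of_not_core S hF.1 (half_mem hconv hxF hyF) hc
  have hext := hG'.isExtreme
  have hx' : x ∈ G' := hext.2 hxF hyF hzG (half_open x y)
  have hy' : y ∈ G' := hext.2 hyF hxF hzG (by rw [openSegment_symm]; exact half_open x y)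
  have h1 := far_face hI hx hy hyx hn hG' hx' hy'
  apply hnot
  rw [face_hull_ext S hF.1]
  exact convexHull_min h1 (hG'.convex hconv)

theorem one_facet (S : Finset E4) {F F' : Set E4} (hF : IsFacet (convexHull ℝ (S : Set E4)) F)
    (hF' : IsFacet (convexHull ℝ (S : Set E4)) F') (hI : IsIco F) {x y : E4}
    (hx : x ∈ F.extremePoints ℝ) (hy : y ∈ F.extremePoints ℝ) (hyx : y ≠ x) (hn : y ∉ nb F x)
    (hx' : x ∈ F') (hy' : y ∈ F') : F = F' :=
  eq_of_core hF' hF (mid_core S hF hI hx hy hyx hn)
    (half_mem (hF'.1.convex (convex_convexHull ℝ _)) hx' hy')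

end Pool.Agent.H2.IR
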