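import Mathlib
import Pool.Agent.H2.IR.Defs
import Pool.Agent.H2.IR.Local
import Pool.Agent.H2.IR.Mid
import Pool.Agent.H2.IR.EdgeP

/-!
# Upper bound for the crossed pairs (module CountA, about 170 lines, counting)

`P = convexHull ℝ S`, `F0` a facet, `v ≠ w` vertices of `F0` not joined by an edge,
`T = #{(F, x) : F a facet, x ∈ innerFrom v w F}`. Claim `T + #(nb P v) + #(nb P w) + 4 ≤ 2 f_0`.

PROOF. Let `V` be the finite set of the vertices of `P` (`ext_finite`), `V' = V \ {v, w}`. The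
pairs with second coordinate `x` correspond to `crossed S v w x` (for `x ∈ V'`, a facet
`F ∋ x` has `x` as a vertex by `ext_face`), so `T = sum_{x ∈ V'} #(crossed S v w x)`
(finite sets: `facet_finite`). `w ∉ nb P v` (otherwise `nb_down` gives `w ∈ nb F0 v`), so
`sum_{x ∈ V'} [v ∈ nb P x] = #(nb P v)` (`nb_symm`; `v ∉ nb P v`), the same for `w`. Put
`f x = #(crossed S v w x) + [v ∈ nb P x] + [w ∈ nb P x]`.
(1) `x ∈ V'`, `x ∉ F0`: `f x ≤ 2` by `crossed_nb` (its hypothesis `hno`: a facet containing `v` and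
`w` is `F0` by `one_facet`). There are `f_0 - 12` such `x` (`IsIco.card`).
(2) `x ∈ V'`, `x ∈ F0`: `#(crossed S v w x) ≤ 1` by `crossed_one`; ten such `x`; and
`sum [v ∈ nb P x] ≤ #(nb F0 v) = 5` by `nb_down`, `nb_five`, the same for `w`. Total `≤ 20`.
So `T + #(nb P v) + #(nb P w) ≤ 2 (f_0 - 12) + 20`.
-/

set_option autoImplicit false

open Module

namespace Pool.Agent.H2.IR

open Pool.Agent.H77.IC

/-- The pairs (facet, crossed vertex). -/
def pairs (S : Finset E4) (v w : E4) : Set (Set E4 × E4) :=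
  {p | IsFacet (convexHull ℝ (S : Set E4)) p.1 ∧ p.2 ∈ innerFrom v w p.1}

theorem pairs_finite (S : Finset E4) (v w : E4) : (pairs S v w).Finite := by
  refine ((facet_finite S).prod (ext_finite S)).subset ?_
  rintro ⟨F, x⟩ ⟨h1, h2⟩
  have h3 := h2.1
  rw [ext_face h1.1] at h3
  exact ⟨h1, h3.2⟩

open Classical in
private theorem nb_sum_ge (S : Finset E4) {v w : E4} (hw : w ∉ nb (convexHull ℝ (S : Set E4)) v)
    (V' : Finset E4)
    (hV' : ∀ x, x ∈ V' ↔ x ∈ (convexHull ℝ (S : Set E4)).extremePoints ℝ ∧ x ≠ v ∧ x ≠ w) :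
    (nb (convexHull ℝ (S : Set E4)) v).ncard ≤
      ∑ x ∈ V', (if v ∈ nb (convexHull ℝ (S : Set E4)) x then 1 else 0) := by
  rw [← Finset.card_filter, ← Set.ncard_coe_finset]
  refine Set.ncard_le_ncard ?_ (Finset.finite_toSet _)
  intro y hy
  rw [Finset.mem_coe, Finset.mem_filter, hV']
  refine ⟨⟨hy.2.2.1, hy.1, ?_⟩, nb_symm hy⟩
  rintro rfl
  exact hw hy

open Classical in
private theorem nb_sum_le (S : Finset E4) {F0 : Set E4}
    (hF0 : IsFacet (convexHull ℝ (S : Set E4)) F0) {v : E4} (hv : v ∈ F0) (V₁ : Finset E4)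
    (hV₁ : ∀ x ∈ V₁, x ∈ F0) :
    ∑ x ∈ V₁, (if v ∈ nb (convexHull ℝ (S : Set E4)) x then 1 else 0) ≤ (nb F0 v).ncard := by
  have hfin : (nb F0 v).Finite := by
    refine (ext_finite S).subset ?_
    intro y hy
    have h := hy.2.2.1
    rw [ext_face hF0.1] at h
    exact h.2
  rw [← Finset.card_filter, ← Set.ncard_coe_finset]
  refine Set.ncard_le_ncard ?_ hfin
  intro y hy
  rw [Finset.mem_coe, Finset.mem_filter] at hy
  exact nb_down S hF0 (nb_symm hy.2) hv (hV₁ y hy.1)

open Classical in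
theorem pairs_upper (S : Finset E4)
    (hI : ∀ F, IsFacet (convexHull ℝ (S : Set E4)) F → IsIco F) {F0 : Set E4}
    (hF0 : IsFacet (convexHull ℝ (S : Set E4)) F0) {v w : E4} (hv : v ∈ F0.extremePoints ℝ)
    (hw : w ∈ F0.extremePoints ℝ) (hwv : w ≠ v) (hn : w ∉ nb F0 v) :
    (pairs S v w).ncard + (nb (convexHull ℝ (S : Set E4)) v).ncard +
      (nb (convexHull ℝ (S : Set E4)) w).ncard + 4 ≤
        2 * ((convexHull ℝ (S : Set E4)).extremePoints ℝ).ncard := by
  have hv' := hv
  have hw' := hw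
  rw [ext_face hF0.1] at hv' hw'
  have hwP : w ∉ nb (convexHull ℝ (S : Set E4)) v := fun h => hn (nb_down S hF0 h hv'.1 hw'.1)
  have hvP : v ∉ nb (convexHull ℝ (S : Set E4)) w := fun h => hwP (nb_symm h)
  set V : Finset E4 := (ext_finite S).toFinset with hV
  have hVm : ∀ x, x ∈ V ↔ x ∈ (convexHull ℝ (S : Set E4)).extremePoints ℝ := fun x => by
    rw [hV, Set.Finite.mem_toFinset]
  set V' : Finset E4 := (V.erase v).erase w with hV'
  have hV'm : ∀ x, x ∈ V' ↔ x ∈ (convexHull ℝ (S : Set E4)).extremePoints ℝ ∧ x ≠ v ∧ x ≠ w := by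
    intro x
    rw [hV', Finset.mem_erase, Finset.mem_erase, hVm]
    tauto
  have hVc : V.card = ((convexHull ℝ (S : Set E4)).extremePoints ℝ).ncard := by
    rw [hV, ← Set.ncard_coe_finset, Set.Finite.coe_toFinset]
  have hvV : v ∈ V := (hVm v).2 hv'.2
  have hwV : w ∈ V.erase v := Finset.mem_erase.2 ⟨hwv, (hVm w).2 hw'.2⟩
  have hV'c : V'.card + 2 = V.card := by
    rw [hV', Finset.card_erase_of_mem hwV, Finset.card_erase_of_mem hvV]
    have h1 : 0 < (V.erase v).card := Finset.card_pos.2 ⟨w, hwV⟩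
    rw [Finset.card_erase_of_mem hvV] at h1
    omega
  -- the pairs
  have hT : (pairs S v w).ncard ≤ ∑ x ∈ V', (crossed S v w x).ncard := by
    have hcf : (pairs S v w).ncard = ((pairs_finite S v w).toFinset).card := by
      rw [← Set.ncard_coe_finset, Set.Finite.coe_toFinset]
    rw [hcf, Finset.card_eq_sum_card_fiberwise (f := Prod.snd) (t := V')]
    · refine Finset.sum_le_sum fun x _ => ?_
      have hfin : (crossed S v w x).Finite := (facet_finite S).subset fun _ h => h.1
      have hinj : Set.InjOn Prod.fst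
          (((pairs_finite S v w).toFinset.filter fun p => p.2 = x : Finset (Set E4 × E4)) :
            Set (Set E4 × E4)) := by
        rintro ⟨F, y⟩ hp ⟨F', y'⟩ hp' heq
        rw [Finset.mem_coe, Finset.mem_filter] at hp hp'
        have h1 : y = x := hp.2
        have h2 : y' = x := hp'.2
        have h3 : F = F' := heq
        rw [h1, h2, h3]
      rw [← Finset.card_image_of_injOn hinj, ← Set.ncard_coe_finset]
      refine Set.ncard_le_ncard ?_ hfin
      intro F hF
      rw [Finset.mem_coe, Finset.mem_image] at hF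
      obtain ⟨⟨F', y⟩, hp, rfl⟩ := hF
      rw [Finset.mem_filter, Set.Finite.mem_toFinset] at hp
      obtain ⟨⟨hf, hy⟩, hyx⟩ := hp
      have hyx' : y = x := hyx
      subst hyx'
      exact ⟨hf, extremePoints_subset hy.1, hy.2.2.2⟩
    · rintro ⟨F, x⟩ hp
      rw [Finset.mem_coe, Set.Finite.mem_toFinset] at hp
      obtain ⟨hf, hx⟩ := hp
      have h1 := hx.1
      rw [ext_face hf.1] at h1
      exact (hV'm x).2 ⟨h1.2, hx.2.1, hx.2.2.1⟩
  have hN1 := nb_sum_ge S hwP V' hV'm
  have hN2 := nb_sum_ge S hvP V' (fun x => by rw [hV'm]; tauto)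
  -- splitting
  set V₁ := V'.filter fun x => x ∈ F0 with hV₁
  set V₂ := V'.filter fun x => ¬ x ∈ F0 with hV₂
  have hsplit : ∀ f : E4 → ℕ, ∑ x ∈ V', f x = ∑ x ∈ V₁, f x + ∑ x ∈ V₂, f x := fun f =>
    (Finset.sum_filter_add_sum_filter_not V' (fun x => x ∈ F0) f).symm
  have hcard : V₁.card + V₂.card = V'.card := Finset.card_filter_add_card_filter_not _
  have hV₁c : V₁.card + 2 = 12 := by
    have h12 := (hI F0 hF0).card
    have hfinF : (F0.extremePoints ℝ).Finite := by
      rw [ext_face hF0.1]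
      exact (ext_finite S).subset Set.inter_subset_right
    have hset : (insert w (insert v V₁) : Finset E4) = hfinF.toFinset := by
      ext x
      rw [Finset.mem_insert, Finset.mem_insert, hV₁, Finset.mem_filter, hV'm,
        Set.Finite.mem_toFinset, ext_face hF0.1, Set.mem_inter_iff]
      constructor
      · rintro (rfl | rfl | h)
        · exact hw'
        · exact hv'
        · exact ⟨h.2, h.1.1⟩
      · intro h
        by_cases h1 : x = w
        · exact Or.inl h1
        · by_cases h2 : x = v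
          · exact Or.inr (Or.inl h2)
          · exact Or.inr (Or.inr ⟨⟨h.2, h2, h1⟩, h.1⟩)
    have hc := congrArg Finset.card hset
    have hvn : v ∉ V₁ := by
      intro h
      rw [hV₁, Finset.mem_filter, hV'm] at h
      exact h.1.2.1 rfl
    have hwn : w ∉ insert v V₁ := by
      intro h
      rw [Finset.mem_insert] at h
      rcases h with h | h
      · exact hwv h
      · rw [hV₁, Finset.mem_filter, hV'm] at h
        exact h.1.2.2 rfl
    rw [Finset.card_insert_of_notMem hwn, Finset.card_insert_of_notMem hvn] at hc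
    have h3 : hfinF.toFinset.card = (F0.extremePoints ℝ).ncard := by
      rw [← Set.ncard_coe_finset, Set.Finite.coe_toFinset]
    omega
  have hS2 : ∑ x ∈ V₂, ((crossed S v w x).ncard +
      (if v ∈ nb (convexHull ℝ (S : Set E4)) x then 1 else 0) +
      (if w ∈ nb (convexHull ℝ (S : Set E4)) x then 1 else 0)) ≤ V₂.card * 2 := by
    rw [← smul_eq_mul]
    refine Finset.sum_le_card_nsmul _ _ _ fun x hx => ?_
    rw [hV₂, Finset.mem_filter, hV'm] at hx
    obtain ⟨⟨hxe, hxv, hxw⟩, hxF⟩ := hx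
    refine crossed_nb S hxe hv'.2 hw'.2 (Ne.symm hxv) (Ne.symm hxw) (Ne.symm hwv) ?_
    intro F hF h1 h2 h3
    have h4 := one_facet S hF0 hF (hI F0 hF0) hv hw hwv hn h1 h2
    rw [← h4] at h3
    exact hxF h3
  have hS1 : ∑ x ∈ V₁, (crossed S v w x).ncard ≤ V₁.card * 1 := by
    rw [← smul_eq_mul]
    refine Finset.sum_le_card_nsmul _ _ _ fun x hx => ?_
    rw [hV₁, Finset.mem_filter] at hx
    exact crossed_one S hF0 hx.2 hv'.1 hw'.1
  have hB1 := nb_sum_le S hF0 hv'.1 V₁ (fun x hx => by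
    rw [hV₁, Finset.mem_filter] at hx
    exact hx.2)
  have hB2 := nb_sum_le S hF0 hw'.1 V₁ (fun x hx => by
    rw [hV₁, Finset.mem_filter] at hx
    exact hx.2)
  have h5v := nb_five (hI F0 hF0) hv
  have h5w := nb_five (hI F0 hF0) hw
  rw [hsplit] at hT hN1 hN2
  rw [Finset.sum_add_distrib, Finset.sum_add_distrib] at hS2
  omega

end Pool.Agent.H2.IR
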