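import Mathlib
import Pool.Agent.H2.IR.Defs
import Pool.Agent.H2.IR.CountA
import Pool.Agent.H2.IR.Mid

/-!
# Lower bound for the crossed pairs (module CountB, about 130 lines, counting)

Notation of `CountA`. Claim: `6 (p_v + p_w) + 2 s ≤ T + 2`, where `p_v`, `p_w` are the numbers of
facets containing `v`, `w` and `s = #{F : v, w ∉ F, #(innerFrom v w F) ≥ 2}`.

PROOF. Count the pairs by their first coordinate.
(a) `F = F0`: every vertex `x ≠ v, w` of `F0` (ten of them, `IsIco.card`) is in
`innerFrom v w F0`: with `s = t = 1/2` the point is the midpoint of `v, w` (`mid_core`).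
(b) `F ∋ v`, `F ≠ F0`: then `w ∉ F` (`one_facet`). The vertices `x ≠ v` of `F` with `x ∉ nb F v`
number `12 - 1 - 5 = 6` (`IsIco.card`, `nb_five`, `v ∉ nb F v`), they are different from `w`, and
with `s = 1/2, t = 0` the point is the midpoint of `v, x` (`mid_core`). So at least 6 pairs.
(c) `F ∋ w`, `F ≠ F0`: the same, `v ∉ F`, `s = 0`, `t = 1/2`.
(d) `F` with `v, w ∉ F` and at least two crossed vertices: at least 2 pairs.
The four classes are disjoint; (b) has `p_v - 1`, (c) has `p_w - 1` elements: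
`T ≥ 10 + 6 (p_v - 1) + 6 (p_w - 1) + 2 s`.
(E.g. with the function `c F = #(innerFrom v w F)` on the finset of facets:
`T = sum_F c F`, `c F ≥ 6 [v ∈ F] + 6 [w ∈ F] + 2 [F in class d]` for `F ≠ F0` and
`c F0 ≥ 10 = 6 + 6 - 2`.)
-/

set_option autoImplicit false

open Module

namespace Pool.Agent.H2.IR

open Pool.Agent.H77.IC

private theorem cb_count (S : Finset E4) (p : Set E4 → Prop) [DecidablePred p] :
    {F : Set E4 | IsFacet (convexHull ℝ (S : Set E4)) F ∧ p F}.ncard =
      ∑ F ∈ (facet_finite S).toFinset, (if p F then 1 else 0) := by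
  classical
  have h : {F : Set E4 | IsFacet (convexHull ℝ (S : Set E4)) F ∧ p F} =
      ((facet_finite S).toFinset.filter p : Set (Set E4)) := by
    ext F
    simp
  rw [h, Set.ncard_coe_finset, Finset.card_filter]

private theorem cb_ext_fin (S : Finset E4) {F : Set E4}
    (hF : IsFacet (convexHull ℝ (S : Set E4)) F) : (F.extremePoints ℝ).Finite := by
  rw [ext_face hF.1]
  exact (ext_finite S).subset Set.inter_subset_right

private theorem cb_inner_fin (S : Finset E4) {F : Set E4} (v w : E4)
    (hF : IsFacet (convexHull ℝ (S : Set E4)) F) : (innerFrom v w F).Finite :=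
  (cb_ext_fin S hF).subset fun _ h => h.1

private theorem cb_pairs (S : Finset E4) (v w : E4) :
    (pairs S v w).ncard = ∑ F ∈ (facet_finite S).toFinset, (innerFrom v w F).ncard := by
  classical
  rw [Set.ncard_eq_toFinset_card _ (pairs_finite S v w)]
  rw [Finset.card_eq_sum_card_fiberwise (f := Prod.fst) (t := (facet_finite S).toFinset)]
  · refine Finset.sum_congr rfl fun F hF => ?_
    have hF' : IsFacet (convexHull ℝ (S : Set E4)) F := by simpa using hF
    rw [← Set.ncard_coe_finset]
    have h : (((pairs_finite S v w).toFinset.filter fun p => p.1 = F : Finset (Set E4 × E4)) :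
        Set (Set E4 × E4)) = (fun x : E4 => (F, x)) '' innerFrom v w F := by
      ext p
      simp only [Finset.coe_filter, Set.Finite.mem_toFinset, Set.mem_ofPred_eq, Set.mem_image]
      constructor
      · rintro ⟨h1, h2⟩
        refine ⟨p.2, ?_, ?_⟩
        · have h3 := h1.2
          rw [h2] at h3
          exact h3
        · rw [← h2]
      · rintro ⟨x, hx, rfl⟩
        exact ⟨⟨hF', hx⟩, rfl⟩
    rw [h, Set.ncard_image_of_injective]
    intro x y hxy
    exact (Prod.mk.inj hxy).2
  · intro p hp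
    have h1 : p ∈ pairs S v w := by simpa using hp
    simpa using h1.1

private theorem cb_six (S : Finset E4) {F : Set E4} (hF : IsFacet (convexHull ℝ (S : Set E4)) F)
    (hI : IsIco F) {v w : E4} (hv : v ∈ F.extremePoints ℝ) (hw : w ∉ F) :
    6 ≤ (innerFrom v w F).ncard ∧ 6 ≤ (innerFrom w v F).ncard := by
  have hfin := cb_ext_fin S hF
  have hnb : (nb F v).Finite := hfin.subset fun y hy => hy.2.2.1
  have h12 := hI.card
  have h5 := nb_five hI hv
  have hlow : 6 ≤ (F.extremePoints ℝ \ insert v (nb F v)).ncard := by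
    have h1 := Set.ncard_le_ncard_sdiff_add_ncard (F.extremePoints ℝ) (insert v (nb F v))
      (hnb.insert v)
    have h2 := Set.ncard_insert_le v (nb F v)
    omega
  have hxF : ∀ x ∈ F.extremePoints ℝ, x ∈ F := fun x hx => extremePoints_subset hx
  have hkey : ∀ x ∈ F.extremePoints ℝ \ insert v (nb F v),
      x ∈ F.extremePoints ℝ ∧ x ≠ v ∧ x ≠ w ∧ Core F (v + (1 / 2 : ℝ) • (x - v)) := by
    rintro x ⟨hx, hn⟩
    rw [Set.mem_insert_iff, not_or] at hn
    refine ⟨hx, hn.1, ?_, mid_core S hF hI hv hx hn.1 hn.2⟩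
    rintro rfl
    exact hw (hxF _ hx)
  constructor
  · refine hlow.trans (Set.ncard_le_ncard ?_ (cb_inner_fin S v w hF))
    intro x hx
    obtain ⟨h1, h2, h3, h4⟩ := hkey x hx
    refine ⟨h1, h2, h3, 1 / 2, 0, ?_⟩
    have e : x + (1 / 2 : ℝ) • (v - x) + (0 : ℝ) • (w - x) = v + (1 / 2 : ℝ) • (x - v) := by
      module
    rw [e]
    exact h4
  · refine hlow.trans (Set.ncard_le_ncard ?_ (cb_inner_fin S w v hF))
    intro x hx
    obtain ⟨h1, h2, h3, h4⟩ := hkey x hx
    refine ⟨h1, h3, h2, 0, 1 / 2, ?_⟩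
    have e : x + (0 : ℝ) • (w - x) + (1 / 2 : ℝ) • (v - x) = v + (1 / 2 : ℝ) • (x - v) := by
      module
    rw [e]
    exact h4

private theorem cb_ten (S : Finset E4) {F : Set E4} (hF : IsFacet (convexHull ℝ (S : Set E4)) F)
    (hI : IsIco F) {v w : E4} (hv : v ∈ F.extremePoints ℝ) (hw : w ∈ F.extremePoints ℝ)
    (hwv : w ≠ v) (hn : w ∉ nb F v) : 10 ≤ (innerFrom v w F).ncard := by
  have h12 := hI.card
  have hlow : 10 ≤ (F.extremePoints ℝ \ {v, w}).ncard := by
    have h1 := Set.ncard_le_ncard_sdiff_add_ncard (F.extremePoints ℝ) {v, w} (Set.toFinite _)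
    have h2 : ({v, w} : Set E4).ncard = 2 := Set.ncard_pair hwv.symm
    omega
  refine hlow.trans (Set.ncard_le_ncard ?_ (cb_inner_fin S v w hF))
  rintro x ⟨hx, hne⟩
  rw [Set.mem_insert_iff, Set.mem_singleton_iff, not_or] at hne
  refine ⟨hx, hne.1, hne.2, 1 / 2, 1 / 2, ?_⟩
  have e : x + (1 / 2 : ℝ) • (v - x) + (1 / 2 : ℝ) • (w - x) = v + (1 / 2 : ℝ) • (w - v) := by
    module
  rw [e]
  exact mid_core S hF hI hv hw hwv hn

theorem pairs_lower (S : Finset E4)
    (hI : ∀ F, IsFacet (convexHull ℝ (S : Set E4)) F → IsIco F) {F0 : Set E4}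
    (hF0 : IsFacet (convexHull ℝ (S : Set E4)) F0) {v w : E4} (hv : v ∈ F0.extremePoints ℝ)
    (hw : w ∈ F0.extremePoints ℝ) (hwv : w ≠ v) (hn : w ∉ nb F0 v) :
    6 * ({F : Set E4 | IsFacet (convexHull ℝ (S : Set E4)) F ∧ v ∈ F}.ncard +
      {F : Set E4 | IsFacet (convexHull ℝ (S : Set E4)) F ∧ w ∈ F}.ncard) +
      2 * {F : Set E4 | IsFacet (convexHull ℝ (S : Set E4)) F ∧ v ∉ F ∧ w ∉ F ∧
        2 ≤ (innerFrom v w F).ncard}.ncard ≤ (pairs S v w).ncard + 2 := by
  classical
  have hvP : v ∈ (convexHull ℝ (S : Set E4)).extremePoints ℝ := by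
    rw [ext_face hF0.1] at hv
    exact hv.2
  have hwP : w ∈ (convexHull ℝ (S : Set E4)).extremePoints ℝ := by
    rw [ext_face hF0.1] at hw
    exact hw.2
  have hone : ∀ F, IsFacet (convexHull ℝ (S : Set E4)) F → v ∈ F → w ∈ F → F0 = F :=
    fun F hF h1 h2 => one_facet S hF0 hF (hI F0 hF0) hv hw hwv hn h1 h2
  rw [cb_pairs, cb_count S (fun F => v ∈ F), cb_count S (fun F => w ∈ F),
    cb_count S (fun F => v ∉ F ∧ w ∉ F ∧ 2 ≤ (innerFrom v w F).ncard)]
  have hterm : ∀ F ∈ (facet_finite S).toFinset,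
      6 * (if v ∈ F then 1 else 0) + 6 * (if w ∈ F then 1 else 0) +
        2 * (if v ∉ F ∧ w ∉ F ∧ 2 ≤ (innerFrom v w F).ncard then 1 else 0) ≤
      (innerFrom v w F).ncard + (if F = F0 then 2 else 0) := by
    intro F hF
    have hF' : IsFacet (convexHull ℝ (S : Set E4)) F := by simpa using hF
    have hIF := hI F hF'
    by_cases h0 : F = F0
    · subst h0
      have h10 := cb_ten S hF' hIF hv hw hwv hn
      have hvF : v ∈ F := extremePoints_subset hv
      have hwF : w ∈ F := extremePoints_subset hw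
      simp only [hvF, hwF, if_true, not_true_eq_false, false_and, if_false]
      omega
    · rw [if_neg h0]
      by_cases h1 : v ∈ F
      · have h2 : w ∉ F := fun h2 => h0 (hone F hF' h1 h2).symm
        have hvF : v ∈ F.extremePoints ℝ := by
          rw [ext_face hF'.1]
          exact ⟨h1, hvP⟩
        have h6 := (cb_six S hF' hIF hvF h2).1
        simp only [h1, h2, if_true, if_false, not_true_eq_false, false_and]
        omega
      · by_cases h2 : w ∈ F
        · have hwF : w ∈ F.extremePoints ℝ := by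
            rw [ext_face hF'.1]
            exact ⟨h2, hwP⟩
          have h6 := (cb_six S hF' hIF hwF h1).2
          simp only [h1, h2, if_true, if_false, not_true_eq_false, false_and, and_false]
          omega
        · by_cases h3 : 2 ≤ (innerFrom v w F).ncard
          · simp only [h1, h2, h3, if_true, if_false, not_false_eq_true, and_self]
            omega
          · simp only [h1, h2, h3, if_false, and_false]
            omega
  have hsum := Finset.sum_le_sum hterm
  rw [Finset.sum_add_distrib, Finset.sum_add_distrib, Finset.sum_add_distrib, ← Finset.mul_sum,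
    ← Finset.mul_sum, ← Finset.mul_sum, Finset.sum_ite_eq', if_pos (by simpa using hF0)] at hsum
  omega

end Pool.Agent.H2.IR
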