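import Mathlib
import Pool.Agent.H2.IR.Defs
import Pool.Agent.H2.IR.Vert

/-!
# The cones over the faces of the icosahedron cover 3-space (module Cover, about 150 lines)

Claim: every `w = (x, y, z)` is `A p_a + B p_b + C p_c` with `a, b, c` the vertices of a face and
`A ≥ B ≥ C ≥ 0`.

PROOF. (1) Without the order: let `φ` be the golden ratio (`1/φ = φ - 1`). For `x, y, z ≥ 0`:
 (i) if `z ≥ (φ-1) x + φ y`: `w = α (0,1,φ) + δ (0,-1,φ) + γ (φ,0,1)`, `γ = (φ-1) x`,
   `α = (((φ-1)(z - (φ-1) x)) + y)/2`, `δ = ((φ-1)(z - (φ-1) x) - y)/2 ≥ 0`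
   (check: `φ γ = x`, `α - δ = y`, `φ (α + δ) + γ = z`);
 (ii), (iii): the two cyclic variants: `x ≥ (φ-1) y + φ z` with `(1,φ,0)`-cyclic vertices
   `(φ,0,1), (φ,0,-1), (1,φ,0)`; `y ≥ (φ-1) z + φ x` with `(1,φ,0), (-1,φ,0), (0,1,φ)`;
 (iv) otherwise `w = α (0,1,φ) + β (1,φ,0) + γ (φ,0,1)`:
   `β (1+φ^3) = x - φ z + φ^2 y > 0` (not (i)), `γ (1+φ^3) = z - φ y + φ^2 x > 0` (not (iii)),
   `α (1+φ^3) = y - φ x + φ^2 z > 0` (not (ii)).
 For general signs: changing the sign of a coordinate permutes the twelve points and preserves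
 inner products; so apply the case `(|x|, |y|, |z|)` and change signs in all vectors. With indices:
 let `neg k : Fin 12 → Fin 12` (k = 0, 1, 2) be the permutation of the points given by the change of
 the sign of the coordinate `k`, e.g. defined by a table; `decide` proves
 `zt (neg k i) j = if j = k then -zt i j else zt i j` and `tri a b c → tri (neg k a) (neg k b) (neg k c)`.
 (Points: 0 = (0,1,φ), 1 = (1,φ,0), 2 = (φ,0,1), 3 = (0,1,-φ), 4 = (1,-φ,0), 5 = (-φ,0,1),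
 6 = (0,-1,φ), 7 = (-1,φ,0), 8 = (φ,0,-1), 9 = (0,-1,-φ), 10 = (-1,-φ,0), 11 = (-φ,0,-1).)
(2) Order: `tri` is symmetric in its three arguments (`dp_symm`); permute the three terms.
-/

set_option autoImplicit false

open Module

namespace Pool.Agent.H2.IR

open Pool.Agent.H77.IC

private def Pc (w : Fin 3 → ℝ) : Prop := ∃ a b c : Fin 12, tri a b c ∧ ∃ A B C : ℝ,
    0 ≤ A ∧ 0 ≤ B ∧ 0 ≤ C ∧ w = A • pt a + B • pt b + C • pt c

private lemma v0 : pt 0 0 = 0 ∧ pt 0 1 = 1 ∧ pt 0 2 = Real.goldenRatio := by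
  refine ⟨?_, ?_, ?_⟩ <;> simp [pt, ev, zt]

private lemma v1 : pt 1 0 = 1 ∧ pt 1 1 = Real.goldenRatio ∧ pt 1 2 = 0 := by
  refine ⟨?_, ?_, ?_⟩ <;> simp [pt, ev, zt]

private lemma v2 : pt 2 0 = Real.goldenRatio ∧ pt 2 1 = 0 ∧ pt 2 2 = 1 := by
  refine ⟨?_, ?_, ?_⟩ <;> simp [pt, ev, zt]

private lemma v6 : pt 6 0 = 0 ∧ pt 6 1 = -1 ∧ pt 6 2 = Real.goldenRatio := by
  refine ⟨?_, ?_, ?_⟩ <;> simp [pt, ev, zt]

private lemma v7 : pt 7 0 = -1 ∧ pt 7 1 = Real.goldenRatio ∧ pt 7 2 = 0 := by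
  refine ⟨?_, ?_, ?_⟩ <;> simp [pt, ev, zt]

private lemma v8 : pt 8 0 = Real.goldenRatio ∧ pt 8 1 = 0 ∧ pt 8 2 = -1 := by
  refine ⟨?_, ?_, ?_⟩ <;> simp [pt, ev, zt]

private lemma eq3 {w : Fin 3 → ℝ} {a b c : Fin 12} {A B C : ℝ}
    (h0 : w 0 = A * pt a 0 + B * pt b 0 + C * pt c 0)
    (h1 : w 1 = A * pt a 1 + B * pt b 1 + C * pt c 1)
    (h2 : w 2 = A * pt a 2 + B * pt b 2 + C * pt c 2) :
    w = A • pt a + B • pt b + C • pt c := by
  funext k
  fin_cases k
  · exact h0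
  · exact h1
  · exact h2

private lemma pos_case (w : Fin 3 → ℝ) (h0 : 0 ≤ w 0) (h1 : 0 ≤ w 1) (h2 : 0 ≤ w 2) : Pc w := by
  have hl := phi_lo
  have hq := Real.goldenRatio_sq
  obtain ⟨a00, a01, a02⟩ := v0
  obtain ⟨a10, a11, a12⟩ := v1
  obtain ⟨a20, a21, a22⟩ := v2
  obtain ⟨a60, a61, a62⟩ := v6
  obtain ⟨a70, a71, a72⟩ := v7
  obtain ⟨a80, a81, a82⟩ := v8
  set φ := Real.goldenRatio with hφ
  set x := w 0 with hx
  set y := w 1 with hy
  set z := w 2 with hz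
  have hφ1 : 0 < φ - 1 := by linarith
  have hφ0 : 0 < φ := by linarith
  have hone : (φ - 1) * φ = 1 := by linear_combination hq
  by_cases c1 : (φ - 1) * x + φ * y ≤ z
  · have hd : y ≤ (φ - 1) * (z - (φ - 1) * x) := by
      have h := mul_le_mul_of_nonneg_left (show φ * y ≤ z - (φ - 1) * x by linarith) hφ1.le
      have h' : (φ - 1) * (φ * y) = y := by rw [← mul_assoc, hone, one_mul]
      linarith
    refine ⟨0, 6, 2, by decide, ((φ - 1) * (z - (φ - 1) * x) + y) / 2,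
      ((φ - 1) * (z - (φ - 1) * x) - y) / 2, (φ - 1) * x, by linarith, by linarith,
      mul_nonneg hφ1.le h0, eq3 ?_ ?_ ?_⟩
    · rw [a00, a60, a20, ← hx]
      linear_combination (-x) * hone
    · rw [a01, a61, a21, ← hy]
      ring
    · rw [a02, a62, a22, ← hz]
      linear_combination (-(z - (φ - 1) * x)) * hone
  by_cases c2 : (φ - 1) * y + φ * z ≤ x
  · have hd : z ≤ (φ - 1) * (x - (φ - 1) * y) := by
      have h := mul_le_mul_of_nonneg_left (show φ * z ≤ x - (φ - 1) * y by linarith) hφ1.le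
      have h' : (φ - 1) * (φ * z) = z := by rw [← mul_assoc, hone, one_mul]
      linarith
    refine ⟨2, 8, 1, by decide, ((φ - 1) * (x - (φ - 1) * y) + z) / 2,
      ((φ - 1) * (x - (φ - 1) * y) - z) / 2, (φ - 1) * y, by linarith, by linarith,
      mul_nonneg hφ1.le h1, eq3 ?_ ?_ ?_⟩
    · rw [a20, a80, a10, ← hx]
      linear_combination (-(x - (φ - 1) * y)) * hone
    · rw [a21, a81, a11, ← hy]
      linear_combination (-y) * hone
    · rw [a22, a82, a12, ← hz]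
      ring
  by_cases c3 : (φ - 1) * z + φ * x ≤ y
  · have hd : x ≤ (φ - 1) * (y - (φ - 1) * z) := by
      have h := mul_le_mul_of_nonneg_left (show φ * x ≤ y - (φ - 1) * z by linarith) hφ1.le
      have h' : (φ - 1) * (φ * x) = x := by rw [← mul_assoc, hone, one_mul]
      linarith
    refine ⟨1, 7, 0, by decide, ((φ - 1) * (y - (φ - 1) * z) + x) / 2,
      ((φ - 1) * (y - (φ - 1) * z) - x) / 2, (φ - 1) * z, by linarith, by linarith,
      mul_nonneg hφ1.le h2, eq3 ?_ ?_ ?_⟩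
    · rw [a10, a70, a00, ← hx]
      ring
    · rw [a11, a71, a01, ← hy]
      linear_combination (-(y - (φ - 1) * z)) * hone
    · rw [a12, a72, a02, ← hz]
      linear_combination (-z) * hone
  push Not at c1 c2 c3
  have hD : 0 < 1 + φ ^ 3 := by positivity
  have hβ : 0 ≤ x - φ * z + φ ^ 2 * y := by
    have h := mul_lt_mul_of_pos_left c1 hφ0
    have e : φ * ((φ - 1) * x + φ * y) = x + φ ^ 2 * y := by linear_combination x * hone
    linarith
  have hγ : 0 ≤ z - φ * y + φ ^ 2 * x := by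
    have h := mul_lt_mul_of_pos_left c3 hφ0
    have e : φ * ((φ - 1) * z + φ * x) = z + φ ^ 2 * x := by linear_combination z * hone
    linarith
  have hα : 0 ≤ y - φ * x + φ ^ 2 * z := by
    have h := mul_lt_mul_of_pos_left c2 hφ0
    have e : φ * ((φ - 1) * y + φ * z) = y + φ ^ 2 * z := by linear_combination y * hone
    linarith
  refine ⟨0, 1, 2, by decide, (y - φ * x + φ ^ 2 * z) / (1 + φ ^ 3),
    (x - φ * z + φ ^ 2 * y) / (1 + φ ^ 3), (z - φ * y + φ ^ 2 * x) / (1 + φ ^ 3),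
    div_nonneg hα hD.le, div_nonneg hβ hD.le, div_nonneg hγ hD.le, eq3 ?_ ?_ ?_⟩
  · rw [a00, a10, a20, ← hx]
    field_simp
    ring
  · rw [a01, a11, a21, ← hy]
    field_simp
    ring
  · rw [a02, a12, a22, ← hz]
    field_simp
    ring

private def ng : Fin 3 → Fin 12 → Fin 12 :=
  ![![0, 7, 5, 3, 10, 2, 6, 1, 11, 9, 4, 8], ![6, 4, 2, 9, 1, 5, 0, 10, 8, 3, 7, 11],
    ![3, 1, 8, 0, 4, 11, 9, 7, 2, 6, 10, 5]]

private lemma zt_ng : ∀ (k : Fin 3) (i : Fin 12) (j : Fin 3),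
    zt (ng k i) j = if j = k then -zt i j else zt i j := by
  decide

private lemma dp_ng : ∀ (k : Fin 3) (i j : Fin 12), dp (ng k i) (ng k j) = dp i j := by
  decide +kernel

private lemma pt_ng (k : Fin 3) (i : Fin 12) (j : Fin 3) :
    pt (ng k i) j = if j = k then -pt i j else pt i j := by
  unfold pt
  rw [zt_ng]
  by_cases h : j = k
  · rw [if_pos h, if_pos h, ev_neg]
  · rw [if_neg h, if_neg h]

private lemma Pc_fl (k : Fin 3) {w : Fin 3 → ℝ} (h : Pc w) :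
    Pc (fun j => if j = k then -w j else w j) := by
  obtain ⟨a, b, c, ⟨t1, t2, t3⟩, A, B, C, hA, hB, hC, hw⟩ := h
  refine ⟨ng k a, ng k b, ng k c, ⟨by rw [dp_ng]; exact t1, by rw [dp_ng]; exact t2,
    by rw [dp_ng]; exact t3⟩, A, B, C, hA, hB, hC, ?_⟩
  funext j
  have hj : w j = A * pt a j + B * pt b j + C * pt c j := congrFun hw j
  show (if j = k then -w j else w j) =
    A * pt (ng k a) j + B * pt (ng k b) j + C * pt (ng k c) j
  rw [pt_ng, pt_ng, pt_ng]
  by_cases h : j = k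
  · rw [if_pos h, if_pos h, if_pos h, if_pos h, hj]
    ring
  · rw [if_neg h, if_neg h, if_neg h, if_neg h, hj]

private lemma Pc_step (k : Fin 3) (w : Fin 3 → ℝ)
    (h : ∀ v : Fin 3 → ℝ, (∀ j, j ≠ k → v j = w j) → 0 ≤ v k → Pc v) : Pc w := by
  by_cases hk : 0 ≤ w k
  · exact h w (fun _ _ => rfl) hk
  · have h1 := Pc_fl k (h (fun j => if j = k then -w j else w j)
      (fun j hj => if_neg hj) (by
        show 0 ≤ (if k = k then -w k else w k)
        rw [if_pos rfl]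
        linarith))
    have h2 : (fun j => if j = k then -(if j = k then -w j else w j) else
        (if j = k then -w j else w j)) = w := by
      funext j
      by_cases hj : j = k
      · rw [if_pos hj, if_pos hj, neg_neg]
      · rw [if_neg hj, if_neg hj]
    rw [h2] at h1
    exact h1

private lemma Pc_all (w : Fin 3 → ℝ) : Pc w := by
  refine Pc_step 0 w fun v _ hv0 => ?_
  refine Pc_step 1 v fun v' hv' hv1 => ?_
  refine Pc_step 2 v' fun v'' hv'' hv2 => ?_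
  refine pos_case v'' ?_ ?_ hv2
  · rw [hv'' 0 (by decide), hv' 0 (by decide)]
    exact hv0
  · rw [hv'' 1 (by decide)]
    exact hv1

private lemma tri_12 {a b c : Fin 12} (h : tri a b c) : tri b a c :=
  ⟨by rw [dp_symm]; exact h.1, h.2.2, h.2.1⟩

private lemma tri_23 {a b c : Fin 12} (h : tri a b c) : tri a c b :=
  ⟨h.2.1, h.1, by rw [dp_symm]; exact h.2.2⟩

theorem cover (w : Fin 3 → ℝ) : ∃ a b c : Fin 12, tri a b c ∧ ∃ A B C : ℝ,
    0 ≤ C ∧ C ≤ B ∧ B ≤ A ∧ w = A • pt a + B • pt b + C • pt c := by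
  obtain ⟨a, b, c, t, A, B, C, hA, hB, hC, hw⟩ := Pc_all w
  rcases le_total A B with h1 | h1 <;> rcases le_total B C with h2 | h2 <;>
    rcases le_total A C with h3 | h3
  · exact ⟨c, b, a, tri_12 (tri_23 (tri_12 t)), C, B, A, hA, h1, h2, by rw [hw]; module⟩
  · exact ⟨c, b, a, tri_12 (tri_23 (tri_12 t)), C, B, A, hA, h1, h2, by rw [hw]; module⟩
  · exact ⟨b, c, a, tri_23 (tri_12 t), B, C, A, hA, h3, h2, by rw [hw]; module⟩
  · exact ⟨b, a, c, tri_12 t, B, A, C, hC, h3, h1, by rw [hw]; module⟩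
  · exact ⟨c, a, b, tri_12 (tri_23 t), C, A, B, hB, h1, h3, by rw [hw]; module⟩
  · exact ⟨a, c, b, tri_23 t, A, C, B, hB, h2, h3, by rw [hw]; module⟩
  · exact ⟨a, b, c, t, A, B, C, hC, h2, h1, hw⟩
  · exact ⟨a, b, c, t, A, B, C, hC, h2, h1, hw⟩

end Pool.Agent.H2.IR
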