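import Mathlib
import Pool.Agent.H2.IR.Defs
import Pool.Agent.H77.IC.Facet

/-!
# The hyperplane of a facet (module Hyper, about 60 lines)

`facet_eq` gives `a, M`. `a ≠ 0`: otherwise `F` nonempty gives `M = 0`, `F = P`, and `P` has
nonempty interior, so its affine span is everything (`IsOpen.affineSpan_eq_top`), and the
direction has rank 4. The direction `V` of the affine span of `F` is contained in `ker a` (the
affine span is contained in the affine subspace `a = M`; or: `V` is the span of the differences,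
`vectorSpan`), `finrank V = 3 = finrank (ker a)` (see `two_sweep`), so `V = ker a`
(`Submodule.eq_of_le_of_finrank_eq`). If `a u = M`, take `x ∈ F`, `a (u - x) = 0`, so
`u - x ∈ V`, `u = (u - x) + x` is in the affine span (`AffineSubspace.vadd_mem_of_mem_direction`).
-/

set_option autoImplicit false

open Module

namespace Pool.Agent.H2.IR

open Pool.Agent.H77.IC

theorem facet_hyper (S : Finset E4) (hS : (interior (convexHull ℝ (S : Set E4))).Nonempty)
    {F : Set E4} (hF : IsFacet (convexHull ℝ (S : Set E4)) F) :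
    ∃ (a : E4 →L[ℝ] ℝ) (M : ℝ), (∀ y ∈ convexHull ℝ (S : Set E4), a y ≤ M) ∧
      F = {x ∈ convexHull ℝ (S : Set E4) | a x = M} ∧
      (∀ u, a u = M → u ∈ affineSpan ℝ F) ∧ (∀ u, a u = 0 → u ∈ (affineSpan ℝ F).direction) := by
  obtain ⟨hne, a, M, hM, hFa⟩ := facet_eq hF
  have hF3 : finrank ℝ (affineSpan ℝ F).direction = 3 := hF.2
  have ha : a ≠ 0 := by
    intro ha
    obtain ⟨x, hx⟩ := hne
    have hM0 : M = 0 := by
      rw [hFa] at hx
      rw [← hx.2, ha]
      rfl
    have hFP : F = convexHull ℝ (S : Set E4) := by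
      rw [hFa]
      ext y
      constructor
      · exact fun h => h.1
      · intro h
        refine ⟨h, ?_⟩
        rw [ha, hM0]
        rfl
    have h1 : affineSpan ℝ (interior (convexHull ℝ (S : Set E4))) = ⊤ := isOpen_interior.affineSpan_eq_top hS
    have h2 : affineSpan ℝ F = ⊤ := by
      rw [hFP, ← top_le_iff, ← h1]
      exact affineSpan_mono ℝ interior_subset
    rw [h2, AffineSubspace.direction_top, finrank_top, finrank_euclideanSpace_fin] at hF3
    omega
  have hker : (affineSpan ℝ F).direction ≤ LinearMap.ker (a : E4 →ₗ[ℝ] ℝ) := by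
    rw [direction_affineSpan, vectorSpan_def, Submodule.span_le]
    rintro v ⟨x, hx, y, hy, rfl⟩
    rw [hFa] at hx hy
    show a (x -ᵥ y) = 0
    rw [vsub_eq_sub, map_sub, hx.2, hy.2, sub_self]
  have hk3 : finrank ℝ (LinearMap.ker (a : E4 →ₗ[ℝ] ℝ)) = 3 := by
    have h1 : (a : E4 →ₗ[ℝ] ℝ) ≠ 0 := by
      intro h
      apply ha
      ext x
      exact LinearMap.congr_fun h x
    have h2 := LinearMap.range_eq_top.2 (LinearMap.surjective h1)
    have h3 := LinearMap.finrank_range_add_finrank_ker (a : E4 →ₗ[ℝ] ℝ)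
    rw [h2, finrank_top, Module.finrank_self, finrank_euclideanSpace_fin] at h3
    omega
  have hV : (affineSpan ℝ F).direction = LinearMap.ker (a : E4 →ₗ[ℝ] ℝ) :=
    Submodule.eq_of_le_of_finrank_eq hker (by rw [hF3, hk3])
  have hdir : ∀ u, a u = 0 → u ∈ (affineSpan ℝ F).direction := by
    intro u hu
    rw [hV]
    exact hu
  refine ⟨a, M, hM, hFa, fun u hu => ?_, hdir⟩
  obtain ⟨x, hx⟩ := hne
  have hx' : a x = M := by
    rw [hFa] at hx
    exact hx.2
  have h1 : u - x ∈ (affineSpan ℝ F).direction := hdir _ (by rw [map_sub, hu, hx', sub_self])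
  have h2 := AffineSubspace.vadd_mem_of_mem_direction h1 (subset_affineSpan ℝ F hx)
  rwa [vadd_eq_add, sub_add_cancel] at h2

end Pool.Agent.H2.IR
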