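import Mathlib
import Pool.Agent.H2.IR.Defs
import Pool.Agent.H2.IR.Vert
import Pool.Agent.H2.IR.Cover

/-!
# Two vertices with large margin (module Margin, about 180 lines)

`K = 3 φ + 2`; the face `a, b, c` of `Ico` is the plane `(pt a + pt b + pt c) ⬝ᵥ x = K`. For
`(w, s) ≠ 0` there are two vertices `i ≠ j` such that at each of them the five numbers
`K s - (pt i + pt b + pt c) ⬝ᵥ w` (`i, b, c` a face) have the same strict sign and absolute value
greater than `(K/5) |w|`.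

PROOF. (0) Table (`decide`): let `f = (i, x, y)` be a face at `i` and `i, b, c` a face. The inner
product of `p_i + p_x + p_y` with `p_i` is `K`, with `p_b` and `p_c` it is `K`, `φ` or `-φ`, and if
it is `-φ` for one of `b, c` then it is `φ` or `K` for the other.
(in `ℤ × ℤ`: `dp i b + dp x b + dp y b ∈ {(2,3), (0,1), (0,-1)}`.)
So for `V ≥ 0`, `A' ≥ B' ≥ 0`:
`(p_i + p_x + p_y) ⬝ (V p_i + A' p_b + B' p_c) ≥ K V - φ (A' - B')` (L).
(1) `cover`: `w = A p_a + B p_b + C p_c`, `A ≥ B ≥ C ≥ 0`. Put `m_a = K A - φ (B - C)`,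
`m_b = K B - φ (A - C)`. By (L) with `(i; b, c) = (a; b, c)` and `(b; a, c)`: for every face
`(a, x, y)` at `a`: `(p_a + p_x + p_y) ⬝ w ≥ m_a`; for every face at `b`: `≥ m_b`.
At the antipodes `ant a`, `ant b` (`pt_ant`; faces at `ant a` are the antipodes of the faces at
`a`, `decide`) the numbers are `≤ -m_a`, `≤ -m_b`.
(2) Let `N = sqrt (w ⬝ w)`. `w ⬝ w = (φ+2)(A^2+B^2+C^2) + 2 φ (AB+BC+CA)`. If `w ≠ 0` (so `A > 0`):
`m_a > (K/5) N` and `m_a + m_b > (2K/5) N`. (Divide by `K`, `φ/K = 2φ - 3 = 0.236.. =: r`: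
`m_a/K = A - r B + r C ≥ (1-r) A + r C`, its square is greater than `0.04 w⬝w`, as
`w⬝w ≤ 10.473 A^2 + 3.619 C^2 + 6.473 A C`; `(m_a+m_b)/K = (1-r)(A+B) + 2 r C`, its square is
greater than `0.16 w⬝w` (coefficients: `A^2, B^2`: 0.5836 against 0.5789; `AB`: 1.167 against
0.518; `AC, BC`: 0.721 against 0.518; `C^2`: 0.2229 against 0.5789, compensated by `AB ≥ C^2`).)
`N ≥ 0`, `abs_lt_of_sq_lt_sq`.) If `w = 0` then `A = B = C = 0` (`w ⬝ w = 0`), `m_a = m_b = 0`.
(3) Let `s ≥ 0`. `i = ant a`, `σ = 1`: `K s - (..) ≥ K s + m_a > (K/5) N` (if `w = 0`, `s > 0`).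
If `K s ≤ (m_a - m_b)/2`: `j = a`, `τ = -1`: `(..) - K s ≥ m_a - K s ≥ (m_a+m_b)/2 > (K/5) N`
(here `w ≠ 0`, since `w = 0` would give `s = 0`). Otherwise `j = ant b`, `τ = 1`:
`K s - (..) ≥ K s + m_b > (m_a+m_b)/2 ≥ (K/5) N`.
(4) `s < 0`: apply (3) to `(-w, -s)` and change the signs `σ, τ`.
-/

set_option autoImplicit false

open Module

namespace Pool.Agent.H2.IR

open Pool.Agent.H77.IC

private def sv (i x y b : Fin 12) : ℤ × ℤ := dp i b + dp x b + dp y b

private def PT (i b c x y : Fin 12) : Prop :=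
  (sv i x y b = (0, -1) ∧ (sv i x y c = (0, 1) ∨ sv i x y c = (2, 3))) ∨
  ((sv i x y b = (0, 1) ∨ sv i x y b = (2, 3)) ∧
    (sv i x y c = (0, -1) ∨ sv i x y c = (0, 1) ∨ sv i x y c = (2, 3)))

private instance (i b c x y : Fin 12) : Decidable (PT i b c x y) := by unfold PT; infer_instance

private theorem tab0 : ∀ (i : Fin 12) (j k : Fin 5),
    PT i (cyc i j) (cyc i (j + 1)) (cyc i k) (cyc i (k + 1)) ∧
    PT i (cyc i (j + 1)) (cyc i j) (cyc i k) (cyc i (k + 1)) ∧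
    PT i (cyc i j) (cyc i (j + 1)) (cyc i (k + 1)) (cyc i k) ∧
    PT i (cyc i (j + 1)) (cyc i j) (cyc i (k + 1)) (cyc i k) := by
  decide +kernel

private theorem tab (i b c x y : Fin 12) (h1 : tri i b c) (h2 : tri i x y) : PT i b c x y := by
  obtain ⟨j, ⟨rfl, rfl⟩ | ⟨rfl, rfl⟩⟩ := tri_cyc i b c h1 <;>
    obtain ⟨k, ⟨rfl, rfl⟩ | ⟨rfl, rfl⟩⟩ := tri_cyc i x y h2
  · exact (tab0 i j k).1
  · exact (tab0 i j k).2.2.1
  · exact (tab0 i j k).2.1
  · exact (tab0 i j k).2.2.2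

private theorem sv_self (i x y : Fin 12) (h : tri i x y) : sv i x y i = (2, 3) := by
  obtain ⟨h1, h2, _⟩ := h
  unfold sv
  rw [dp_self, dp_symm x i, dp_symm y i, h1, h2]
  rfl

private theorem dot3 (i x y b : Fin 12) : (pt i + pt x + pt y) ⬝ᵥ pt b = ev (sv i x y b) := by
  unfold sv
  rw [add_dotProduct, add_dotProduct, pt_dot, pt_dot, pt_dot, ev_add, ev_add]

private theorem ineqL (i b c x y : Fin 12) (h1 : tri i b c) (h2 : tri i x y) (V A B : ℝ)
    (hB : 0 ≤ B) (hAB : B ≤ A) :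
    K * V - Real.goldenRatio * (A - B) ≤
      (pt i + pt x + pt y) ⬝ᵥ (V • pt i + A • pt b + B • pt c) := by
  have hp := phi_lo
  rw [dotProduct_add, dotProduct_add, dotProduct_smul, dotProduct_smul, dotProduct_smul, dot3, dot3,
    dot3, sv_self i x y h2]
  have hK : ev (2, 3) = K := by
    unfold ev K
    push_cast
    ring
  have hK' : Real.goldenRatio ≤ K := by
    unfold K
    linarith
  have e1 : ev (0, 1) = Real.goldenRatio := by simp [ev]
  have e2 : ev (0, -1) = -Real.goldenRatio := by simp [ev]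
  have hA : 0 ≤ A := hB.trans hAB
  simp only [smul_eq_mul]
  rw [hK]
  have hg : 0 < Real.goldenRatio := by linarith
  rcases tab i b c x y h1 h2 with ⟨hb, hc⟩ | ⟨hb, hc⟩
  · have hc' : Real.goldenRatio ≤ ev (sv i x y c) := by
      rcases hc with hc | hc <;> rw [hc]
      · exact e1.ge
      · rw [hK]; exact hK'
    rw [hb, e2]
    have := mul_le_mul_of_nonneg_left hc' hB
    nlinarith
  · have hb' : Real.goldenRatio ≤ ev (sv i x y b) := by
      rcases hb with hb | hb <;> rw [hb]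
      · exact e1.ge
      · rw [hK]; exact hK'
    have hc' : -Real.goldenRatio ≤ ev (sv i x y c) := by
      rcases hc with hc | hc | hc <;> rw [hc]
      · exact e2.ge
      · rw [e1]; linarith
      · rw [hK]; linarith
    have h3 := mul_le_mul_of_nonneg_left hb' hA
    have h4 := mul_le_mul_of_nonneg_left hc' hB
    have h5 : 0 ≤ Real.goldenRatio * (A - B) := mul_nonneg hg.le (by linarith)
    nlinarith

private theorem tri_ant : ∀ i b c : Fin 12, tri (ant i) b c → tri i (ant b) (ant c) := by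
  decide +kernel

private theorem tri_swap {a b c : Fin 12} (h : tri a b c) : tri b a c := by
  obtain ⟨h1, h2, h3⟩ := h
  exact ⟨by rw [dp_symm]; exact h1, h3, h2⟩

private theorem tri_ne {a b c : Fin 12} (h : tri a b c) : a ≠ b := by
  rintro rfl
  have := h.1
  rw [dp_self] at this
  exact absurd this (by decide)

private theorem norm_eq (a b c : Fin 12) (h : tri a b c) (A B C : ℝ) :
    (A • pt a + B • pt b + C • pt c) ⬝ᵥ (A • pt a + B • pt b + C • pt c) =
      (Real.goldenRatio + 2) * (A ^ 2 + B ^ 2 + C ^ 2) +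
        2 * Real.goldenRatio * (A * B + B * C + C * A) := by
  obtain ⟨h1, h2, h3⟩ := h
  have e0 : ev (2, 1) = Real.goldenRatio + 2 := by
    unfold ev
    push_cast
    ring
  have e1 : ev (0, 1) = Real.goldenRatio := by simp [ev]
  simp only [dotProduct_add, add_dotProduct, dotProduct_smul, smul_dotProduct, pt_dot, dp_self,
    dp_symm b a, dp_symm c a, dp_symm c b, h1, h2, h3, e0, e1, smul_eq_mul]
  ring

private theorem lt_of_sq {m c q : ℝ} (hm : 0 < m) (h : c ^ 2 * q < m ^ 2) (hq : 0 ≤ q) :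
    c * Real.sqrt q < m := by
  have h1 : (c * Real.sqrt q) ^ 2 < m ^ 2 := by
    rw [mul_pow, Real.sq_sqrt hq]
    exact h
  exact lt_of_pow_lt_pow_left₀ 2 hm.le h1

private theorem num_a {A B C : ℝ} (hC : 0 ≤ C) (hCB : C ≤ B) (hBA : B ≤ A) (hA : 0 < A) :
    0 < K * A - Real.goldenRatio * (B - C) ∧
    (K / 5) ^ 2 * ((Real.goldenRatio + 2) * (A ^ 2 + B ^ 2 + C ^ 2) +
        2 * Real.goldenRatio * (A * B + B * C + C * A)) <
      (K * A - Real.goldenRatio * (B - C)) ^ 2 := by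
  have h1 := phi_lo
  have h2 := phi_hi
  have h3 := Real.goldenRatio_sq
  unfold K
  set g := Real.goldenRatio
  have hB : 0 ≤ B := hC.trans hCB
  have hm : 5.236 * A + 1.618 * C ≤ (3 * g + 2) * A - g * (B - C) := by
    have e1 : g * (B - C) ≤ g * (A - C) := mul_le_mul_of_nonneg_left (by linarith) (by linarith)
    have e2 : 1.618 * A ≤ g * A := mul_le_mul_of_nonneg_right h1.le hA.le
    have e3 : 1.618 * C ≤ g * C := mul_le_mul_of_nonneg_right h1.le hC
    nlinarith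
  have hm0 : 0 < 5.236 * A + 1.618 * C := by positivity
  refine ⟨lt_of_lt_of_le hm0 hm, ?_⟩
  have hsq : (5.236 * A + 1.618 * C) ^ 2 ≤ ((3 * g + 2) * A - g * (B - C)) ^ 2 :=
    pow_le_pow_left₀ hm0.le hm 2
  refine lt_of_lt_of_le ?_ hsq
  have hk : ((3 * g + 2) / 5) ^ 2 ≤ 1.8793 := by
    have : ((3 * g + 2) / 5) ^ 2 = (21 * g + 13) / 25 := by
      linear_combination (9 / 25) * h3
    rw [this]
    linarith
  have hW : (g + 2) * (A ^ 2 + B ^ 2 + C ^ 2) + 2 * g * (A * B + B * C + C * A) ≤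
      3.6181 * (A ^ 2 + B ^ 2 + C ^ 2) + 3.2362 * (A * B + B * C + C * A) := by
    have e1 : 0 ≤ A ^ 2 + B ^ 2 + C ^ 2 := by positivity
    have e2 : 0 ≤ A * B + B * C + C * A := by positivity
    have e3 : (g + 2) * (A ^ 2 + B ^ 2 + C ^ 2) ≤ 3.6181 * (A ^ 2 + B ^ 2 + C ^ 2) :=
      mul_le_mul_of_nonneg_right (by linarith) e1
    have e4 : 2 * g * (A * B + B * C + C * A) ≤ 3.2362 * (A * B + B * C + C * A) :=
      mul_le_mul_of_nonneg_right (by linarith) e2
    linarith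
  have hW2 : 3.6181 * (A ^ 2 + B ^ 2 + C ^ 2) + 3.2362 * (A * B + B * C + C * A) ≤
      10.4724 * A ^ 2 + 3.6181 * C ^ 2 + 6.4724 * (A * C) := by
    have e1 : B ^ 2 ≤ A ^ 2 := pow_le_pow_left₀ hB hBA 2
    have e2 : A * B ≤ A ^ 2 := by nlinarith
    have e3 : B * C ≤ A * C := mul_le_mul_of_nonneg_right hBA hC
    nlinarith
  have hW0 : 0 ≤ (g + 2) * (A ^ 2 + B ^ 2 + C ^ 2) + 2 * g * (A * B + B * C + C * A) := by
    have : 0 < g := by linarith
    positivity
  have hAC : C ^ 2 ≤ A ^ 2 := pow_le_pow_left₀ hC (hCB.trans hBA) 2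
  have hA2 : 0 < A ^ 2 := by positivity
  have hAC0 : 0 ≤ A * C := by positivity
  calc ((3 * g + 2) / 5) ^ 2 * ((g + 2) * (A ^ 2 + B ^ 2 + C ^ 2) +
        2 * g * (A * B + B * C + C * A))
      ≤ 1.8793 * ((g + 2) * (A ^ 2 + B ^ 2 + C ^ 2) + 2 * g * (A * B + B * C + C * A)) :=
        mul_le_mul_of_nonneg_right hk hW0
    _ ≤ 1.8793 * (10.4724 * A ^ 2 + 3.6181 * C ^ 2 + 6.4724 * (A * C)) :=
        mul_le_mul_of_nonneg_left (hW.trans hW2) (by norm_num)
    _ < (5.236 * A + 1.618 * C) ^ 2 := by nlinarith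

private theorem num_b {A B C : ℝ} (hC : 0 ≤ C) (hCB : C ≤ B) (hBA : B ≤ A) (hA : 0 < A) :
    0 < (K * A - Real.goldenRatio * (B - C)) + (K * B - Real.goldenRatio * (A - C)) ∧
    (2 * K / 5) ^ 2 * ((Real.goldenRatio + 2) * (A ^ 2 + B ^ 2 + C ^ 2) +
        2 * Real.goldenRatio * (A * B + B * C + C * A)) <
      ((K * A - Real.goldenRatio * (B - C)) + (K * B - Real.goldenRatio * (A - C))) ^ 2 := by
  have h1 := phi_lo
  have h2 := phi_hi
  have h3 := Real.goldenRatio_sq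
  unfold K
  set g := Real.goldenRatio
  have hB : 0 ≤ B := hC.trans hCB
  have hm : 5.236 * (A + B) + 3.236 * C ≤
      ((3 * g + 2) * A - g * (B - C)) + ((3 * g + 2) * B - g * (A - C)) := by
    have e2 : 1.618 * (A + B) ≤ g * (A + B) := mul_le_mul_of_nonneg_right h1.le (by linarith)
    have e3 : 1.618 * C ≤ g * C := mul_le_mul_of_nonneg_right h1.le hC
    nlinarith
  have hm0 : 0 < 5.236 * (A + B) + 3.236 * C := by positivity
  refine ⟨lt_of_lt_of_le hm0 hm, ?_⟩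
  have hsq := pow_le_pow_left₀ hm0.le hm 2
  refine lt_of_lt_of_le ?_ hsq
  have hk : (2 * (3 * g + 2) / 5) ^ 2 ≤ 7.517 := by
    have : (2 * (3 * g + 2) / 5) ^ 2 = 4 * (21 * g + 13) / 25 := by
      linear_combination (36 / 25) * h3
    rw [this]
    linarith
  have hW : (g + 2) * (A ^ 2 + B ^ 2 + C ^ 2) + 2 * g * (A * B + B * C + C * A) ≤
      3.6181 * (A ^ 2 + B ^ 2 + C ^ 2) + 3.2362 * (A * B + B * C + C * A) := by
    have e1 : 0 ≤ A ^ 2 + B ^ 2 + C ^ 2 := by positivity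
    have e2 : 0 ≤ A * B + B * C + C * A := by positivity
    have e3 : (g + 2) * (A ^ 2 + B ^ 2 + C ^ 2) ≤ 3.6181 * (A ^ 2 + B ^ 2 + C ^ 2) :=
      mul_le_mul_of_nonneg_right (by linarith) e1
    have e4 : 2 * g * (A * B + B * C + C * A) ≤ 3.2362 * (A * B + B * C + C * A) :=
      mul_le_mul_of_nonneg_right (by linarith) e2
    linarith
  have hW0 : 0 ≤ (g + 2) * (A ^ 2 + B ^ 2 + C ^ 2) + 2 * g * (A * B + B * C + C * A) := by
    have : 0 < g := by linarith
    positivity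
  have e1 : C ^ 2 ≤ A * C := by nlinarith
  have e2 : C ^ 2 ≤ B * C := by nlinarith
  have e3 : C ^ 2 ≤ A * B := by nlinarith
  have hA2 : 0 < A ^ 2 := by positivity
  have hB2 : 0 ≤ B ^ 2 := by positivity
  have hAB : 0 ≤ A * B := by positivity
  have hAC : 0 ≤ A * C := by positivity
  have hBC : 0 ≤ B * C := by positivity
  calc (2 * (3 * g + 2) / 5) ^ 2 * ((g + 2) * (A ^ 2 + B ^ 2 + C ^ 2) +
        2 * g * (A * B + B * C + C * A))
      ≤ 7.517 * ((g + 2) * (A ^ 2 + B ^ 2 + C ^ 2) + 2 * g * (A * B + B * C + C * A)) :=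
        mul_le_mul_of_nonneg_right hk hW0
    _ ≤ 7.517 * (3.6181 * (A ^ 2 + B ^ 2 + C ^ 2) + 3.2362 * (A * B + B * C + C * A)) :=
        mul_le_mul_of_nonneg_left hW (by norm_num)
    _ < (5.236 * (A + B) + 3.236 * C) ^ 2 := by nlinarith

private theorem margin0 (w : Fin 3 → ℝ) (s : ℝ) (hs : 0 ≤ s) (h : ¬ (w = 0 ∧ s = 0)) :
    ∃ i j : Fin 12, i ≠ j ∧ ∃ σ τ : ℝ, (σ = 1 ∨ σ = -1) ∧ (τ = 1 ∨ τ = -1) ∧
      (∀ b c, tri i b c →
        K / 5 * Real.sqrt (w ⬝ᵥ w) < σ * (K * s - (pt i + pt b + pt c) ⬝ᵥ w)) ∧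
      (∀ b c, tri j b c →
        K / 5 * Real.sqrt (w ⬝ᵥ w) < τ * (K * s - (pt j + pt b + pt c) ⬝ᵥ w)) := by
  have hK : 0 < K := by
    have := phi_lo
    unfold K
    linarith
  obtain ⟨a, b, c, ht, A, B, C, hC, hCB, hBA, hw⟩ := cover w
  set ma : ℝ := K * A - Real.goldenRatio * (B - C) with hma
  set mb : ℝ := K * B - Real.goldenRatio * (A - C) with hmb
  have Fa : ∀ x y, tri a x y → ma ≤ (pt a + pt x + pt y) ⬝ᵥ w := by
    intro x y hxy
    rw [hw]
    exact ineqL a b c x y ht hxy A B C hC hCB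
  have Fb : ∀ x y, tri b x y → mb ≤ (pt b + pt x + pt y) ⬝ᵥ w := by
    intro x y hxy
    have h1 := ineqL b a c x y (tri_swap ht) hxy B A C hC (hCB.trans hBA)
    rw [hw]
    rwa [add_comm (A • pt a) (B • pt b)]
  have Ga : ∀ x y, tri (ant a) x y → (pt (ant a) + pt x + pt y) ⬝ᵥ w ≤ -ma := by
    intro x y hxy
    have h1 := Fa _ _ (tri_ant a x y hxy)
    rw [pt_ant, pt_ant] at h1
    have h2 : pt (ant a) + pt x + pt y = -(pt a + -pt x + -pt y) := by
      rw [pt_ant]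
      abel
    rw [h2, neg_dotProduct]
    linarith
  have Gb : ∀ x y, tri (ant b) x y → (pt (ant b) + pt x + pt y) ⬝ᵥ w ≤ -mb := by
    intro x y hxy
    have h1 := Fb _ _ (tri_ant b x y hxy)
    rw [pt_ant, pt_ant] at h1
    have h2 : pt (ant b) + pt x + pt y = -(pt b + -pt x + -pt y) := by
      rw [pt_ant]
      abel
    rw [h2, neg_dotProduct]
    linarith
  have hA0 : 0 ≤ A := hC.trans (hCB.trans hBA)
  have hww : w ⬝ᵥ w = (Real.goldenRatio + 2) * (A ^ 2 + B ^ 2 + C ^ 2) +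
        2 * Real.goldenRatio * (A * B + B * C + C * A) := by
    rw [hw]
    exact norm_eq a b c ht A B C
  have hw0 : 0 ≤ w ⬝ᵥ w := by
    rw [hww]
    have := phi_lo
    have h1 : 0 ≤ B := hC.trans hCB
    positivity
  rcases hA0.lt_or_eq with hA | hA
  · obtain ⟨hp1, hn1⟩ := num_a hC hCB hBA hA
    obtain ⟨hp2, hn2⟩ := num_b hC hCB hBA hA
    rw [← hww] at hn1 hn2
    have q1 : K / 5 * Real.sqrt (w ⬝ᵥ w) < ma := lt_of_sq hp1 hn1 hw0
    have q2 : 2 * K / 5 * Real.sqrt (w ⬝ᵥ w) < ma + mb := lt_of_sq hp2 hn2 hw0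
    have hKs : 0 ≤ K * s := mul_nonneg hK.le hs
    by_cases hcase : K * s ≤ (ma - mb) / 2
    · refine ⟨ant a, a, ant_ne a, 1, -1, Or.inl rfl, Or.inr rfl, fun x y hxy => ?_, fun x y hxy => ?_⟩
      · have := Ga x y hxy
        linarith
      · have := Fa x y hxy
        linarith
    · refine ⟨ant a, ant b, fun hab => tri_ne ht ?_, 1, 1, Or.inl rfl, Or.inl rfl, fun x y hxy => ?_,
        fun x y hxy => ?_⟩
      · rw [← ant_ant a, hab, ant_ant]
      · have := Ga x y hxy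
        linarith
      · have := Gb x y hxy
        linarith
  · have hB : B = 0 := le_antisymm (hBA.trans hA.ge) (hC.trans hCB)
    have hC0 : C = 0 := le_antisymm (hCB.trans hB.le) hC
    have hw1 : w = 0 := by
      rw [hw, ← hA, hB, hC0]
      simp
    have hs' : 0 < s := lt_of_le_of_ne hs (fun hh => h ⟨hw1, hh.symm⟩)
    have hKs : 0 < K * s := mul_pos hK hs'
    refine ⟨0, 1, by decide, 1, 1, Or.inl rfl, Or.inl rfl, fun x y hxy => ?_, fun x y hxy => ?_⟩
    · rw [hw1]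
      simpa using hKs
    · rw [hw1]
      simpa using hKs

theorem margin (w : Fin 3 → ℝ) (s : ℝ) (h : ¬ (w = 0 ∧ s = 0)) :
    ∃ i j : Fin 12, i ≠ j ∧ ∃ σ τ : ℝ, (σ = 1 ∨ σ = -1) ∧ (τ = 1 ∨ τ = -1) ∧
      (∀ b c, tri i b c →
        K / 5 * Real.sqrt (w ⬝ᵥ w) < σ * (K * s - (pt i + pt b + pt c) ⬝ᵥ w)) ∧
      (∀ b c, tri j b c →
        K / 5 * Real.sqrt (w ⬝ᵥ w) < τ * (K * s - (pt j + pt b + pt c) ⬝ᵥ w)) := by
  rcases le_or_gt 0 s with hs | hs
  · exact margin0 w s hs h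
  · obtain ⟨i, j, hij, σ, τ, hσ, hτ, h1, h2⟩ := margin0 (-w) (-s) (by linarith) (by
      rintro ⟨_, h3⟩
      linarith)
    have hneg : (-w) ⬝ᵥ (-w) = w ⬝ᵥ w := by
      rw [neg_dotProduct, dotProduct_neg, neg_neg]
    refine ⟨i, j, hij, -σ, -τ, ?_, ?_, fun x y hxy => ?_, fun x y hxy => ?_⟩
    · rcases hσ with h | h <;> rw [h]
      · exact Or.inr rfl
      · exact Or.inl (by norm_num)
    · rcases hτ with h | h <;> rw [h]
      · exact Or.inr rfl
      · exact Or.inl (by norm_num)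
    · have := h1 x y hxy
      rw [hneg, dotProduct_neg] at this
      linarith
    · have := h2 x y hxy
      rw [hneg, dotProduct_neg] at this
      linarith

end Pool.Agent.H2.IR
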