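import Mathlib
import Pool.Agent.H2.IR.Defs
import Pool.Agent.H2.IR.Vert

/-!
# The face planes of a perturbed icosahedron (module Normal, about 200 lines)

`q i` is at distance at most `r = 3/16` from `pt i`; `a, b, c` a face. There is a normal `n` with
`n ⬝ q a = n ⬝ q b = n ⬝ q c = 1`, `n ⬝ q k < 1` for the other `k`, and `n` differs from
`ν = (pt a + pt b + pt c)/K` by at most `1/5` in norm: `|K (n ⬝ w) - (pt a+pt b+pt c) ⬝ w| ≤ (K/5) |w|`.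

PROOF. (1) `tri_quad`: `2 (x ⬝ x) ≤ (p_a ⬝ x)^2 + (p_b ⬝ x)^2 + (p_c ⬝ x)^2`: indeed
`K sum_i (p_i ⬝ x)^2 = 2 K (x ⬝ x) + φ ((p_a+p_b+p_c) ⬝ x)^2`, coefficient by coefficient
`K sum_i p_i[k] p_i[l] = 2 K δ_kl + φ m[k] m[l]`, `m = p_a+p_b+p_c`; in `ℤ × ℤ` with `zm` by
`decide +kernel` over `a, b, c, k, l` with hypothesis `tri a b c` (or only
for `a, cyc a j, cyc a (j+1)`, see `tri_cyc`).
(2) The map `x ↦ (q_a ⬝ x, q_b ⬝ x, q_c ⬝ x)` from 3-space to 3-space is injective: if all vanish,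
`(p_i ⬝ x)^2 = ((q_i - p_i) ⬝ x)^2 ≤ r^2 (x ⬝ x)`, so `2 (x⬝x) ≤ 3 r^2 (x⬝x)`, `x = 0`. So it is
surjective (`LinearMap.injective_iff_surjective`), which gives `n`.
(3) `η = n - ν`, `ν = K⁻¹ • m`, `p_i ⬝ ν = 1` for `i = a, b, c` (inner products: `(φ+2) + 2φ = K`), so
`p_i ⬝ η = -(q_i - p_i) ⬝ n` and `(p_i ⬝ η)^2 ≤ r^2 (n ⬝ n)`, so `2 |η|^2 ≤ 3 r^2 |n|^2`,
`|n| ≤ |ν| + |η|`, `|ν|^2 = m⬝m/K^2 = 3/K ≤ 0.4378`. If `|η| > 1/5` then
`√2 |η| ≤ 0.3248 (0.6617 + |η|)`, contradiction; work with `Real.sqrt` of `η⬝η` etc. or with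
squares. So `η⬝η ≤ 1/25`. Last claim of the theorem by Cauchy-Schwarz (`(η⬝w)^2 ≤ (η⬝η)(w⬝w)`).
(4) `k ≠ a, b, c`: `m ⬝ p_k ≤ φ` (`decide`), `φ/K < 0.2361`; `n ⬝ q_k = ν⬝p_k + η⬝p_k + n⬝(q_k-p_k)
≤ 0.2361 + (1/5) 1.9022 + (0.6617 + 1/5)(3/16) < 1` (`|p_k|^2 = φ + 2`).
-/

set_option autoImplicit false

open Module

namespace Pool.Agent.H2.IR

open Pool.Agent.H77.IC

private lemma Normal_id : ∀ a b c : Fin 12, tri a b c → ∀ k l : Fin 3,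
    zm (2, 3) (zm (zt a k) (zt a l) + zm (zt b k) (zt b l) + zm (zt c k) (zt c l)) =
      (if k = l then (4, 6) else (0, 0)) +
        zm (0, 1) (zm (zt a k + zt b k + zt c k) (zt a l + zt b l + zt c l)) := by
  decide +kernel

private lemma Normal_K : ev (2, 3) = K := by
  unfold ev K
  push_cast
  ring

private lemma Normal_idR {a b c : Fin 12} (h : tri a b c) (k l : Fin 3) :
    K * (pt a k * pt a l + pt b k * pt b l + pt c k * pt c l) =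
      (if k = l then 2 * K else 0) +
        Real.goldenRatio * ((pt a k + pt b k + pt c k) * (pt a l + pt b l + pt c l)) := by
  have h1 := congrArg ev (Normal_id a b c h k l)
  rw [ev_zm, ev_add, ev_add, ev_add, ev_zm, ev_zm, ev_zm, ev_zm, ev_zm, ev_add, ev_add, ev_add,
    ev_add, Normal_K] at h1
  have h2 : ev (0, 1) = Real.goldenRatio := by simp [ev]
  have h3 : ev (if k = l then ((4, 6) : ℤ × ℤ) else (0, 0)) = if k = l then 2 * K else 0 := by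
    by_cases hkl : k = l
    · rw [if_pos hkl, if_pos hkl]
      unfold ev K
      push_cast
      ring
    · rw [if_neg hkl, if_neg hkl]
      simp [ev]
  rw [h2, h3] at h1
  exact h1

private lemma Normal_Kpos : (6.854 : ℝ) < K := by
  have := phi_lo
  unfold K
  linarith

theorem tri_quad {a b c : Fin 12} (h : tri a b c) (x : Fin 3 → ℝ) :
    2 * (x ⬝ᵥ x) ≤ (pt a ⬝ᵥ x) ^ 2 + (pt b ⬝ᵥ x) ^ 2 + (pt c ⬝ᵥ x) ^ 2 := by
  have h00 := Normal_idR h 0 0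
  have h01 := Normal_idR h 0 1
  have h02 := Normal_idR h 0 2
  have h11 := Normal_idR h 1 1
  have h12 := Normal_idR h 1 2
  have h22 := Normal_idR h 2 2
  rw [if_pos rfl] at h00 h11 h22
  rw [if_neg (by decide)] at h01 h02 h12
  have hK := Normal_Kpos
  have hφ := Real.goldenRatio_pos
  have key : K * ((pt a ⬝ᵥ x) ^ 2 + (pt b ⬝ᵥ x) ^ 2 + (pt c ⬝ᵥ x) ^ 2) =
      K * (2 * (x ⬝ᵥ x)) + Real.goldenRatio * ((pt a + pt b + pt c) ⬝ᵥ x) ^ 2 := by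
    simp only [dotProduct, Fin.sum_univ_three, Pi.add_apply]
    linear_combination (x 0 ^ 2) * h00 + (2 * x 0 * x 1) * h01 + (2 * x 0 * x 2) * h02 +
      (x 1 ^ 2) * h11 + (2 * x 1 * x 2) * h12 + (x 2 ^ 2) * h22
  have h1 : 0 ≤ Real.goldenRatio * ((pt a + pt b + pt c) ⬝ᵥ x) ^ 2 :=
    mul_nonneg hφ.le (sq_nonneg _)
  have h2 : K * (2 * (x ⬝ᵥ x)) ≤ K * ((pt a ⬝ᵥ x) ^ 2 + (pt b ⬝ᵥ x) ^ 2 + (pt c ⬝ᵥ x) ^ 2) := by
    rw [key]
    linarith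
  exact le_of_mul_le_mul_left h2 (by linarith)

private lemma Normal_cs (u v : Fin 3 → ℝ) : (u ⬝ᵥ v) ^ 2 ≤ (u ⬝ᵥ u) * (v ⬝ᵥ v) := by
  have h := Finset.sum_mul_sq_le_sq_mul_sq Finset.univ u v
  simp only [dotProduct]
  simpa [sq] using h

private lemma Normal_nonneg (u : Fin 3 → ℝ) : 0 ≤ u ⬝ᵥ u :=
  Finset.sum_nonneg fun i _ => mul_self_nonneg (u i)

private lemma Normal_cs' (u v : Fin 3 → ℝ) :
    |u ⬝ᵥ v| ≤ Real.sqrt (u ⬝ᵥ u) * Real.sqrt (v ⬝ᵥ v) := by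
  rw [← Real.sqrt_mul (Normal_nonneg u)]
  exact Real.abs_le_sqrt (Normal_cs u v)

private lemma Normal_dev {q : Fin 12 → (Fin 3 → ℝ)}
    (hq : ∀ i, ∑ k, (q i k - pt i k) ^ 2 ≤ (3 / 16) ^ 2) (i : Fin 12) :
    (q i - pt i) ⬝ᵥ (q i - pt i) ≤ 9 / 256 := by
  have h := hq i
  have h2 : (q i - pt i) ⬝ᵥ (q i - pt i) = ∑ k, (q i k - pt i k) ^ 2 := by
    simp only [dotProduct, Pi.sub_apply]
    exact Finset.sum_congr rfl fun k _ => by ring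
  rw [h2]
  linarith

private lemma Normal_devx {q : Fin 12 → (Fin 3 → ℝ)}
    (hq : ∀ i, ∑ k, (q i k - pt i k) ^ 2 ≤ (3 / 16) ^ 2) (i : Fin 12) (x : Fin 3 → ℝ) :
    ((q i - pt i) ⬝ᵥ x) ^ 2 ≤ 9 / 256 * (x ⬝ᵥ x) :=
  (Normal_cs _ x).trans (mul_le_mul_of_nonneg_right (Normal_dev hq i) (Normal_nonneg x))

private lemma Normal_exists {q : Fin 12 → (Fin 3 → ℝ)}
    (hq : ∀ i, ∑ k, (q i k - pt i k) ^ 2 ≤ (3 / 16) ^ 2) {a b c : Fin 12} (h : tri a b c) :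
    ∃ n : Fin 3 → ℝ, n ⬝ᵥ q a = 1 ∧ n ⬝ᵥ q b = 1 ∧ n ⬝ᵥ q c = 1 := by
  let A : Matrix (Fin 3) (Fin 3) ℝ := Matrix.of ![q a, q b, q c]
  have hinj : Function.Injective A.mulVecLin := by
    rw [← LinearMap.ker_eq_bot, LinearMap.ker_eq_bot']
    intro x hx
    have h0 : q a ⬝ᵥ x = 0 := congrFun hx 0
    have h1 : q b ⬝ᵥ x = 0 := congrFun hx 1
    have h2 : q c ⬝ᵥ x = 0 := congrFun hx 2
    have hp : ∀ i, q i ⬝ᵥ x = 0 → (pt i ⬝ᵥ x) ^ 2 ≤ 9 / 256 * (x ⬝ᵥ x) := by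
      intro i hi
      have h3 := Normal_devx hq i x
      rw [sub_dotProduct, hi, zero_sub, neg_sq] at h3
      exact h3
    have h3 := tri_quad h x
    have h4 := hp a h0
    have h5 := hp b h1
    have h6 := hp c h2
    have h7 := Normal_nonneg x
    have h8 : x ⬝ᵥ x = 0 := by linarith
    exact dotProduct_self_eq_zero.1 h8
  have hsurj := LinearMap.injective_iff_surjective.1 hinj
  obtain ⟨n, hn⟩ := hsurj fun _ => 1
  have h0 : q a ⬝ᵥ n = 1 := congrFun hn 0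
  have h1 : q b ⬝ᵥ n = 1 := congrFun hn 1
  have h2 : q c ⬝ᵥ n = 1 := congrFun hn 2
  exact ⟨n, by rw [dotProduct_comm, h0], by rw [dotProduct_comm, h1], by rw [dotProduct_comm, h2]⟩

private lemma Normal_far : ∀ a b c k : Fin 12, tri a b c → k ≠ a → k ≠ b → k ≠ c →
    (dp a k + dp b k + dp c k).1 ≤ 0 ∧ (dp a k + dp b k + dp c k).2 ≤ 1 := by
  decide +kernel

private lemma Normal_row : ∀ a b c : Fin 12, tri a b c →
    dp a a + dp b a + dp c a = (2, 3) ∧ dp a b + dp b b + dp c b = (2, 3) ∧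
      dp a c + dp b c + dp c c = (2, 3) := by
  decide +kernel

theorem normal {q : Fin 12 → (Fin 3 → ℝ)} (hq : ∀ i, ∑ k, (q i k - pt i k) ^ 2 ≤ (3 / 16) ^ 2)
    {a b c : Fin 12} (h : tri a b c) :
    ∃ n : Fin 3 → ℝ, n ⬝ᵥ q a = 1 ∧ n ⬝ᵥ q b = 1 ∧ n ⬝ᵥ q c = 1 ∧
      (∀ k, k ≠ a → k ≠ b → k ≠ c → n ⬝ᵥ q k < 1) ∧
      ∀ w : Fin 3 → ℝ, |K * (n ⬝ᵥ w) - (pt a + pt b + pt c) ⬝ᵥ w| ≤
        K / 5 * Real.sqrt (w ⬝ᵥ w) := by
  obtain ⟨n, hna, hnb, hnc⟩ := Normal_exists hq h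
  refine ⟨n, hna, hnb, hnc, ?_⟩
  have hK := Normal_Kpos
  have hK0 : (0 : ℝ) < K := by linarith
  have hφ1 := phi_lo
  have hφ2 := phi_hi
  have hKφ : K = 3 * Real.goldenRatio + 2 := rfl
  set m : Fin 3 → ℝ := pt a + pt b + pt c with hm
  set ν : Fin 3 → ℝ := K⁻¹ • m with hν
  set η : Fin 3 → ℝ := n - ν with hη
  have hdot : ∀ i, m ⬝ᵥ pt i = ev (dp a i + dp b i + dp c i) := by
    intro i
    rw [hm, add_dotProduct, add_dotProduct, pt_dot, pt_dot, pt_dot, ev_add, ev_add]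
  obtain ⟨r1, r2, r3⟩ := Normal_row a b c h
  have ma : m ⬝ᵥ pt a = K := by rw [hdot, r1, Normal_K]
  have mb : m ⬝ᵥ pt b = K := by rw [hdot, r2, Normal_K]
  have mc : m ⬝ᵥ pt c = K := by rw [hdot, r3, Normal_K]
  have hmm : m ⬝ᵥ m = 3 * K := by
    have : m ⬝ᵥ m = m ⬝ᵥ pt a + m ⬝ᵥ pt b + m ⬝ᵥ pt c := by
      rw [← dotProduct_add, ← dotProduct_add]
    rw [this, ma, mb, mc]
    ring
  have hνν : ν ⬝ᵥ ν = 3 / K := by
    rw [hν, smul_dotProduct, dotProduct_smul, hmm, smul_eq_mul, smul_eq_mul]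
    field_simp
  have hνp : ∀ i, m ⬝ᵥ pt i = K → pt i ⬝ᵥ ν = 1 := by
    intro i hi
    rw [hν, dotProduct_smul, dotProduct_comm, hi, smul_eq_mul, inv_mul_cancel₀ hK0.ne']
  -- the three inner products
  have hpη : ∀ i, m ⬝ᵥ pt i = K → n ⬝ᵥ q i = 1 → (pt i ⬝ᵥ η) ^ 2 ≤ 9 / 256 * (n ⬝ᵥ n) := by
    intro i hi hni
    have h1 := Normal_devx hq i n
    have h2 : pt i ⬝ᵥ η = -((q i - pt i) ⬝ᵥ n) := by
      rw [hη, dotProduct_sub, hνp i hi, sub_dotProduct, dotProduct_comm (q i) n, hni]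
      ring
    rw [h2, neg_sq]
    exact h1
  have hE : 2 * (η ⬝ᵥ η) ≤ 27 / 256 * (n ⬝ᵥ n) := by
    have h1 := tri_quad h η
    have h2 := hpη a ma hna
    have h3 := hpη b mb hnb
    have h4 := hpη c mc hnc
    linarith
  set s := Real.sqrt (η ⬝ᵥ η) with hs
  set v := Real.sqrt (ν ⬝ᵥ ν) with hv
  have hs0 : 0 ≤ s := Real.sqrt_nonneg _
  have hv0 : 0 ≤ v := Real.sqrt_nonneg _
  have hs2 : s ^ 2 = η ⬝ᵥ η := Real.sq_sqrt (Normal_nonneg η)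
  have hv2 : v ^ 2 = ν ⬝ᵥ ν := Real.sq_sqrt (Normal_nonneg ν)
  have hV : v ^ 2 < 0.4378 := by
    rw [hv2, hνν, div_lt_iff₀ hK0]
    linarith
  have hvle : v < 0.6617 := by
    nlinarith
  have hnn : n ⬝ᵥ n ≤ (v + s) ^ 2 := by
    have h1 : n = ν + η := by rw [hη]; abel
    have h2 : n ⬝ᵥ n = ν ⬝ᵥ ν + 2 * (ν ⬝ᵥ η) + η ⬝ᵥ η := by
      conv_lhs => rw [h1]
      rw [add_dotProduct, dotProduct_add, dotProduct_add, dotProduct_comm η ν]
      ring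
    have h3 := (le_abs_self _).trans (Normal_cs' ν η)
    rw [← hs, ← hv] at h3
    rw [h2, ← hs2, ← hv2]
    nlinarith
  have hsle : s ≤ 1 / 5 := by
    by_contra hc
    rw [not_le] at hc
    have h1 : v + s < 4.3085 * s := by linarith
    have h2 : (v + s) ^ 2 < (4.3085 * s) ^ 2 := by
      apply pow_lt_pow_left₀ h1 (by linarith) (by norm_num)
    have h3 : 0 < s ^ 2 := by positivity
    rw [← hs2] at hE
    nlinarith
  have hns : Real.sqrt (n ⬝ᵥ n) ≤ 0.8617 := by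
    refine (Real.sqrt_le_sqrt hnn).trans ?_
    rw [Real.sqrt_sq (by linarith)]
    linarith
  refine ⟨fun k hka hkb hkc => ?_, fun w => ?_⟩
  · obtain ⟨f1, f2⟩ := Normal_far a b c k h hka hkb hkc
    have g1 : m ⬝ᵥ pt k ≤ Real.goldenRatio := by
      rw [hdot]
      unfold ev
      have f1' : (((dp a k + dp b k + dp c k).1 : ℤ) : ℝ) ≤ 0 := by exact_mod_cast f1
      have f2' : (((dp a k + dp b k + dp c k).2 : ℤ) : ℝ) ≤ 1 := by exact_mod_cast f2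
      nlinarith
    have g2 : ν ⬝ᵥ pt k ≤ 0.2361 := by
      rw [hν, smul_dotProduct, smul_eq_mul, inv_mul_le_iff₀ hK0]
      refine g1.trans ?_
      rw [hKφ]
      linarith
    have g3 : η ⬝ᵥ pt k ≤ 1 / 5 * 1.91 := by
      refine ((le_abs_self _).trans (Normal_cs' η (pt k))).trans ?_
      rw [← hs]
      have g4 : Real.sqrt (pt k ⬝ᵥ pt k) ≤ 1.91 := by
        rw [pt_dot, dp_self]
        refine Real.sqrt_le_iff.2 ⟨by norm_num, ?_⟩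
        unfold ev
        push_cast
        norm_num
        linarith
      exact mul_le_mul hsle g4 (Real.sqrt_nonneg _) (by norm_num)
    have g5 : n ⬝ᵥ (q k - pt k) ≤ 0.8617 * (3 / 16) := by
      refine ((le_abs_self _).trans (Normal_cs' n (q k - pt k))).trans ?_
      have g6 : Real.sqrt ((q k - pt k) ⬝ᵥ (q k - pt k)) ≤ 3 / 16 := by
        refine Real.sqrt_le_iff.2 ⟨by norm_num, ?_⟩
        have := Normal_dev hq k
        linarith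
      exact mul_le_mul hns g6 (Real.sqrt_nonneg _) (by norm_num)
    have g7 : n ⬝ᵥ q k = ν ⬝ᵥ pt k + η ⬝ᵥ pt k + n ⬝ᵥ (q k - pt k) := by
      rw [hη, sub_dotProduct, dotProduct_sub]
      ring
    rw [g7]
    linarith
  · have g1 : K * (n ⬝ᵥ w) - m ⬝ᵥ w = K * (η ⬝ᵥ w) := by
      rw [hη, sub_dotProduct, hν, smul_dotProduct, smul_eq_mul, mul_sub, ← mul_assoc,
        mul_inv_cancel₀ hK0.ne', one_mul]
    rw [g1, abs_mul, abs_of_pos hK0, div_eq_mul_inv, mul_assoc]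
    refine mul_le_mul_of_nonneg_left ?_ hK0.le
    refine (Normal_cs' η w).trans ?_
    rw [← hs]
    refine mul_le_mul_of_nonneg_right ?_ (Real.sqrt_nonneg _)
    linarith

end Pool.Agent.H2.IR
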