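import Mathlib
import Pool.Agent.H2.IR.Defs
import Pool.Agent.H2.IR.Vert
import Pool.Agent.H2.IR.Margin
import Pool.Agent.H2.IR.Normal
import Pool.Agent.H2.IR.Cone5

/-!
# Interior directions at the vertices of a perturbed icosahedron (module Near, about 170 lines)

`D = convexHull ℝ (Set.range q)`; `Inn D z` (see `Defs`): `z` is an algebraically interior point.

* `inn_of_cone` : `D` convex, `p ∈ D`, `p + w j ∈ D` for the five vectors of `cone5`, and
  `n j ⬝ d < 0` for all `j`. Then `Inn D (p + ε d)` for some `ε > 0`. PROOF. (1) For every `d'` with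
  all `n j ⬝ d' < 0` there is `ε' > 0` with `p + ε' d' ∈ D`: `d' = ∑ c j w j` (`cone5`), take
  `ε' = 1/(1 + ∑ c j)`; `p + ε' d'` is a convex combination of `p` and the `p + w j`. (2) So
  `p + 2 ε d ∈ D` for some `ε > 0`; put `z = p + ε d ∈ D` (convex). Given `e`: for small `τ > 0`
  `d' = d + τ e` satisfies the inequalities (finitely many strict ones), so `p + ε' (d + τ e) ∈ D`
  for some `ε' > 0`. For `μ ∈ (0, 1)` the point `(1-μ)(p + 2 ε d) + μ (p + ε' (d + τ e))` is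
  `p + ((1-μ) 2 ε + μ ε') d + μ ε' τ e`; with `μ = 1/2` the coefficient of `d` is
  `g = ε + ε'/2 > ε`; scaling towards `p` by `θ = ε/g ≤ 1` gives
  `p + ε d + θ (ε' τ/2) e ∈ D`, so `δ = θ ε' τ/2`.
* `near_inner`: `margin` gives `i, j, σ, τ`. For the vertex `i`: for `k : Fin 5` let `n k` be the
  normal of the face `i, cyc i k, cyc i (k+1)` (`normal`, `cyc_tri`; `choose`),
  `w' k = q (cyc i k) - q i`. `n k ⬝ w' k = 0`, `n k ⬝ w' (k+1) = 0`, `n k ⬝ w' l < 0` for the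
  others (`cyc_ne`, `cyc_inj`). With `d0 = w - s q_i`: `n k ⬝ d0 = n k ⬝ w - s`, and
  `σ (K s - K (n k ⬝ w)) > 0` by `margin` and the last item of `normal`, so
  `n k ⬝ (σ d0) < 0` for all `k`. `inn_of_cone` gives `Inn D (q i + (ε σ) d0)`. The same for `j`.
* `near_ext`: `q i` is an extreme point of `D`: the functional `p_i ⬝ x` is greater at `q i` than at
  all other `q k` (`p_i ⬝ q_i ≥ 3.618 - (3/16) 1.9022 > 3.26`, `p_i ⬝ q_k ≤ 1.6181 + 0.357 < 1.98`,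
  by `dp_vals` and Cauchy-Schwarz), so `q i` is the only point of `D` where it is maximal
  (`D` is the hull of `q i` and the others; e.g. write a point of `D` as
  `∑ c k • q k`, `convexHull_range_eq_exists_affineCombination` or `mem_convexHull'`-type lemmas, or
  use that the extreme points of the exposed face are in `range q`:
  `IsExposed.isExtreme`, `extremePoints_convexHull_subset`, Krein-Milman).
* `near_inj`: from the same inequality.
-/

set_option autoImplicit false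

open Module

namespace Pool.Agent.H2.IR

open Pool.Agent.H77.IC

private theorem reach {D : Set (Fin 3 → ℝ)} (hD : Convex ℝ D) {p : Fin 3 → ℝ} (hp : p ∈ D)
    (w n : Fin 5 → (Fin 3 → ℝ)) (hw : ∀ j, p + w j ∈ D) (h0 : ∀ j, n j ⬝ᵥ w j = 0)
    (h1 : ∀ j, n j ⬝ᵥ w (j + 1) = 0) (h2 : ∀ j k, k ≠ j → k ≠ j + 1 → n j ⬝ᵥ w k < 0)
    {d : Fin 3 → ℝ} (hd : ∀ j, n j ⬝ᵥ d < 0) : ∃ ε : ℝ, 0 < ε ∧ p + ε • d ∈ D := by
  obtain ⟨c, hc, hdc⟩ := cone5 w n h0 h1 h2 hd
  have hs : 0 ≤ ∑ j, c j := Finset.sum_nonneg fun j _ => hc j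
  have hs1 : 0 < 1 + ∑ j, c j := by linarith
  set ε : ℝ := (1 + ∑ j, c j)⁻¹ with hε
  have hε0 : 0 < ε := inv_pos.2 hs1
  have hε1 : ε + ε * ∑ j, c j = 1 := by
    rw [hε]
    field_simp
  refine ⟨ε, hε0, ?_⟩
  have hmem := hD.sum_mem (t := Finset.univ) (w := fun o : Option (Fin 5) => o.elim ε fun j => ε * c j)
    (z := fun o : Option (Fin 5) => o.elim p fun j => p + w j) ?_ ?_ ?_
  · have heq : ∑ o : Option (Fin 5), (o.elim ε fun j => ε * c j) • (o.elim p fun j => p + w j) =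
        p + ε • d := by
      rw [Fintype.sum_option]
      simp only [Option.elim]
      have h3 : ∑ j, (ε * c j) • (p + w j) = (ε * ∑ j, c j) • p + ε • d := by
        simp only [smul_add, Finset.sum_add_distrib]
        rw [← Finset.sum_smul, ← Finset.mul_sum, hdc, Finset.smul_sum]
        simp only [smul_smul]
      rw [h3, ← add_assoc, ← add_smul, hε1, one_smul]
    rw [← heq]
    exact hmem
  · rintro (_ | j) _
    · exact hε0.le
    · exact mul_nonneg hε0.le (hc j)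
  · rw [Fintype.sum_option]
    simp only [Option.elim]
    rw [← Finset.mul_sum, hε1]
  · rintro (_ | j) _
    · exact hp
    · exact hw j

theorem inn_of_cone {D : Set (Fin 3 → ℝ)} (hD : Convex ℝ D) {p : Fin 3 → ℝ} (hp : p ∈ D)
    (w n : Fin 5 → (Fin 3 → ℝ)) (hw : ∀ j, p + w j ∈ D) (h0 : ∀ j, n j ⬝ᵥ w j = 0)
    (h1 : ∀ j, n j ⬝ᵥ w (j + 1) = 0) (h2 : ∀ j k, k ≠ j → k ≠ j + 1 → n j ⬝ᵥ w k < 0)
    {d : Fin 3 → ℝ} (hd : ∀ j, n j ⬝ᵥ d < 0) : ∃ ε : ℝ, 0 < ε ∧ Inn D (p + ε • d) := by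
  obtain ⟨ε0, hε0, hm0⟩ := reach hD hp w n hw h0 h1 h2 hd
  refine ⟨ε0 / 2, by positivity, ?_, ?_⟩
  · have h3 := hD hp hm0 (a := 1 / 2) (b := 1 / 2) (by norm_num) (by norm_num) (by norm_num)
    have h4 : (1 / 2 : ℝ) • p + (1 / 2 : ℝ) • (p + ε0 • d) = p + (ε0 / 2) • d := by
      module
    rwa [h4] at h3
  · intro e
    have hev : ∀ᶠ τ in nhdsWithin (0 : ℝ) (Set.Ioi 0), ∀ j, n j ⬝ᵥ (d + τ • e) < 0 := by
      refine Filter.Eventually.filter_mono nhdsWithin_le_nhds ?_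
      rw [Filter.eventually_all]
      intro j
      have hc : Continuous fun τ : ℝ => n j ⬝ᵥ d + τ * (n j ⬝ᵥ e) := by fun_prop
      have ht := hc.tendsto 0
      have h5 : n j ⬝ᵥ d + 0 * (n j ⬝ᵥ e) < 0 := by
        rw [zero_mul, add_zero]
        exact hd j
      filter_upwards [ht.eventually (gt_mem_nhds h5)] with τ hτ
      rw [dotProduct_add, dotProduct_smul, smul_eq_mul]
      exact hτ
    obtain ⟨τ, hτ, hτ0⟩ := (hev.and self_mem_nhdsWithin).exists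
    have hτ0 : 0 < τ := hτ0
    obtain ⟨ε1, hε1, hm1⟩ := reach hD hp w n hw h0 h1 h2 hτ
    have hmid := hD hm0 hm1 (a := 1 / 2) (b := 1 / 2) (by norm_num) (by norm_num) (by norm_num)
    set g : ℝ := ε0 / 2 + ε1 / 2 with hg
    have hg0 : 0 < g := by positivity
    have hθ : 0 ≤ 1 - (ε0 / 2) / g := by
      rw [sub_nonneg, div_le_one hg0, hg]
      linarith
    have hfin := hD hp hmid (a := 1 - (ε0 / 2) / g) (b := (ε0 / 2) / g) hθ (by positivity) (by ring)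
    refine ⟨(ε0 / 2) / g * (ε1 * τ / 2), by positivity, ?_⟩
    have h6 : (1 - (ε0 / 2) / g) • p + ((ε0 / 2) / g) •
        ((1 / 2 : ℝ) • (p + ε0 • d) + (1 / 2 : ℝ) • (p + ε1 • (d + τ • e))) =
        p + (ε0 / 2) • d + ((ε0 / 2) / g * (ε1 * τ / 2)) • e := by
      have h7 : (ε0 / 2) / g * g = ε0 / 2 := div_mul_cancel₀ _ hg0.ne'
      have h8 : (1 - (ε0 / 2) / g) • p + ((ε0 / 2) / g) •
        ((1 / 2 : ℝ) • (p + ε0 • d) + (1 / 2 : ℝ) • (p + ε1 • (d + τ • e))) =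
          p + ((ε0 / 2) / g * (ε0 / 2 + ε1 / 2)) • d + ((ε0 / 2) / g * (ε1 * τ / 2)) • e := by
        module
      rw [h8, ← hg, h7]
    rw [← h6]
    exact hfin

private theorem near_one {q : Fin 12 → (Fin 3 → ℝ)}
    (hq : ∀ i, ∑ k, (q i k - pt i k) ^ 2 ≤ (3 / 16) ^ 2) (w : Fin 3 → ℝ) (s : ℝ) (i : Fin 12)
    (σ : ℝ) (hσ : σ = 1 ∨ σ = -1)
    (h : ∀ b c, tri i b c →
        K / 5 * Real.sqrt (w ⬝ᵥ w) < σ * (K * s - (pt i + pt b + pt c) ⬝ᵥ w)) :
    ∃ r : ℝ, Inn (convexHull ℝ (Set.range q)) (q i + r • (w - s • q i)) := by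
  have hN : ∀ k : Fin 5, ∃ n : Fin 3 → ℝ, n ⬝ᵥ q i = 1 ∧ n ⬝ᵥ q (cyc i k) = 1 ∧
      n ⬝ᵥ q (cyc i (k + 1)) = 1 ∧
      (∀ l, l ≠ i → l ≠ cyc i k → l ≠ cyc i (k + 1) → n ⬝ᵥ q l < 1) ∧
      ∀ w : Fin 3 → ℝ, |K * (n ⬝ᵥ w) - (pt i + pt (cyc i k) + pt (cyc i (k + 1))) ⬝ᵥ w| ≤
        K / 5 * Real.sqrt (w ⬝ᵥ w) := fun k => normal hq (cyc_tri i k)
  choose n hn1 hn2 hn3 hn4 hn5 using hN
  have hK : 0 < K := by
    have := phi_lo
    unfold K
    linarith
  obtain ⟨ε, hε, hI⟩ := inn_of_cone (convex_convexHull ℝ (Set.range q))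
    (p := q i) (subset_convexHull ℝ _ ⟨i, rfl⟩) (fun k => q (cyc i k) - q i) n
    (fun k => by
      rw [add_sub_cancel]
      exact subset_convexHull ℝ _ ⟨cyc i k, rfl⟩)
    (fun k => by
      show n k ⬝ᵥ (q (cyc i k) - q i) = 0
      rw [dotProduct_sub, hn1, hn2, sub_self])
    (fun k => by
      show n k ⬝ᵥ (q (cyc i (k + 1)) - q i) = 0
      rw [dotProduct_sub, hn1, hn3, sub_self])
    (fun k l hl1 hl2 => by
      show n k ⬝ᵥ (q (cyc i l) - q i) < 0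
      rw [dotProduct_sub, hn1, sub_neg]
      exact hn4 k _ (cyc_ne i l) (fun hh => hl1 (cyc_inj i _ _ hh)) (fun hh => hl2 (cyc_inj i _ _ hh)))
    (d := σ • (w - s • q i))
    (fun k => by
      have e1 := h _ _ (cyc_tri i k)
      have e2 := abs_le.1 (hn5 k w)
      rw [dotProduct_smul, dotProduct_sub, dotProduct_smul, hn1, smul_eq_mul, smul_eq_mul, mul_one]
      rcases hσ with rfl | rfl
      · have e3 : K * (n k ⬝ᵥ w - s) < 0 := by linarith [e2.2]
        have e4 : n k ⬝ᵥ w - s < 0 := by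
          by_contra hcon
          have := mul_nonneg hK.le (not_lt.1 hcon)
          linarith
        linarith
      · have e3 : K * (s - n k ⬝ᵥ w) < 0 := by linarith [e2.1]
        have e4 : s - n k ⬝ᵥ w < 0 := by
          by_contra hcon
          have := mul_nonneg hK.le (not_lt.1 hcon)
          linarith
        linarith)
  refine ⟨ε * σ, ?_⟩
  rw [mul_smul]
  exact hI

theorem near_inner {q : Fin 12 → (Fin 3 → ℝ)}
    (hq : ∀ i, ∑ k, (q i k - pt i k) ^ 2 ≤ (3 / 16) ^ 2) (w : Fin 3 → ℝ) (s : ℝ)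
    (h : ¬ (w = 0 ∧ s = 0)) :
    ∃ i j : Fin 12, i ≠ j ∧
      (∃ r : ℝ, Inn (convexHull ℝ (Set.range q)) (q i + r • (w - s • q i))) ∧
      (∃ r : ℝ, Inn (convexHull ℝ (Set.range q)) (q j + r • (w - s • q j))) := by
  obtain ⟨i, j, hij, σ, τ, hσ, hτ, h1, h2⟩ := margin w s h
  exact ⟨i, j, hij, near_one hq w s i σ hσ h1, near_one hq w s j τ hτ h2⟩

private theorem cs (i : Fin 12) (x : Fin 3 → ℝ) (hx : ∑ k, (x k) ^ 2 ≤ (3 / 16) ^ 2) :
    |pt i ⬝ᵥ x| ≤ 0.36 := by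
  have h1 : (pt i ⬝ᵥ x) ^ 2 ≤ (∑ k, pt i k ^ 2) * ∑ k, x k ^ 2 :=
    Finset.sum_mul_sq_le_sq_mul_sq _ _ _
  have h2 : ∑ k, pt i k ^ 2 = Real.goldenRatio + 2 := by
    have h3 := pt_dot i i
    rw [dp_self] at h3
    have e0 : ev (2, 1) = Real.goldenRatio + 2 := by
      unfold ev
      push_cast
      ring
    rw [e0] at h3
    rw [← h3]
    simp only [dotProduct, pow_two]
  have h4 := phi_hi
  have h5 : (pt i ⬝ᵥ x) ^ 2 ≤ 0.36 ^ 2 := by
    rw [h2] at h1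
    have h6 : (Real.goldenRatio + 2) * ∑ k, x k ^ 2 ≤ 3.6181 * (3 / 16) ^ 2 :=
      mul_le_mul (by linarith) hx (Finset.sum_nonneg fun k _ => sq_nonneg _) (by norm_num)
    refine (h1.trans h6).trans (by norm_num)
  exact abs_le_of_sq_le_sq h5 (by norm_num)

private theorem key {q : Fin 12 → (Fin 3 → ℝ)}
    (hq : ∀ i, ∑ k, (q i k - pt i k) ^ 2 ≤ (3 / 16) ^ 2) (i k : Fin 12) (hik : i ≠ k) :
    pt i ⬝ᵥ q k < pt i ⬝ᵥ q i := by
  have h1 := abs_le.1 (cs i (fun l => q i l - pt i l) (hq i))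
  have h2 := abs_le.1 (cs i (fun l => q k l - pt k l) (hq k))
  have h3 : pt i ⬝ᵥ (fun l => q i l - pt i l) = pt i ⬝ᵥ q i - pt i ⬝ᵥ pt i := dotProduct_sub _ _ _
  have h4 : pt i ⬝ᵥ (fun l => q k l - pt k l) = pt i ⬝ᵥ q k - pt i ⬝ᵥ pt k := dotProduct_sub _ _ _
  rw [h3] at h1
  rw [h4] at h2
  have h5 : pt i ⬝ᵥ pt i = Real.goldenRatio + 2 := by
    rw [pt_dot, dp_self]
    unfold ev
    push_cast
    ring
  have hlo := phi_lo
  have hhi := phi_hi
  have h6 : pt i ⬝ᵥ pt k ≤ 1.6181 := by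
    rw [pt_dot]
    rcases dp_vals i k hik with h | h | h <;> rw [h] <;> simp only [ev] <;> push_cast <;> linarith
  linarith [h1.1, h2.2]

theorem near_ext {q : Fin 12 → (Fin 3 → ℝ)}
    (hq : ∀ i, ∑ k, (q i k - pt i k) ^ 2 ≤ (3 / 16) ^ 2) (i : Fin 12) :
    q i ∈ (convexHull ℝ (Set.range q)).extremePoints ℝ := by
  have hsub : convexHull ℝ (Set.range q) ⊆ {x | x = q i ∨ pt i ⬝ᵥ x < pt i ⬝ᵥ q i} := by
    refine convexHull_min ?_ ?_
    · rintro x ⟨k, rfl⟩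
      by_cases hk : i = k
      · exact Or.inl (by rw [hk])
      · exact Or.inr (key hq i k hk)
    · intro x hx y hy a b ha hb hab
      rcases ha.eq_or_lt with ha0 | ha0
      · have hb1 : b = 1 := by linarith
        rw [← ha0, hb1, zero_smul, zero_add, one_smul]
        exact hy
      rcases hb.eq_or_lt with hb0 | hb0
      · have ha1 : a = 1 := by linarith
        rw [← hb0, ha1, zero_smul, add_zero, one_smul]
        exact hx
      have hx' : x = q i ∨ pt i ⬝ᵥ x < pt i ⬝ᵥ q i := hx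
      have hy' : y = q i ∨ pt i ⬝ᵥ y < pt i ⬝ᵥ q i := hy
      show a • x + b • y = q i ∨ pt i ⬝ᵥ (a • x + b • y) < pt i ⬝ᵥ q i
      have hdot : pt i ⬝ᵥ (a • x + b • y) = a * (pt i ⬝ᵥ x) + b * (pt i ⬝ᵥ y) := by
        rw [dotProduct_add, dotProduct_smul, dotProduct_smul, smul_eq_mul, smul_eq_mul]
      have hone : pt i ⬝ᵥ q i = a * (pt i ⬝ᵥ q i) + b * (pt i ⬝ᵥ q i) := by
        rw [← add_mul, hab, one_mul]
      rcases hx' with hx' | hx' <;> rcases hy' with hy' | hy'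
      · left
        rw [hx', hy', ← add_smul, hab, one_smul]
      · right
        rw [hdot, hone, hx']
        have := mul_lt_mul_of_pos_left hy' hb0
        linarith
      · right
        rw [hdot, hone, hy']
        have := mul_lt_mul_of_pos_left hx' ha0
        linarith
      · right
        rw [hdot, hone]
        have h1 := mul_lt_mul_of_pos_left hx' ha0
        have h2 := mul_lt_mul_of_pos_left hy' hb0
        linarith
  rw [mem_extremePoints_iff_left]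
  refine ⟨subset_convexHull ℝ _ ⟨i, rfl⟩, ?_⟩
  intro x hx y hy hxy
  obtain ⟨a, b, ha, hb, hab, hxy⟩ := hxy
  have hdot : pt i ⬝ᵥ q i = a * (pt i ⬝ᵥ x) + b * (pt i ⬝ᵥ y) := by
    conv_lhs => rw [← hxy]
    rw [dotProduct_add, dotProduct_smul, dotProduct_smul, smul_eq_mul, smul_eq_mul]
  have hone : pt i ⬝ᵥ q i = a * (pt i ⬝ᵥ q i) + b * (pt i ⬝ᵥ q i) := by
    rw [← add_mul, hab, one_mul]
  have hx' : x = q i ∨ pt i ⬝ᵥ x < pt i ⬝ᵥ q i := hsub hx
  have hy' : y = q i ∨ pt i ⬝ᵥ y < pt i ⬝ᵥ q i := hsub hy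
  rcases hx' with hx' | hx'
  · exact hx'
  · exfalso
    have h1 := mul_lt_mul_of_pos_left hx' ha
    have h2 : b * (pt i ⬝ᵥ y) ≤ b * (pt i ⬝ᵥ q i) := by
      rcases hy' with hy' | hy'
      · rw [hy']
      · exact (mul_lt_mul_of_pos_left hy' hb).le
    linarith

theorem near_inj {q : Fin 12 → (Fin 3 → ℝ)}
    (hq : ∀ i, ∑ k, (q i k - pt i k) ^ 2 ≤ (3 / 16) ^ 2) : Function.Injective q := by
  intro i k hik
  by_contra hne
  have h1 := key hq i k hne
  rw [hik] at h1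
  exact lt_irrefl _ h1

end Pool.Agent.H2.IR
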