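import Mathlib
import Pool.Agent.H2.IR.Defs

/-!
# Projective maps (module ProjT, about 170 lines, elementary)

`D` a convex set in 3-space, `(L, l)` linear and injective on `ℝ³ × ℝ`, `l (x, 1) > 0` on `D`,
`Φ x = L (x, 1) / l (x, 1)` (`pm L l`).

Basic identity: `(L, l) (x, 1) = l (x, 1) • (Φ x, 1)`. If `α (x, 1) + β (y, 1) = (z, α + β)`-type
relations hold then the same for the images.
* `pm_inj`: `Φ x = Φ y`: `(L, l)` maps `l(y,1) • (x,1) - l(x,1) • (y,1)` to `0`, so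
  `l(y,1) = l(x,1)` and `x = y`.
* `pm_core`: let `Inn D z`, `d ∈ D`. With `e = z - d` choose `δ > 0` with `z + δ (z - d) ∈ D`; for
  every smaller positive `δ'` also `z + δ' (z - d) ∈ D` (convex, `z ∈ D`), so WLOG
  `(1 + δ) l(z,1) - δ l(d,1) > 0`. In fact this is `l (z + δ (z - d), 1)`, positive anyway. Then
  `Φ (z + δ (z - d)) = Φ z + ε (Φ z - Φ d)` with `ε = δ l(d,1) / l(z + δ (z-d), 1) > 0`. As `d`
  was arbitrary in `D`, `Core (Φ '' D) (Φ z)`.
* `pm_ext`: `x` extreme in `D`, `Φ x = α Φ y + β Φ z`, `α, β > 0`, `α + β = 1`. Put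
  `m = α/l(y,1) + β/l(z,1) > 0`, `t = (α/l(y,1))/m`, `1 - t = (β/l(z,1))/m`; then
  `Φ (t y + (1-t) z) = Φ x`, so `x = t y + (1 - t) z` by injectivity, `0 < t < 1`; `x` extreme
  gives `y = x` (and `z = x`). (Use `mem_extremePoints_iff_left` or `mem_extremePoints`.)
* `pm_line`: `(u, t) = (L, l)(w, s)`, `x ∈ D`, `z = x + r (w - s x) ∈ D`: the vector
  `(z, 1) = (1 - r s)(x, 1) + r (w, s)`, so `l(z,1) (Φ z, 1) = (1 - r s) l(x,1) (Φ x, 1) + r (u, t)`
  and `Φ z = Φ x + (r / l(z,1)) (u - t Φ x)`.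
-/

set_option autoImplicit false

open Module

namespace Pool.Agent.H2.IR

open Pool.Agent.H77.IC

/-- the projective map -/
noncomputable def pm (L : ((Fin 3 → ℝ) × ℝ) →ₗ[ℝ] E4) (l : ((Fin 3 → ℝ) × ℝ) →ₗ[ℝ] ℝ)
    (x : Fin 3 → ℝ) : E4 := (l (x, 1))⁻¹ • L (x, 1)

variable {L : ((Fin 3 → ℝ) × ℝ) →ₗ[ℝ] E4} {l : ((Fin 3 → ℝ) × ℝ) →ₗ[ℝ] ℝ}
  {D : Set (Fin 3 → ℝ)}

private theorem projT_id {x : Fin 3 → ℝ} (hx : l (x, 1) ≠ 0) : L (x, 1) = l (x, 1) • pm L l x := by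
  unfold pm
  rw [smul_smul, mul_inv_cancel₀ hx, one_smul]

private theorem projT_eq {x : Fin 3 → ℝ} {v : E4} (hx : l (x, 1) ≠ 0) (h : l (x, 1) • v = L (x, 1)) :
    pm L l x = v := by
  unfold pm
  rw [← h, smul_smul, inv_mul_cancel₀ hx, one_smul]

theorem pm_inj (hL : ∀ z, L z = 0 → l z = 0 → z = 0) (hl : ∀ x ∈ D, 0 < l (x, 1)) :
    Set.InjOn (pm L l) D := by
  intro x hx y hy hxy
  have a0 := hl x hx
  have b0 := hl y hy
  have hz : (l (y, 1)) • ((x, (1 : ℝ)) : (Fin 3 → ℝ) × ℝ) - (l (x, 1)) • (y, (1 : ℝ)) = 0 := by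
    apply hL
    · rw [map_sub, map_smul, map_smul, projT_id a0.ne', projT_id b0.ne', hxy, smul_smul, smul_smul,
        mul_comm, sub_self]
    · rw [map_sub, map_smul, map_smul, smul_eq_mul, smul_eq_mul, mul_comm, sub_self]
  have h1 := congrArg Prod.fst hz
  have h2 := congrArg Prod.snd hz
  simp only [Prod.fst_sub, Prod.smul_fst, Prod.fst_zero, Prod.snd_sub, Prod.smul_snd, Prod.snd_zero,
    smul_eq_mul, mul_one] at h1 h2
  have h3 : l (x, 1) = l (y, 1) := by linarith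
  rw [h3, ← smul_sub] at h1
  rcases smul_eq_zero.1 h1 with h | h
  · exact absurd h b0.ne'
  · exact sub_eq_zero.1 h

theorem pm_core (hD : Convex ℝ D) (hl : ∀ x ∈ D, 0 < l (x, 1)) {z : Fin 3 → ℝ} (hz : Inn D z) :
    Core (pm L l '' D) (pm L l z) := by
  have _ := hD
  refine ⟨⟨z, hz.1, rfl⟩, ?_⟩
  rintro _ ⟨d, hd, rfl⟩
  obtain ⟨δ, hδ, hp⟩ := hz.2 (z - d)
  have z0 := hl z hz.1
  have d0 := hl d hd
  have p0 := hl _ hp
  have e : ((z + δ • (z - d), (1 : ℝ)) : (Fin 3 → ℝ) × ℝ) =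
      (1 + δ) • ((z, (1 : ℝ)) : (Fin 3 → ℝ) × ℝ) - δ • (d, (1 : ℝ)) := by
    ext i
    · simp only [Pi.add_apply, Pi.smul_apply, Pi.sub_apply, Prod.fst_sub, Prod.smul_fst, smul_eq_mul]
      ring
    · simp only [Prod.snd_sub, Prod.smul_snd, smul_eq_mul]
      ring
  have el : l (z + δ • (z - d), 1) = (1 + δ) * l (z, 1) - δ * l (d, 1) := by
    rw [e, map_sub, map_smul, map_smul, smul_eq_mul, smul_eq_mul]
  have eL : L (z + δ • (z - d), 1) = ((1 + δ) * l (z, 1)) • pm L l z - (δ * l (d, 1)) • pm L l d := by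
    rw [e, map_sub, map_smul, map_smul, projT_id z0.ne', projT_id d0.ne', smul_smul, smul_smul]
  refine ⟨δ * l (d, 1) / l (z + δ • (z - d), 1), by positivity, z + δ • (z - d), hp, ?_⟩
  apply projT_eq p0.ne'
  rw [eL, smul_add, smul_smul, mul_div_cancel₀ _ p0.ne']
  rw [el]
  module

theorem pm_ext (hD : Convex ℝ D) (hL : ∀ z, L z = 0 → l z = 0 → z = 0)
    (hl : ∀ x ∈ D, 0 < l (x, 1)) {x : Fin 3 → ℝ} (hx : x ∈ D.extremePoints ℝ) :
    pm L l x ∈ (pm L l '' D).extremePoints ℝ := by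
  rw [mem_extremePoints_iff_left] at hx ⊢
  refine ⟨⟨x, hx.1, rfl⟩, ?_⟩
  rintro _ ⟨y, hy, rfl⟩ _ ⟨z, hz, rfl⟩ ⟨α, β, hα, hβ, hαβ, hc⟩
  have y0 := hl y hy
  have z0 := hl z hz
  have hm : 0 < α / l (y, 1) + β / l (z, 1) := by positivity
  set m := α / l (y, 1) + β / l (z, 1) with hmdef
  have ht : 0 < α / l (y, 1) / m := by positivity
  have hs : 0 < β / l (z, 1) / m := by positivity
  have hts : α / l (y, 1) / m + β / l (z, 1) / m = 1 := by
    rw [← add_div, ← hmdef, div_self hm.ne']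
  have hp : (α / l (y, 1) / m) • y + (β / l (z, 1) / m) • z ∈ D := hD hy hz ht.le hs.le hts
  have e : (((α / l (y, 1) / m) • y + (β / l (z, 1) / m) • z, (1 : ℝ)) : (Fin 3 → ℝ) × ℝ) =
      (α / l (y, 1) / m) • ((y, (1 : ℝ)) : (Fin 3 → ℝ) × ℝ) + (β / l (z, 1) / m) • (z, (1 : ℝ)) := by
    ext i
    · simp only [Pi.add_apply, Pi.smul_apply, Prod.fst_add, Prod.smul_fst, smul_eq_mul]
    · simp only [Prod.snd_add, Prod.smul_snd, smul_eq_mul, mul_one]
      exact hts.symm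
  have p0 := hl _ hp
  have e1 : α / l (y, 1) / m * l (y, 1) = α / m := by
    field_simp
  have e2 : β / l (z, 1) / m * l (z, 1) = β / m := by
    field_simp
  have el : l ((α / l (y, 1) / m) • y + (β / l (z, 1) / m) • z, 1) = 1 / m := by
    rw [e, map_add, map_smul, map_smul, smul_eq_mul, smul_eq_mul, e1, e2, ← add_div, hαβ]
  have eL : L ((α / l (y, 1) / m) • y + (β / l (z, 1) / m) • z, 1) = (1 / m) • pm L l x := by
    rw [e, map_add, map_smul, map_smul, projT_id y0.ne', projT_id z0.ne', smul_smul, smul_smul, e1, e2,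
      ← hc, smul_add, smul_smul, smul_smul]
    congr 2 <;> ring
  have key : pm L l ((α / l (y, 1) / m) • y + (β / l (z, 1) / m) • z) = pm L l x := by
    apply projT_eq p0.ne'
    rw [eL, el]
  have hxe := pm_inj hL hl hp hx.1 key
  have := hx.2 y hy z hz ⟨_, _, ht, hs, hts, hxe⟩
  rw [this]

theorem pm_line (hl : ∀ x ∈ D, 0 < l (x, 1)) {x w : Fin 3 → ℝ} {s r : ℝ} (hx : x ∈ D)
    (hz : x + r • (w - s • x) ∈ D) :
    ∃ r' : ℝ, pm L l (x + r • (w - s • x)) =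
      pm L l x + r' • (L (w, s) - l (w, s) • pm L l x) := by
  have x0 := hl x hx
  have z0 := hl _ hz
  have e : ((x + r • (w - s • x), (1 : ℝ)) : (Fin 3 → ℝ) × ℝ) =
      (1 - r * s) • ((x, (1 : ℝ)) : (Fin 3 → ℝ) × ℝ) + r • (w, s) := by
    ext i
    · simp only [Pi.add_apply, Pi.smul_apply, Pi.sub_apply, Prod.fst_add, Prod.smul_fst, smul_eq_mul]
      ring
    · simp only [Prod.snd_add, Prod.smul_snd, smul_eq_mul]
      ring
  have el : l (x + r • (w - s • x), 1) = (1 - r * s) * l (x, 1) + r * l (w, s) := by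
    rw [e, map_add, map_smul, map_smul, smul_eq_mul, smul_eq_mul]
  have eL : L (x + r • (w - s • x), 1) = ((1 - r * s) * l (x, 1)) • pm L l x + r • L (w, s) := by
    rw [e, map_add, map_smul, map_smul, projT_id x0.ne', smul_smul]
  refine ⟨r / l (x + r • (w - s • x), 1), ?_⟩
  apply projT_eq z0.ne'
  rw [eL, smul_add, smul_smul, mul_div_cancel₀ _ z0.ne']
  rw [el]
  module

end Pool.Agent.H2.IR
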