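import Mathlib
import Pool.Agent.H2.IR.Defs
import Pool.Agent.H2.IR.Vert
import Pool.Agent.H2.IR.Near
import Pool.Agent.H2.IR.ProjT

/-!
# Projective images of near-regular icosahedra are stout (module NearStout, about 150 lines)

* `near_stout`. Let `F`, `q`, `L`, `l` be as in `NearReg`; by `ext_eq` the vertices of `Ico` are the
  `pt i`; put `q' i = q (pt i)`, so `q '' ext Ico = Set.range q'` (`Set.range_comp`),
  `D = convexHull ℝ (Set.range q')`, `F = pm L l '' D`.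
  (1) Let `R` be the range of `z ↦ (L z, l z)` (`L.prod l`), a submodule of `E4 × ℝ`. For `y ∈ F`:
  `(y, 1) ∈ R` (`y = Φ x`, `(y, 1) = (l(x,1))⁻¹ (L(x,1), l(x,1))`). So for `u` in the affine span
  of `F`: `(u, 1) ∈ R` (`affineSpan_induction`, or `AffineSubspace` spans), and for `u` in its
  direction: `(u, 0) ∈ R` (`direction_affineSpan`, `vectorSpan` is the span of the differences;
  `Submodule.span_induction`).
  (2) Let `(u, t) = (L (w, s), l (w, s))` with `(u, t) ≠ 0`; then `¬ (w = 0 ∧ s = 0)`, and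
  `near_inner` gives `i ≠ j`, `r_i`, `r_j`. `Φ (q' i)` is a vertex of `F` (`near_ext`, `pm_ext`), and
  `Φ (q' i + r_i (w - s q' i))` is a core point of `F` (`pm_core`), equal to
  `Φ (q' i) + r' (u - t Φ (q' i))` (`pm_line`). For the affine span take `t = 1`; for a direction
  `u ≠ 0` take `t = 0`. The two vertices are different (`near_inj`, `pm_inj`).
  (3) The set of `x` in `Stout` is finite: it is contained in `F.extremePoints ℝ`, which is
  contained in `Φ '' ext D`-like finite sets. (Easiest: if the set were infinite its `ncard` would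
  be 0, so finiteness is needed: an extreme point of `F = Φ '' D` is `Φ x` with `x` extreme
  in `D` (if `x = (y + z)/2`-type combination in `D` then `Φ x` is in the open segment of `Φ y`,
  `Φ z`), and `ext D ⊆ Set.range q'` (`extremePoints_convexHull_subset`).)
* `reg_near`: an affinely regular icosahedron is `NearReg`: `q = id`, `L (x, s) = A.linear x + s • A 0`,
  `l (x, s) = s`, `Ico = convexHull ℝ (ext Ico)` (`ico_eq`, `ext_eq`).
-/

set_option autoImplicit false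

open Module

namespace Pool.Agent.H2.IR

open Pool.Agent.H77.IC

private theorem ns_two {S : Set E4} (hfin : S.Finite) {a b : E4} (ha : a ∈ S) (hb : b ∈ S)
    (hab : a ≠ b) : 2 ≤ S.ncard := by
  have h : ({a, b} : Set E4).ncard = 2 := Set.ncard_pair hab
  rw [← h]
  refine Set.ncard_le_ncard ?_ hfin
  intro x hx
  rcases hx with rfl | hx
  · exact ha
  · rw [Set.mem_singleton_iff] at hx
    exact hx ▸ hb

variable {L : ((Fin 3 → ℝ) × ℝ) →ₗ[ℝ] E4} {l : ((Fin 3 → ℝ) × ℝ) →ₗ[ℝ] ℝ}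
  {D : Set (Fin 3 → ℝ)}

private theorem ns_L (hl : ∀ x ∈ D, 0 < l (x, 1)) {x : Fin 3 → ℝ} (hx : x ∈ D) :
    L (x, 1) = l (x, 1) • pm L l x := by
  rw [pm, smul_smul, mul_inv_cancel₀ (hl x hx).ne', one_smul]

/-- extreme points of the image come from extreme points -/
private theorem ns_ext (hL : ∀ z, L z = 0 → l z = 0 → z = 0)
    (hl : ∀ x ∈ D, 0 < l (x, 1)) {y : E4} (hy : y ∈ (pm L l '' D).extremePoints ℝ) :
    ∃ x ∈ D.extremePoints ℝ, pm L l x = y := by
  obtain ⟨⟨x, hx, rfl⟩, hy2⟩ := mem_extremePoints_iff_left.1 hy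
  refine ⟨x, mem_extremePoints_iff_left.2 ⟨hx, ?_⟩, rfl⟩
  rintro a ha b hb ⟨α, β, hα, hβ, hαβ, hxab⟩
  have e1 : ((x, 1) : (Fin 3 → ℝ) × ℝ) = α • ((a, 1) : (Fin 3 → ℝ) × ℝ) + β • ((b, 1) : (Fin 3 → ℝ) × ℝ) := by
    rw [← hxab]
    ext k
    · simp
    · simp [hαβ]
  have e2 : l (x, 1) = α * l (a, 1) + β * l (b, 1) := by
    rw [e1, map_add, map_smul, map_smul, smul_eq_mul, smul_eq_mul]
  have e3 : pm L l x = (α * l (a, 1) / l (x, 1)) • pm L l a + (β * l (b, 1) / l (x, 1)) • pm L l b := by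
    have e4 : L (x, 1) = α • L (a, 1) + β • L (b, 1) := by
      rw [e1, map_add, map_smul, map_smul]
    rw [ns_L hl ha, ns_L hl hb] at e4
    conv_lhs => rw [pm, e4]
    rw [smul_add, smul_smul, smul_smul, smul_smul, smul_smul]
    congr 2 <;> ring
  have hlx := hl x hx
  have hla := hl a ha
  have hlb := hl b hb
  have hseg : pm L l x ∈ openSegment ℝ (pm L l a) (pm L l b) := by
    refine ⟨α * l (a, 1) / l (x, 1), β * l (b, 1) / l (x, 1), by positivity, by positivity, ?_, e3.symm⟩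
    rw [← add_div, ← e2, div_self hlx.ne']
  have h5 := hy2 (pm L l a) ⟨a, ha, rfl⟩ (pm L l b) ⟨b, hb, rfl⟩ hseg
  exact pm_inj hL hl ha hx h5

private theorem ns_range {F : Set E4} (hl : ∀ x ∈ D, 0 < l (x, 1)) (hF : F = pm L l '' D) {y : E4}
    (hy : y ∈ F) : ((y, 1) : E4 × ℝ) ∈ LinearMap.range (L.prod l) := by
  rw [hF] at hy
  obtain ⟨x, hx, rfl⟩ := hy
  refine ⟨(l (x, 1))⁻¹ • ((x, 1) : (Fin 3 → ℝ) × ℝ), ?_⟩
  rw [map_smul, LinearMap.prod_apply]
  ext k
  · rfl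
  · exact inv_mul_cancel₀ (hl x hx).ne'

private theorem ns_span {F : Set E4} (hl : ∀ x ∈ D, 0 < l (x, 1)) (hF : F = pm L l '' D) {u : E4}
    (hu : u ∈ affineSpan ℝ F) : ((u, 1) : E4 × ℝ) ∈ LinearMap.range (L.prod l) := by
  refine affineSpan_induction (p := fun u => ((u, 1) : E4 × ℝ) ∈ LinearMap.range (L.prod l)) hu
    (fun y hy => ns_range hl hF hy) ?_
  intro c a b w ha hb hw
  have h := (LinearMap.range (L.prod l)).add_mem
    ((LinearMap.range (L.prod l)).smul_mem c ((LinearMap.range (L.prod l)).sub_mem ha hb)) hw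
  have e : ((c • (a -ᵥ b) +ᵥ w, 1) : E4 × ℝ) = c • (((a, 1) : E4 × ℝ) - (b, 1)) + (w, 1) := by
    rw [vsub_eq_sub, vadd_eq_add, Prod.mk_sub_mk, Prod.smul_mk, Prod.mk_add_mk]
    simp
  rw [e]
  exact h

private theorem ns_dir {F : Set E4} (hl : ∀ x ∈ D, 0 < l (x, 1)) (hF : F = pm L l '' D)
    (hne : F.Nonempty) {u : E4} (hu : u ∈ (affineSpan ℝ F).direction) :
    ((u, 0) : E4 × ℝ) ∈ LinearMap.range (L.prod l) := by
  have hne' : ((affineSpan ℝ F : AffineSubspace ℝ E4) : Set E4).Nonempty :=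
    (affineSpan_nonempty ℝ).2 hne
  obtain ⟨a, ha, b, hb, rfl⟩ := (AffineSubspace.mem_direction_iff_eq_vsub hne' u).1 hu
  have h := (LinearMap.range (L.prod l)).sub_mem (ns_span hl hF ha) (ns_span hl hF hb)
  have e : ((a -ᵥ b, 0) : E4 × ℝ) = ((a, 1) : E4 × ℝ) - (b, 1) := by
    rw [vsub_eq_sub, Prod.mk_sub_mk, sub_self]
  rw [e]
  exact h

private theorem ns_pair {q : Fin 12 → (Fin 3 → ℝ)}
    (hq : ∀ i, ∑ k, (q i k - pt i k) ^ 2 ≤ (3 / 16) ^ 2)
    (hL : ∀ z, L z = 0 → l z = 0 → z = 0)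
    (hl : ∀ x ∈ convexHull ℝ (Set.range q), 0 < l (x, 1)) {F : Set E4}
    (hF : F = pm L l '' convexHull ℝ (Set.range q)) {u : E4} {t : ℝ}
    (hu : ((u, t) : E4 × ℝ) ∈ LinearMap.range (L.prod l)) (h0 : ¬ (u = 0 ∧ t = 0)) :
    ∃ a b : E4, a ≠ b ∧
      (a ∈ F.extremePoints ℝ ∧ ∃ r : ℝ, Core F (a + r • (u - t • a))) ∧
      (b ∈ F.extremePoints ℝ ∧ ∃ r : ℝ, Core F (b + r • (u - t • b))) := by
  obtain ⟨⟨w, s⟩, hws⟩ := hu
  rw [LinearMap.prod_apply] at hws
  have hw1 : L (w, s) = u := congrArg Prod.fst hws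
  have hw2 : l (w, s) = t := congrArg Prod.snd hws
  have hws0 : ¬ (w = 0 ∧ s = 0) := by
    rintro ⟨rfl, rfl⟩
    apply h0
    have h00 : (((0 : Fin 3 → ℝ), (0 : ℝ)) : (Fin 3 → ℝ) × ℝ) = 0 := rfl
    rw [h00] at hw1 hw2
    rw [map_zero] at hw1 hw2
    exact ⟨hw1.symm, hw2.symm⟩
  obtain ⟨i, j, hij, ⟨ri, hi⟩, ⟨rj, hj⟩⟩ := near_inner hq w s hws0
  have hD : Convex ℝ (convexHull ℝ (Set.range q)) := convex_convexHull ℝ _
  have hmem : ∀ i, q i ∈ convexHull ℝ (Set.range q) := fun i =>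
    subset_convexHull ℝ _ (Set.mem_range_self i)
  have key : ∀ (i : Fin 12) (r : ℝ),
      Inn (convexHull ℝ (Set.range q)) (q i + r • (w - s • q i)) →
      pm L l (q i) ∈ F.extremePoints ℝ ∧
        ∃ r : ℝ, Core F (pm L l (q i) + r • (u - t • pm L l (q i))) := by
    intro i r hi
    refine ⟨?_, ?_⟩
    · rw [hF]
      exact pm_ext hD hL hl (near_ext hq i)
    · obtain ⟨r', hr'⟩ := pm_line (L := L) (l := l) hl (hmem i) hi.1
      refine ⟨r', ?_⟩
      rw [hw1, hw2] at hr'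
      rw [← hr', hF]
      exact pm_core hD hl hi
  refine ⟨pm L l (q i), pm L l (q j), ?_, key i ri hi, key j rj hj⟩
  intro h
  exact hij (near_inj hq (pm_inj hL hl (hmem i) (hmem j) h))

theorem near_stout {F : Set E4} (h : NearReg F) : Stout F := by
  obtain ⟨q, L, l, hq, hL, hl, hF⟩ := h
  set q' : Fin 12 → (Fin 3 → ℝ) := fun i => q (pt i) with hq'def
  have hq' : ∀ i, ∑ k, (q' i k - pt i k) ^ 2 ≤ (3 / 16) ^ 2 := by
    intro i
    refine hq (pt i) ?_
    rw [ext_eq]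
    exact Set.mem_range_self i
  have hset : q '' Ico.extremePoints ℝ = Set.range q' := by
    rw [ext_eq, ← Set.range_comp]
    rfl
  rw [hset] at hl hF
  have hF' : F = pm L l '' convexHull ℝ (Set.range q') := hF
  have hne : F.Nonempty := by
    rw [hF']
    exact ⟨_, q' 0, subset_convexHull ℝ _ (Set.mem_range_self 0), rfl⟩
  have hfin : (F.extremePoints ℝ).Finite := by
    refine ((Set.finite_range q').image (pm L l)).subset ?_
    intro y hy
    rw [hF'] at hy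
    obtain ⟨x, hx, rfl⟩ := ns_ext hL hl hy
    exact ⟨x, extremePoints_convexHull_subset hx, rfl⟩
  constructor
  · intro u hu
    obtain ⟨a, b, hab, ⟨ha1, ra, ha2⟩, ⟨hb1, rb, hb2⟩⟩ := ns_pair hq' hL hl hF' (ns_span hl hF' hu)
      (fun h => one_ne_zero h.2)
    rw [one_smul] at ha2 hb2
    exact ns_two (hfin.subset fun x hx => hx.1) ⟨ha1, ra, ha2⟩ ⟨hb1, rb, hb2⟩ hab
  · intro u hu hu0
    obtain ⟨a, b, hab, ⟨ha1, ra, ha2⟩, ⟨hb1, rb, hb2⟩⟩ := ns_pair hq' hL hl hF'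
      (ns_dir hl hF' hne hu) (fun h => hu0 h.1)
    rw [zero_smul, sub_zero] at ha2 hb2
    exact ns_two (hfin.subset fun x hx => hx.1) ⟨ha1, ra, ha2⟩ ⟨hb1, rb, hb2⟩ hab

theorem reg_near {F : Set E4} (h : IsRegIco F) : NearReg F := by
  obtain ⟨A, hA, hF⟩ := h
  have hlin : ∀ x : Fin 3 → ℝ, (A.linear.comp (LinearMap.fst ℝ (Fin 3 → ℝ) ℝ) +
      (LinearMap.snd ℝ (Fin 3 → ℝ) ℝ).smulRight (A 0)) (x, 1) = A x := by
    intro x
    rw [LinearMap.add_apply, LinearMap.comp_apply, LinearMap.fst_apply, LinearMap.smulRight_apply,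
      LinearMap.snd_apply, one_smul]
    exact (congrFun A.decomp x).symm
  have hI : convexHull ℝ (Ico.extremePoints ℝ) = Ico := by
    rw [ext_eq, ← ico_eq]
  refine ⟨id, A.linear.comp (LinearMap.fst ℝ (Fin 3 → ℝ) ℝ) +
      (LinearMap.snd ℝ (Fin 3 → ℝ) ℝ).smulRight (A 0), LinearMap.snd ℝ (Fin 3 → ℝ) ℝ, ?_, ?_, ?_, ?_⟩
  · intro v _
    simp only [id, sub_self]
    simp
    positivity
  · rintro ⟨x, s⟩ h1 h2
    rw [LinearMap.snd_apply] at h2
    simp only at h2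
    subst h2
    rw [LinearMap.add_apply, LinearMap.comp_apply, LinearMap.fst_apply, LinearMap.smulRight_apply,
      LinearMap.snd_apply, zero_smul, add_zero] at h1
    have h3 : x = 0 := ((AffineMap.linear_injective_iff A).2 hA) (by rw [h1, map_zero])
    rw [h3]
    rfl
  · intro x _
    rw [LinearMap.snd_apply]
    exact one_pos
  · rw [Set.image_id, hI, ← hF]
    refine Set.image_congr fun x _ => ?_
    rw [LinearMap.snd_apply, inv_one, one_smul, hlin]

end Pool.Agent.H2.IR
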