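import Mathlib
import Pool.Agent.H2.IR.Defs
import Pool.Agent.H2.IR.Hyper
import Pool.Agent.H77.IC.Facet

/-!
# Stout facets have two crossed vertices (module StoutX, about 130 lines)

* `stout_cross`: `F` a stout facet, `v ≠ w` in `P`, not in `F`. `a, M` from `facet_hyper`,
  `a v < M`, `a w < M`. If `a v = a w`, the direction `u = w - v ≠ 0` (`a u = 0`) gives two
  vertices `x` with `Core F (x + s • (w - v))`, and
  `x + s (w - v) = x + (-s) (v - x) + s (w - x)`. Otherwise put
  `τ = (M - a v) / (a w - a v)`, `u = v + τ (w - v)`, `a u = M`, so `u` is in the affine span;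
  two vertices `x` with `Core F (x + s (u - x))`, and
  `s (u - x) = s (1 - τ) (v - x) + s τ (w - x)`. These `x` are different from `v, w` since
  `x ∈ F`. So the set in `Stout` is contained in `innerFrom v w F`, which is finite (`ext_finite`,
  `ext_face`); `Set.ncard_le_ncard`.
* `core_image`: `Core F z`, `F` convex, `interior (π '' F)` nonempty, then `π z` is in it: let
  `π f0` be an interior point of `π '' F`, `f0 ∈ F`; `y = z + ε (z - f0) ∈ F`, `ε > 0`; `π z` is the
  convex combination of `π y ∈ π '' F` and the interior point `π f0` with coefficients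
  `1/(1+ε)`, `ε/(1+ε) > 0` (`Convex.combo_self_interior_mem_interior` or the variant).
* `stout_par`: `a, M` from `facet_hyper`. There is `u ≠ 0` with `π u = 0`, `a u = 0` (the kernel of
  `x ↦ (π x, a x)` from rank 4 to rank 3 is not `⊥`:
  `LinearMap.ker_ne_bot_of_finrank_lt`). Two vertices `x` with `Core F (x + s u)`;
  `π x = π (x + s u)` is interior by `core_image`.
-/

set_option autoImplicit false

open Module

namespace Pool.Agent.H2.IR

open Pool.Agent.H77.IC

private theorem ext_fin (S : Finset E4) {F : Set E4}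
    (hF : IsFacet (convexHull ℝ (S : Set E4)) F) : (F.extremePoints ℝ).Finite := by
  rw [ext_face hF.1]
  exact (ext_finite S).inter_of_right _

theorem stout_cross (S : Finset E4) (hS : (interior (convexHull ℝ (S : Set E4))).Nonempty)
    {F : Set E4} (hF : IsFacet (convexHull ℝ (S : Set E4)) F) (hst : Stout F) {v w : E4}
    (hv : v ∈ convexHull ℝ (S : Set E4)) (hw : w ∈ convexHull ℝ (S : Set E4)) (hvw : v ≠ w)
    (hvF : v ∉ F) (hwF : w ∉ F) : 2 ≤ (innerFrom v w F).ncard := by
  obtain ⟨a, M, hle, hFeq, haff, hdir⟩ := facet_hyper S hS hF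
  have hav : a v ≠ M := fun h => hvF (by rw [hFeq]; exact ⟨hv, h⟩)
  have hfin : (innerFrom v w F).Finite := (ext_fin S hF).subset fun x hx => hx.1
  by_cases h : a v = a w
  · have h1 := hst.2 (w - v) (hdir _ (by rw [map_sub, h, sub_self])) (sub_ne_zero.2 hvw.symm)
    refine h1.trans (Set.ncard_le_ncard ?_ hfin)
    rintro x ⟨hx, s, hs⟩
    refine ⟨hx, fun e => hvF (e ▸ hx.1), fun e => hwF (e ▸ hx.1), -s, s, ?_⟩
    have e : x + (-s) • (v - x) + s • (w - x) = x + s • (w - v) := by module
    rw [e]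
    exact hs
  · have hne : a w - a v ≠ 0 := sub_ne_zero.2 (Ne.symm h)
    have hau : a (v + ((M - a v) / (a w - a v)) • (w - v)) = M := by
      rw [map_add, map_smul, map_sub, smul_eq_mul, div_mul_cancel₀ _ hne]
      ring
    have h1 := hst.1 _ (haff _ hau)
    refine h1.trans (Set.ncard_le_ncard ?_ hfin)
    rintro x ⟨hx, s, hs⟩
    refine ⟨hx, fun e => hvF (e ▸ hx.1), fun e => hwF (e ▸ hx.1),
      s * (1 - (M - a v) / (a w - a v)), s * ((M - a v) / (a w - a v)), ?_⟩
    have e : x + (s * (1 - (M - a v) / (a w - a v))) • (v - x) +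
        (s * ((M - a v) / (a w - a v))) • (w - x) =
        x + s • (v + ((M - a v) / (a w - a v)) • (w - v) - x) := by module
    rw [e]
    exact hs

theorem core_image {F : Set E4} (hF : Convex ℝ F) {z : E4} (hz : Core F z)
    (π : E4 →ₗ[ℝ] (Fin 2 → ℝ)) (hπ : (interior (π '' F)).Nonempty) : π z ∈ interior (π '' F) := by
  obtain ⟨p, hp⟩ := hπ
  obtain ⟨f0, hf0, hf0p⟩ := interior_subset hp
  obtain ⟨ε, hε, hy⟩ := hz.2 f0 hf0
  have hc : Convex ℝ (π '' F) := hF.linear_image π
  have hpos : 0 < 1 + ε := by linarith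
  have h1 := hc.combo_interior_self_mem_interior hp (Set.mem_image_of_mem π hy)
    (a := ε / (1 + ε)) (b := 1 / (1 + ε)) (div_pos hε hpos) (by positivity)
    (by field_simp; ring)
  have e : (ε / (1 + ε)) • p + (1 / (1 + ε)) • π (z + ε • (z - f0)) = π z := by
    rw [← hf0p, map_add, map_smul, map_sub]
    have h2 : (1 / (1 + ε)) * (1 + ε) = 1 := by field_simp
    have h3 : ε / (1 + ε) = 1 / (1 + ε) * ε := by ring
    rw [h3]
    calc (1 / (1 + ε) * ε) • π f0 + (1 / (1 + ε)) • (π z + ε • (π z - π f0))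
        = ((1 / (1 + ε)) * (1 + ε)) • π z := by module
      _ = π z := by rw [h2, one_smul]
  rwa [e] at h1

theorem stout_par (S : Finset E4) (hS : (interior (convexHull ℝ (S : Set E4))).Nonempty)
    {F : Set E4} (hF : IsFacet (convexHull ℝ (S : Set E4)) F) (hst : Stout F)
    (π : E4 →ₗ[ℝ] (Fin 2 → ℝ)) (hπ : (interior (π '' F)).Nonempty) : 2 ≤ (inner π F).ncard := by
  obtain ⟨a, M, hle, hFeq, haff, hdir⟩ := facet_hyper S hS hF
  have hker : LinearMap.ker (π.prod a.toLinearMap) ≠ ⊥ := by
    apply LinearMap.ker_ne_bot_of_finrank_lt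
    rw [finrank_prod, finrank_euclideanSpace]
    simp
  obtain ⟨u, hu, hu0⟩ := (Submodule.ne_bot_iff _).1 hker
  rw [LinearMap.mem_ker, LinearMap.prod_apply] at hu
  replace hu : π u = 0 ∧ a u = 0 := Prod.mk_eq_zero.1 hu
  have hu2 : a u = 0 := hu.2
  have h1 := hst.2 u (hdir u hu2) hu0
  have hfin : (inner π F).Finite := (ext_fin S hF).subset fun x hx => hx.1
  refine h1.trans (Set.ncard_le_ncard ?_ hfin)
  rintro x ⟨hx, s, hs⟩
  refine ⟨hx, ?_⟩
  have hconv : Convex ℝ F := hF.1.convex (convex_convexHull ℝ _)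
  have h2 := core_image hconv hs π hπ
  rwa [map_add, map_smul, hu.1, smul_zero, add_zero] at h2

end Pool.Agent.H2.IR
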