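import Mathlib
import Pool.Agent.H2.IR.Defs
import Pool.Agent.H2.IR.CountA
import Pool.Agent.H2.IR.CountB
import Pool.Agent.H2.IR.EdgeP
import Pool.Agent.H2.IR.StoutX
import Pool.Agent.H2.IR.NearStout
import Pool.Agent.H77.IC.Main

/-!
# Assembly (complete)
-/

set_option autoImplicit false

open Module

namespace Pool.Agent.H2.IR

open Pool.Agent.H77.IC

/-- the counting inequality -/
theorem count (S : Finset E4) (hS : (interior (convexHull ℝ (S : Set E4))).Nonempty)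
    (hI : ∀ F, IsFacet (convexHull ℝ (S : Set E4)) F → IsIco F) {F0 : Set E4}
    (hF0 : IsFacet (convexHull ℝ (S : Set E4)) F0) {v w : E4} (hv : v ∈ F0.extremePoints ℝ)
    (hw : w ∈ F0.extremePoints ℝ) (hwv : w ≠ v) (hn : w ∉ nb F0 v) :
    4 * {F : Set E4 | IsFacet (convexHull ℝ (S : Set E4)) F ∧ v ∉ F ∧ w ∉ F ∧
        2 ≤ (innerFrom v w F).ncard}.ncard +
      15 * ({F : Set E4 | IsFacet (convexHull ℝ (S : Set E4)) F ∧ v ∈ F}.ncard +
        {F : Set E4 | IsFacet (convexHull ℝ (S : Set E4)) F ∧ w ∈ F}.ncard) + 12 ≤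
      4 * ((convexHull ℝ (S : Set E4)).extremePoints ℝ).ncard := by
  have h1 := pairs_upper S hI hF0 hv hw hwv hn
  have h2 := pairs_lower S hI hF0 hv hw hwv hn
  have hPx : ∀ x ∈ F0.extremePoints ℝ, x ∈ (convexHull ℝ (S : Set E4)).extremePoints ℝ := by
    intro x hx
    rw [ext_face hF0.1] at hx
    exact hx.2
  have h5 : ∀ x ∈ (convexHull ℝ (S : Set E4)).extremePoints ℝ,
      ∀ F, IsFacet (convexHull ℝ (S : Set E4)) F → x ∈ F → 5 ≤ (nb F x).ncard := by
    intro x hx F hF hxF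
    refine (hI F hF).five ?_
    rw [ext_face hF.1]
    exact ⟨hxF, hx⟩
  have h3 := nb_many S hS (hPx v hv) (h5 v (hPx v hv))
  have h4 := nb_many S hS (hPx w hw) (h5 w (hPx w hw))
  omega

/-- facets containing `v` or `w` -/
theorem union_card (S : Finset E4)
    (hI : ∀ F, IsFacet (convexHull ℝ (S : Set E4)) F → IsIco F) {F0 : Set E4}
    (hF0 : IsFacet (convexHull ℝ (S : Set E4)) F0) {v w : E4} (hv : v ∈ F0.extremePoints ℝ)
    (hw : w ∈ F0.extremePoints ℝ) (hwv : w ≠ v) (hn : w ∉ nb F0 v) :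
    {F : Set E4 | IsFacet (convexHull ℝ (S : Set E4)) F ∧ ¬ (v ∉ F ∧ w ∉ F)}.ncard + 1 =
      {F : Set E4 | IsFacet (convexHull ℝ (S : Set E4)) F ∧ v ∈ F}.ncard +
        {F : Set E4 | IsFacet (convexHull ℝ (S : Set E4)) F ∧ w ∈ F}.ncard := by
  classical
  set A : Set (Set E4) := {F | IsFacet (convexHull ℝ (S : Set E4)) F ∧ v ∈ F} with hA
  set B : Set (Set E4) := {F | IsFacet (convexHull ℝ (S : Set E4)) F ∧ w ∈ F} with hB
  have hAf : A.Finite := (facet_finite S).subset fun _ h => h.1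
  have hBf : B.Finite := (facet_finite S).subset fun _ h => h.1
  have h1 : {F : Set E4 | IsFacet (convexHull ℝ (S : Set E4)) F ∧ ¬ (v ∉ F ∧ w ∉ F)} = A ∪ B := by
    ext F
    simp only [hA, hB, Set.mem_ofPred_eq, Set.mem_union]
    tauto
  have h2 : A ∩ B = {F0} := by
    ext F
    simp only [hA, hB, Set.mem_ofPred_eq, Set.mem_inter_iff, Set.mem_singleton_iff]
    constructor
    · rintro ⟨⟨h3, h4⟩, -, h5⟩
      exact (one_facet S hF0 h3 (hI F0 hF0) hv hw hwv hn h4 h5).symm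
    · rintro rfl
      exact ⟨⟨hF0, hv.1⟩, hF0, hw.1⟩
  have h3 := Set.ncard_union_add_ncard_inter A B hAf hBf
  rw [h2, Set.ncard_singleton] at h3
  rw [h1]
  exact h3

theorem main (S : Finset E4) (hS : (interior (convexHull ℝ (S : Set E4))).Nonempty) :
    (∀ π : E4 →ₗ[ℝ] (Fin 2 → ℝ), Function.Surjective π →
      {p : Set E4 × E4 | IsFacet (convexHull ℝ (S : Set E4)) p.1 ∧ p.2 ∈ inner π p.1}.Finite ∧
      {p : Set E4 × E4 | IsFacet (convexHull ℝ (S : Set E4)) p.1 ∧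
        p.2 ∈ inner π p.1}.ncard + 6 ≤
        2 * ((convexHull ℝ (S : Set E4)).extremePoints ℝ).ncard) ∧
    {F : Set E4 | IsFacet (convexHull ℝ (S : Set E4)) F ∧ Stout F}.ncard + 3 ≤
      ((convexHull ℝ (S : Set E4)).extremePoints ℝ).ncard ∧
    (∀ F : Set E4, (IsRegIco F → NearReg F) ∧ (NearReg F → Stout F)) ∧
    ((∀ F, IsFacet (convexHull ℝ (S : Set E4)) F → IsIco F) →
      (∀ x ∈ (convexHull ℝ (S : Set E4)).extremePoints ℝ,
        12 ≤ {F : Set E4 | IsFacet (convexHull ℝ (S : Set E4)) F ∧ x ∈ F}.ncard) ∧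
      93 ≤ ((convexHull ℝ (S : Set E4)).extremePoints ℝ).ncard ∧
      ((convexHull ℝ (S : Set E4)).extremePoints ℝ).ncard ≤
        {F : Set E4 | IsFacet (convexHull ℝ (S : Set E4)) F}.ncard ∧
      (∀ F0, IsFacet (convexHull ℝ (S : Set E4)) F0 → ∀ v ∈ F0.extremePoints ℝ,
        ∀ w ∈ F0.extremePoints ℝ, w ≠ v → w ∉ nb F0 v →
        {F : Set E4 | IsFacet (convexHull ℝ (S : Set E4)) F}.ncard + 70 ≤
          {F : Set E4 | IsFacet (convexHull ℝ (S : Set E4)) F ∧ v ∉ F ∧ w ∉ F ∧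
            (innerFrom v w F).ncard ≤ 1}.ncard +
            ((convexHull ℝ (S : Set E4)).extremePoints ℝ).ncard) ∧
      {F : Set E4 | IsFacet (convexHull ℝ (S : Set E4)) F ∧ Stout F}.ncard + 70 ≤
        ((convexHull ℝ (S : Set E4)).extremePoints ℝ).ncard ∧
      (∀ π : E4 →ₗ[ℝ] (Fin 2 → ℝ), Function.Surjective π →
        3 ≤ {F : Set E4 | IsFacet (convexHull ℝ (S : Set E4)) F ∧
          (inner π F).ncard ≤ 1}.ncard) ∧
      (∃ π : E4 →ₗ[ℝ] (Fin 2 → ℝ), 3 ≤ {F : Set E4 |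
        IsFacet (convexHull ℝ (S : Set E4)) F ∧ 11 ≤ ((π '' F).extremePoints ℝ).ncard}.ncard)) := by
  obtain ⟨m1, -, m3⟩ := Pool.Agent.H77.IC.main S hS
  refine ⟨m1, ?_, fun F => ⟨reg_near, near_stout⟩, fun hI => ?_⟩
  · obtain ⟨π, hs, hπ⟩ := generic_facets S
    have h := shadow_facets S hS π hs
    have hfin : {F : Set E4 | IsFacet (convexHull ℝ (S : Set E4)) F ∧
        2 ≤ (inner π F).ncard}.Finite := (facet_finite S).subset fun x hx => hx.1
    have hle : {F : Set E4 | IsFacet (convexHull ℝ (S : Set E4)) F ∧ Stout F}.ncard ≤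
        {F : Set E4 | IsFacet (convexHull ℝ (S : Set E4)) F ∧ 2 ≤ (inner π F).ncard}.ncard := by
      apply Set.ncard_le_ncard _ hfin
      rintro F ⟨hF, hR⟩
      exact ⟨hF, stout_par S hS hF hR π (hπ F hF).1⟩
    omega
  · obtain ⟨k1, k2, k3, k4, -⟩ := m3 hI
    -- one pair
    have key : ∀ F0, IsFacet (convexHull ℝ (S : Set E4)) F0 → ∀ v ∈ F0.extremePoints ℝ,
        ∀ w ∈ F0.extremePoints ℝ, w ≠ v → w ∉ nb F0 v →
        {F : Set E4 | IsFacet (convexHull ℝ (S : Set E4)) F}.ncard + 70 ≤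
          {F : Set E4 | IsFacet (convexHull ℝ (S : Set E4)) F ∧ v ∉ F ∧ w ∉ F ∧
            (innerFrom v w F).ncard ≤ 1}.ncard +
            ((convexHull ℝ (S : Set E4)).extremePoints ℝ).ncard ∧
        93 ≤ ((convexHull ℝ (S : Set E4)).extremePoints ℝ).ncard ∧
        {F : Set E4 | IsFacet (convexHull ℝ (S : Set E4)) F ∧ Stout F}.ncard + 70 ≤
          ((convexHull ℝ (S : Set E4)).extremePoints ℝ).ncard := by
      intro F0 hF0 v hv w hw hwv hn
      have hPx : ∀ x ∈ F0.extremePoints ℝ, x ∈ (convexHull ℝ (S : Set E4)).extremePoints ℝ := by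
        intro x hx
        rw [ext_face hF0.1] at hx
        exact hx.2
      have h1 := count S hS hI hF0 hv hw hwv hn
      have h2 := union_card S hI hF0 hv hw hwv hn
      have h3 := k1 v (hPx v hv)
      have h4 := k1 w (hPx w hw)
      have h5 := split_ncard _ (facet_finite S) (fun F => v ∉ F ∧ w ∉ F)
      simp only [Set.mem_ofPred_eq] at h5
      have hfin : {F : Set E4 | IsFacet (convexHull ℝ (S : Set E4)) F ∧ v ∉ F ∧ w ∉ F}.Finite :=
        (facet_finite S).subset fun _ h => h.1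
      have h6 := split_ncard _ hfin (fun F => 2 ≤ (innerFrom v w F).ncard)
      have h7 : {F : Set E4 | F ∈ {F : Set E4 | IsFacet (convexHull ℝ (S : Set E4)) F ∧
          v ∉ F ∧ w ∉ F} ∧ 2 ≤ (innerFrom v w F).ncard} =
          {F : Set E4 | IsFacet (convexHull ℝ (S : Set E4)) F ∧ v ∉ F ∧ w ∉ F ∧
            2 ≤ (innerFrom v w F).ncard} := by
        ext F
        simp only [Set.mem_ofPred_eq]
        tauto
      have h8 : {F : Set E4 | F ∈ {F : Set E4 | IsFacet (convexHull ℝ (S : Set E4)) F ∧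
          v ∉ F ∧ w ∉ F} ∧ ¬ 2 ≤ (innerFrom v w F).ncard} =
          {F : Set E4 | IsFacet (convexHull ℝ (S : Set E4)) F ∧ v ∉ F ∧ w ∉ F ∧
            (innerFrom v w F).ncard ≤ 1} := by
        ext F
        simp only [Set.mem_ofPred_eq, not_le]
        constructor
        · rintro ⟨⟨a, b, c⟩, d⟩
          exact ⟨a, b, c, by omega⟩
        · rintro ⟨a, b, c, d⟩
          exact ⟨⟨a, b, c⟩, by omega⟩
      rw [h7, h8] at h6
      have h9 : {F : Set E4 | IsFacet (convexHull ℝ (S : Set E4)) F ∧ Stout F}.ncard ≤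
          {F : Set E4 | IsFacet (convexHull ℝ (S : Set E4)) F ∧ ¬ (v ∉ F ∧ w ∉ F)}.ncard +
          {F : Set E4 | IsFacet (convexHull ℝ (S : Set E4)) F ∧ v ∉ F ∧ w ∉ F ∧
            2 ≤ (innerFrom v w F).ncard}.ncard := by
        refine le_trans (Set.ncard_le_ncard ?_ ?_) (Set.ncard_union_le _ _)
        · rintro F ⟨hF, hst⟩
          by_cases hc : v ∉ F ∧ w ∉ F
          · exact Or.inr ⟨hF, hc.1, hc.2, stout_cross S hS hF hst (hPx v hv).1 (hPx w hw).1
              (Ne.symm hwv) hc.1 hc.2⟩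
          · exact Or.inl ⟨hF, hc⟩
        · exact ((facet_finite S).subset fun _ h => h.1).union
            ((facet_finite S).subset fun _ h => h.1)
      refine ⟨?_, ?_, ?_⟩ <;> omega
    -- existence of a pair
    obtain ⟨F0, hF0, v, hv, w, hw, hwv, hn⟩ : ∃ F0, IsFacet (convexHull ℝ (S : Set E4)) F0 ∧
        ∃ v ∈ F0.extremePoints ℝ, ∃ w ∈ F0.extremePoints ℝ, w ≠ v ∧ w ∉ nb F0 v := by
      have hPc : IsCompact (convexHull ℝ (S : Set E4)) := S.finite_toSet.isCompact_convexHull ℝ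
      have hPne : (convexHull ℝ (S : Set E4)).Nonempty := hS.mono interior_subset
      obtain ⟨x, hx⟩ := hPc.extremePoints_nonempty hPne
      obtain ⟨F0, hF0, hxF⟩ := vertex_in_facet S hS hx
      have hxe : x ∈ F0.extremePoints ℝ := by
        rw [ext_face hF0.1]
        exact ⟨hxF, hx⟩
      refine ⟨F0, hF0, x, hxe, ?_⟩
      by_contra hcon
      push Not at hcon
      have h5 := nb_five (hI F0 hF0) hxe
      have hnf : (nb F0 x).Finite := Set.finite_of_ncard_ne_zero (by omega)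
      have h12 := (hI F0 hF0).card
      have hsub : F0.extremePoints ℝ ⊆ insert x (nb F0 x) := by
        intro y hy
        by_cases hyx : y = x
        · exact Or.inl hyx
        · exact Or.inr (hcon y hy hyx)
      have h6 := Set.ncard_le_ncard hsub (hnf.insert x)
      have h7 := Set.ncard_insert_le x (nb F0 x)
      omega
    obtain ⟨-, q2, q3⟩ := key F0 hF0 v hv w hw hwv hn
    exact ⟨k1, q2, k2, fun F0 hF0 v hv w hw hwv hn => (key F0 hF0 v hv w hw hwv hn).1, q3,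
      k3, k4⟩

end Pool.Agent.H2.IR
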